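import Pool.Agent.SolTer.Defs

set_option autoImplicit false

open MvPolynomial Module

namespace Pool.Agent.SolTer

universe u

variable {K : Type u} [Field K] {n m : ℕ}

/-! ### linear forms -/

lemma eval_form (a p : Fin n → K) : eval p (form a) = ∑ i, a i * p i := by
  simp [form]

lemma mem_kernel (a p : Fin n → K) : p ∈ kernel a ↔ ∑ i, a i * p i = 0 := by
  simp [kernel, LinearMap.sum_apply]

lemma form_homog (a : Fin n → K) : (form a).IsHomogeneous 1 := by
  apply IsHomogeneous.sum
  intro i _
  exact isHomogeneous_C_mul_X _ _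

lemma form_zero : form (0 : Fin n → K) = 0 := by simp [form]

lemma form_smul (c : K) (a : Fin n → K) : form (c • a) = C c * form a := by
  simp only [form, Pi.smul_apply, smul_eq_mul, C_mul, Finset.mul_sum, mul_assoc]

lemma form_add (a b : Fin n → K) : form (a + b) = form a + form b := by
  simp only [form, Pi.add_apply, C_add, add_mul, Finset.sum_add_distrib]

lemma form_ne_zero {a : Fin n → K} (ha : a ≠ 0) : form a ≠ 0 := by
  obtain ⟨k, hk⟩ := Function.ne_iff.mp ha
  intro h
  apply hk
  have := congrArg (eval (Pi.single k 1)) h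
  rw [eval_form] at this
  simpa [Pi.single_apply] using this

lemma form_single (k : Fin n) : form (Pi.single k (1 : K)) = X k := by
  rw [form, Finset.sum_eq_single k]
  · simp
  · intro b _ hb; simp [Pi.single_apply, hb]
  · simp

lemma derivation_form (θ : Derivation K (MvPolynomial (Fin n) K) (MvPolynomial (Fin n) K))
    (a : Fin n → K) : θ (form a) = ∑ i, C (a i) * θ (X i) := by
  rw [form, map_sum]
  apply Finset.sum_congr rfl
  intro i _
  rw [Derivation.leibniz]
  simp [smul_eq_mul, MvPolynomial.derivation_C]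

/-- a derivation with prescribed values -/
lemma exists_derivation (f : Fin n → MvPolynomial (Fin n) K) :
    ∃ θ : Derivation K (MvPolynomial (Fin n) K) (MvPolynomial (Fin n) K), ∀ i, θ (X i) = f i :=
  ⟨mkDerivation K f, fun i => mkDerivation_X K f i⟩

lemma derivation_sum_apply {ι : Type} (s : Finset ι)
    (D : ι → Derivation K (MvPolynomial (Fin n) K) (MvPolynomial (Fin n) K))
    (g : MvPolynomial (Fin n) K) : (∑ i ∈ s, D i) g = ∑ i ∈ s, D i g := by
  classical
  induction s using Finset.induction_on with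
  | empty => simp
  | insert a s ha ih => rw [Finset.sum_insert ha, Finset.sum_insert ha, Derivation.add_apply, ih]

lemma derivation_eq_sum (θ : Derivation K (MvPolynomial (Fin n) K) (MvPolynomial (Fin n) K))
    (g : MvPolynomial (Fin n) K) : θ g = ∑ i, pderiv i g * θ (X i) := by
  classical
  have : θ = ∑ i, θ (X i) • pderiv i := by
    apply MvPolynomial.derivation_ext
    intro i
    rw [derivation_sum_apply]
    simp [Derivation.smul_apply, pderiv_X, Pi.single_apply]
  conv_lhs => rw [this]
  rw [derivation_sum_apply]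
  simp [Derivation.smul_apply, mul_comm]

lemma kernel_eq_smul {a b : Fin n → K} (hb : b ≠ 0) (h : kernel a = kernel b) :
    ∃ c : K, a = c • b := by
  classical
  obtain ⟨k, hk⟩ := Function.ne_iff.mp hb
  simp only [Pi.zero_apply] at hk
  refine ⟨a k / b k, ?_⟩
  ext j
  have hp : (b k • Pi.single j (1 : K) - b j • Pi.single k (1 : K) : Fin n → K) ∈ kernel b := by
    rw [mem_kernel]
    simp [Pi.single_apply, mul_sub, Finset.sum_sub_distrib]
    ring
  rw [← h, mem_kernel] at hp
  simp [Pi.single_apply, mul_sub, Finset.sum_sub_distrib] at hp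
  rw [Pi.smul_apply, smul_eq_mul, div_mul_eq_mul_div, eq_div_iff hk]
  linear_combination hp

/-! ### divisibility by a linear form -/

lemma eval_bind₁ (f : Fin n → MvPolynomial (Fin m) K) (p : Fin m → K)
    (g : MvPolynomial (Fin n) K) : eval p (bind₁ f g) = eval (fun i => eval p (f i)) g := by
  have := aeval_bind₁ (S := K) p f g
  simpa only [aeval_eq_eval] using this

/-- substitution eliminating the coordinate `k` on the kernel of `form a` -/
noncomputable def elim (a : Fin n → K) (k : Fin n) :
    MvPolynomial (Fin n) K →ₐ[K] MvPolynomial (Fin n) K :=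
  bind₁ fun i => if i = k then X k - C (a k)⁻¹ * form a else X i

lemma elim_form {a : Fin n → K} {k : Fin n} (hk : a k ≠ 0) : elim a k (form a) = 0 := by
  classical
  have h : ∀ b : Fin n → K, elim a k (form b) = form b - C (b k * (a k)⁻¹) * form a := by
    intro b
    rw [form, map_sum]
    have : ∀ i, elim a k (C (b i) * X i) =
        C (b i) * X i - if i = k then C (b k * (a k)⁻¹) * form a else 0 := by
      intro i
      rw [map_mul, elim, bind₁_C_right, bind₁_X_right]
      split_ifs with hi
      · subst hi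
        rw [C_mul]; ring
      · simp
    simp only [this, Finset.sum_sub_distrib, Finset.sum_ite_eq', Finset.mem_univ, if_true]
  rw [h, mul_inv_cancel₀ hk, C_1, one_mul, sub_self]

lemma form_dvd_sub_elim (a : Fin n → K) (k : Fin n) (g : MvPolynomial (Fin n) K) :
    form a ∣ g - elim a k g := by
  classical
  rw [← Ideal.mem_span_singleton, ← Ideal.Quotient.eq]
  have : (Ideal.Quotient.mkₐ K (Ideal.span {form a})) =
      (Ideal.Quotient.mkₐ K (Ideal.span {form a})).comp (elim a k) := by
    apply MvPolynomial.algHom_ext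
    intro i
    rw [AlgHom.comp_apply, elim, bind₁_X_right]
    split_ifs with hi
    · subst hi
      rw [Ideal.Quotient.mkₐ_eq_mk, Ideal.Quotient.eq, Ideal.mem_span_singleton]
      rw [sub_sub_cancel]
      exact dvd_mul_left _ _
    · rfl
  exact DFunLike.congr_fun this g

lemma form_dvd_iff {a : Fin n → K} {k : Fin n} (hk : a k ≠ 0) (g : MvPolynomial (Fin n) K) :
    form a ∣ g ↔ elim a k g = 0 := by
  constructor
  · rintro ⟨q, rfl⟩
    rw [map_mul, elim_form hk, zero_mul]
  · intro h
    simpa [h] using form_dvd_sub_elim a k g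

lemma form_prime {a : Fin n → K} (ha : a ≠ 0) : Prime (form a) := by
  obtain ⟨k, hk⟩ := Function.ne_iff.mp ha
  simp only [Pi.zero_apply] at hk
  refine ⟨form_ne_zero ha, ?_, ?_⟩
  · intro hu
    have h1 : form a ∣ 1 := hu.dvd
    rw [form_dvd_iff hk, map_one] at h1
    exact one_ne_zero h1
  · intro g h hgh
    rw [form_dvd_iff hk] at hgh ⊢
    rw [form_dvd_iff hk]
    rwa [map_mul, mul_eq_zero] at hgh

lemma form_dvd_iff_eval [Infinite K] {a : Fin n → K} (ha : a ≠ 0) (g : MvPolynomial (Fin n) K) :
    form a ∣ g ↔ ∀ p : Fin n → K, ∑ i, a i * p i = 0 → eval p g = 0 := by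
  classical
  constructor
  · rintro ⟨q, rfl⟩ p hp
    rw [map_mul, eval_form, hp, zero_mul]
  · intro h
    obtain ⟨k, hk⟩ := Function.ne_iff.mp ha
    simp only [Pi.zero_apply] at hk
    rw [form_dvd_iff hk]
    apply MvPolynomial.funext
    intro p
    rw [map_zero]
    have h1 : eval p (elim a k g) =
        eval (fun i => eval p (if i = k then X k - C (a k)⁻¹ * form a else X i)) g := by
      rw [elim, eval_bind₁]
    rw [h1]
    apply h
    have : ∀ i, a i * eval p (if i = k then X k - C (a k)⁻¹ * form a else X i) =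
        a i * p i - if i = k then (∑ j, a j * p j) else 0 := by
      intro i
      split_ifs with hi
      · subst hi
        simp only [map_sub, eval_X, map_mul, eval_C, eval_form]
        field_simp
      · simp
    simp only [this, Finset.sum_sub_distrib, Finset.sum_ite_eq', Finset.mem_univ, if_true,
      sub_self]

/-- distinct linear forms are coprime -/
lemma form_dvd_of_dvd_mul {a b : Fin n → K} (hb : b ≠ 0) {g : MvPolynomial (Fin n) K}
    (hab : ¬ form b ∣ form a) (h : form b ∣ form a * g) : form b ∣ g :=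
  ((form_prime hb).dvd_or_dvd h).resolve_left hab

lemma not_form_dvd_form {a b : Fin n → K} (p : Fin n → K) (hb : ∑ i, b i * p i = 0)
    (ha : ∑ i, a i * p i ≠ 0) : ¬ form b ∣ form a := by
  rintro ⟨q, hq⟩
  apply ha
  rw [← eval_form, hq, map_mul, eval_form, hb, zero_mul]

/-! ### arrangements given by a family of vectors -/

/-- the arrangement of the kernels of a family of linear forms -/
def arr {ι : Type} (v : ι → Fin n → K) : Set (Submodule K (Fin n → K)) :=
  Set.range fun i => kernel (v i)

lemma arr_isArrangement {ι : Type} [Finite ι] (v : ι → Fin n → K) (hv : ∀ i, v i ≠ 0) :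
    IsArrangement (arr v) := by
  refine ⟨Set.finite_range _, ?_⟩
  rintro H ⟨i, rfl⟩
  exact ⟨v i, hv i, rfl⟩

lemma mem_logDer_arr {ι : Type} (v : ι → Fin n → K) (hv : ∀ i, v i ≠ 0)
    (θ : Derivation K (MvPolynomial (Fin n) K) (MvPolynomial (Fin n) K)) :
    θ ∈ logDer (arr v) ↔ ∀ i, form (v i) ∣ ∑ j, C (v i j) * θ (X j) := by
  constructor
  · intro h i
    rw [← derivation_form]
    exact h (v i) ⟨i, rfl⟩
  · rintro h a ⟨i, hi⟩
    obtain ⟨c, rfl⟩ := kernel_eq_smul (hv i) hi.symm
    rw [derivation_form, form_smul]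
    have : ∑ j, C ((c • v i) j) * θ (X j) = C c * ∑ j, C (v i j) * θ (X j) := by
      rw [Finset.mul_sum]
      apply Finset.sum_congr rfl
      intro j _
      rw [Pi.smul_apply, smul_eq_mul, C_mul, mul_assoc]
    rw [this]
    exact mul_dvd_mul_left _ (h i)

/-! ### the Solomon-Terao ideal -/

lemma mem_stIdeal (A : Set (Submodule K (Fin n → K))) (η g : MvPolynomial (Fin n) K) :
    g ∈ stIdeal A η ↔ ∃ θ ∈ logDer A, θ η = g := by
  constructor
  · intro h
    refine Submodule.span_induction ?_ ?_ ?_ ?_ h
    · rintro x hx; exact hx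
    · exact ⟨0, fun a _ => by simp, by simp⟩
    · rintro x y _ _ ⟨θ, hθ, rfl⟩ ⟨θ', hθ', rfl⟩
      exact ⟨θ + θ', fun a ha => by
        rw [Derivation.add_apply]; exact dvd_add (hθ a ha) (hθ' a ha), by simp⟩
    · rintro c x _ ⟨θ, hθ, rfl⟩
      exact ⟨c • θ, fun a ha => by
        rw [Derivation.smul_apply, smul_eq_mul]; exact (hθ a ha).mul_left c, by simp⟩
  · intro h
    exact Ideal.subset_span h

/-- the sum of the squares of the coordinates -/
noncomputable def sq (K : Type u) [Field K] (n : ℕ) : MvPolynomial (Fin n) K := ∑ i, X i ^ 2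

lemma derivation_sq (θ : Derivation K (MvPolynomial (Fin n) K) (MvPolynomial (Fin n) K)) :
    θ (sq K n) = 2 * ∑ i, X i * θ (X i) := by
  rw [sq, map_sum, Finset.mul_sum]
  apply Finset.sum_congr rfl
  intro i _
  rw [Derivation.leibniz_pow]
  simp [smul_eq_mul, nsmul_eq_mul]
  try ring

lemma sq_homog : (sq K n).IsHomogeneous 2 := by
  apply IsHomogeneous.sum
  intro i _
  exact isHomogeneous_X_pow i 2

/-- membership in the Solomon-Terao ideal in terms of coefficient vectors -/
lemma mem_stIdeal_arr {ι : Type} (v : ι → Fin n → K) (hv : ∀ i, v i ≠ 0)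
    (g : MvPolynomial (Fin n) K) :
    g ∈ stIdeal (arr v) (sq K n) ↔ ∃ f : Fin n → MvPolynomial (Fin n) K,
      (∀ i, form (v i) ∣ ∑ j, C (v i j) * f j) ∧ g = 2 * ∑ j, X j * f j := by
  rw [mem_stIdeal]
  constructor
  · rintro ⟨θ, hθ, rfl⟩
    exact ⟨fun i => θ (X i), (mem_logDer_arr v hv θ).mp hθ, derivation_sq θ⟩
  · rintro ⟨f, hf, rfl⟩
    obtain ⟨θ, hθ⟩ := exists_derivation f
    refine ⟨θ, (mem_logDer_arr v hv θ).mpr ?_, ?_⟩
    · simpa only [hθ] using hf
    · rw [derivation_sq]
      simp only [hθ]

end Pool.Agent.SolTer
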