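import Mathlib

set_option autoImplicit false

/-!
# Solomon-Terao algebras of hyperplane arrangements

Arrangements in `Kⁿ` are sets of linear hyperplanes `H` of `Kⁿ`; the polynomial ring is
`MvPolynomial (Fin n) K`, and derivations are Mathlib's derivations of it over `K`.
-/

open MvPolynomial Module

namespace Pool.Agent.SolTer

universe u

variable {K : Type u} [Field K] {n m : ℕ}

/-- The linear form `a₁ x₁ + ... + aₙ xₙ`, as a polynomial. -/
noncomputable def form (a : Fin n → K) : MvPolynomial (Fin n) K := ∑ i, C (a i) * X i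

/-- The kernel `{p | a₁ p₁ + ... + aₙ pₙ = 0}` of the linear form with coefficients `a`. -/
def kernel (a : Fin n → K) : Submodule K (Fin n → K) :=
  LinearMap.ker (∑ i, a i • (LinearMap.proj i : (Fin n → K) →ₗ[K] K))

/-- An arrangement in `Kⁿ`: a finite set of linear hyperplanes. -/
def IsArrangement (A : Set (Submodule K (Fin n → K))) : Prop :=
  A.Finite ∧ ∀ H ∈ A, ∃ a : Fin n → K, a ≠ 0 ∧ H = kernel a

/-- `D(A)`: the derivations `θ` of the polynomial ring such that `α` divides `θ(α)` for all linear
forms `α` whose kernel is a member of `A`. -/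
def logDer (A : Set (Submodule K (Fin n → K))) :
    Set (Derivation K (MvPolynomial (Fin n) K) (MvPolynomial (Fin n) K)) :=
  {θ | ∀ a : Fin n → K, kernel a ∈ A → form a ∣ θ (form a)}

/-- The Solomon-Terao ideal `a(A, η) = {θ(η) | θ ∈ D(A)}` (see `mem_stIdeal` for the fact that
this set is already an ideal). -/
noncomputable def stIdeal (A : Set (Submodule K (Fin n → K))) (η : MvPolynomial (Fin n) K) :
    Ideal (MvPolynomial (Fin n) K) :=
  Ideal.span {g | ∃ θ ∈ logDer A, θ η = g}

/-- The dimension over `K` of the degree `i` part of the graded ring `S/I`. -/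
noncomputable def hilbFun (I : Ideal (MvPolynomial (Fin n) K)) (i : ℕ) : ℕ :=
  finrank K ((homogeneousSubmodule (Fin n) K i).map (Ideal.Quotient.mkₐ K I).toLinearMap)

/-- The Hilbert series `∑ᵢ dim (S/I)ᵢ xⁱ` of `S/I`, for ideals `I` with finite-dimensional
quotient, as a polynomial. -/
noncomputable def hilb (I : Ideal (MvPolynomial (Fin n) K)) : Polynomial ℚ :=
  ∑ᶠ i : ℕ, Polynomial.monomial i (hilbFun I i : ℚ)

/-- `L(A)`: the set of all intersections of subsets of `A`, including `Kⁿ`. -/
def flats (A : Set (Submodule K (Fin n → K))) : Set (Submodule K (Fin n → K)) :=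
  {X | ∃ B ⊆ A, X = sInf B}

open Classical in
/-- The Möbius function of `L(A)`, with `μ(Kⁿ) = 1` and `μ(X) = - ∑ μ(Y)`, the sum over all
`Y ∈ L(A)` strictly containing `X`, for `X ≠ Kⁿ`. -/
noncomputable def moebius (A : Set (Submodule K (Fin n → K))) : Submodule K (Fin n → K) → ℤ :=
  IsWellFounded.fix (· > ·) fun X μ =>
    if X = ⊤ then 1 else -∑ᶠ Y : {Y : Submodule K (Fin n → K) // Y ∈ flats A ∧ X < Y}, μ Y.1 Y.2.2

/-- The Poincaré polynomial `π(A; t) = ∑ μ(X) (-t) ^ codim X`, the sum over all `X ∈ L(A)`. -/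
noncomputable def poincare (A : Set (Submodule K (Fin n → K))) : Polynomial ℚ :=
  ∑ᶠ X : flats A, Polynomial.C (moebius A X : ℚ) * (-Polynomial.X) ^ (n - finrank K X)

/-- For a linear isomorphism `ι` from `Kᵐ` onto a subspace `X` of `Kⁿ`, the restriction `f|_X` of
a polynomial `f`, in the coordinates of `Kᵐ`: the polynomial `f ∘ ι`. -/
noncomputable def pullback (ι : (Fin m → K) →ₗ[K] (Fin n → K)) (f : MvPolynomial (Fin n) K) :
    MvPolynomial (Fin m) K :=
  bind₁ (fun i => form fun j => ι (Pi.single j 1) i) f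

/-- For a linear isomorphism `ι` from `Kᵐ` onto a hyperplane `H`, the restricted arrangement
`Aᴴ = {H ∩ L | L ∈ A, L ≠ H}` in `H`, in the coordinates of `Kᵐ`. -/
def restrict (ι : (Fin m → K) →ₗ[K] (Fin n → K)) (A : Set (Submodule K (Fin n → K))) :
    Set (Submodule K (Fin m → K)) :=
  {Y | ∃ L ∈ A, L ≠ LinearMap.range ι ∧ Y = L.comap ι}

/-- The polynomial `f` is non-degenerate on the subspace `X`: in any linear coordinates on `X`, the
polynomials `θ(f|_X)`, where `θ` is a derivation of the coordinate ring of `X`, have no common zero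
on `X` other than the origin. -/
def NondegenerateOn (X : Submodule K (Fin n → K)) (f : MvPolynomial (Fin n) K) : Prop :=
  ∀ (m : ℕ) (ι : (Fin m → K) →ₗ[K] (Fin n → K)), Function.Injective ι → LinearMap.range ι = X →
    ∀ p : Fin m → K, (∀ θ : Derivation K (MvPolynomial (Fin m) K) (MvPolynomial (Fin m) K),
      eval p (θ (pullback ι f)) = 0) → p = 0

/-- `U_d(A)`: the forms of degree `d` which are non-degenerate on every `X ∈ L(A)`. -/
def formsU (d : ℕ) (A : Set (Submodule K (Fin n → K))) : Set (MvPolynomial (Fin n) K) :=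
  {f | f.IsHomogeneous d ∧ ∀ X ∈ flats A, NondegenerateOn X f}

end Pool.Agent.SolTer
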