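import Pool.Agent.SolTer.FirstA

set_option autoImplicit false

open MvPolynomial Module

namespace Pool.Agent.SolTer.First

universe u

variable (K : Type u) [Field K]

def LA : List (List ℤ) :=
  [[0, 0, 0, 1], [1, 0, 0, 1], [1, 0, 0, -1], [0, 1, 0, 1], [0, 1, 0, -1], [0, 0, 1, 1],
    [0, 0, 1, -1], [1, 1, 0, 0], [1, 0, 1, 0], [0, 1, 1, 0], [2, 1, -1, 0]]

def LR : List (List ℤ) :=
  [[1, 0, 0], [0, 1, 0], [0, 0, 1], [1, 1, 0], [1, 0, 1], [0, 1, 1], [2, 1, -1]]

lemma poincareA [CharZero K] : poincare (arr fun i => castV K (v i)) =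
    (1 + Polynomial.X) * (1 + 6 * Polynomial.X + 11 * Polynomial.X ^ 2) *
      (1 + 4 * Polynomial.X) := by
  have hL : List.ofFn (fun i => castV K (v i)) = LA.map (lvec K 4) := by
    simp only [List.ofFn_succ, List.ofFn_zero, LA, List.map_cons, List.map_nil]
    simp only [List.cons.injEq, and_true]
    refine ⟨?_, ?_, ?_, ?_, ?_, ?_, ?_, ?_, ?_, ?_, ?_⟩ <;>
      (ext i; fin_cases i <;> simp [castV, v, lvec])
  rw [poincare_eq_polyL 11 _ LA hL (v_ne K)]
  have : comp 4 11 LA = [1, -11, 45, -79, 44] := by decide +kernel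
  rw [this]
  simp only [polyL, Int.cast_neg, map_neg, Int.cast_one, map_one, Int.cast_ofNat, map_ofNat]
  ring

lemma poincareR [CharZero K] : poincare (arr fun i => castV K (w i)) =
    (1 + Polynomial.X) * (1 + 6 * Polynomial.X + 11 * Polynomial.X ^ 2) := by
  have hL : List.ofFn (fun i => castV K (w i)) = LR.map (lvec K 3) := by
    simp only [List.ofFn_succ, List.ofFn_zero, LR, List.map_cons, List.map_nil]
    simp only [List.cons.injEq, and_true]
    refine ⟨?_, ?_, ?_, ?_, ?_, ?_, ?_⟩ <;> (ext i; fin_cases i <;> simp [castV, w, lvec])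
  rw [poincare_eq_polyL 7 _ LR hL (w_ne K)]
  have : comp 3 7 LR = [1, -7, 17, -11] := by decide +kernel
  rw [this]
  simp only [polyL, Int.cast_neg, map_neg, Int.cast_one, map_one, Int.cast_ofNat, map_ofNat]
  ring

lemma restrictA [CharZero K] : restrict (emb K 3) (arr fun i => castV K (v i)) =
    arr fun i => castV K (w i) :=
  restrict_arr v w 0 ![0, 0, 0, 1, 1, 2, 2, 3, 4, 5, 6] ![1, 3, 5, 7, 8, 9, 10]
    (by decide) (by decide) (by decide) (by decide)

/-- the polynomial argument -/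
lemma not_dvd_of_coeffs (p r : Polynomial ℚ) (hr0 : r.coeff 0 = 1) (hr1 : r.coeff 1 = 3)
    (hr2 : r.coeff 2 = 5) (hr3 : r.coeff 3 = 7) (hr4 : r.coeff 4 = 9) (hr5 : r.coeff 5 ≤ 7)
    (hr7 : r.coeff 7 ≠ 0) (hp0 : p.coeff 0 = 1) (hp1 : p.coeff 1 = 4) (hp2 : p.coeff 2 = 9)
    (hp3 : p.coeff 3 = 16) (hp4 : p.coeff 4 = 25) (hp5 : 32 ≤ p.coeff 5)
    (hp : ∀ d, 11 < d → p.coeff d = 0) : ¬ r ∣ p := by
  rintro ⟨q, rfl⟩
  have hr : r ≠ 0 := by rintro rfl; simp at hr0
  have hq : q ≠ 0 := by rintro rfl; simp at hp0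
  have h1 : 7 ≤ r.natDegree := Polynomial.le_natDegree_of_ne_zero hr7
  have h2 : (r * q).natDegree ≤ 11 := by
    rw [Polynomial.natDegree_le_iff_coeff_eq_zero]
    exact fun d hd => hp d hd
  rw [Polynomial.natDegree_mul hr hq] at h2
  have h3 : q.coeff 5 = 0 := Polynomial.coeff_eq_zero_of_natDegree_lt (by omega)
  rw [Polynomial.coeff_mul, Finset.Nat.sum_antidiagonal_eq_sum_range_succ_mk] at hp0 hp1 hp2 hp3 hp4 hp5
  simp only [Finset.sum_range_succ, Finset.sum_range_zero, Nat.sub_self] at hp0 hp1 hp2 hp3 hp4 hp5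
  norm_num [hr0, hr1, hr2, hr3, hr4, h3] at hp0 hp1 hp2 hp3 hp4 hp5
  have q1 : q.coeff 1 = 1 := by linarith
  have q2 : q.coeff 2 = 1 := by linarith
  have q3 : q.coeff 3 = 1 := by linarith
  have q4 : q.coeff 4 = 1 := by linarith
  rw [q1, q2, q3, q4, hp0] at hp5
  linarith

theorem first [CharZero K] [IsAlgClosed K] :
    ∃ (A : Set (Submodule K (Fin 4 → K))) (ι : (Fin 3 → K) →ₗ[K] (Fin 4 → K))
      (η : MvPolynomial (Fin 4) K),
      IsArrangement A ∧ Function.Injective ι ∧ LinearMap.range ι ∈ A ∧ η ∈ formsU 2 A ∧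
      poincare (restrict ι A) ∣ poincare A ∧
      ¬ hilb (stIdeal (restrict ι A) (pullback ι η)) ∣ hilb (stIdeal A η) := by
  refine ⟨arr fun i => castV K (v i), emb K 3, sq K 4, arr_isArrangement _ (v_ne K),
    emb_injective, ?_, sq_mem_formsU v, ?_, ?_⟩
  · refine ⟨0, ?_⟩
    rw [range_emb]
    change kernel (castV K (v 0)) = _
    congr 1
    ext i
    fin_cases i <;> simp [castV, v]
  · rw [restrictA, poincareA, poincareR]
    exact dvd_mul_right _ _
  · rw [restrictA, pullback_sq]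
    have hzA : ∀ d, 11 < d → hilbFun (stIdeal (arr fun i => castV K (v i)) (sq K 4)) d = 0 := by
      intro d hd
      apply hilbFun_eq_zero
      intro g hg
      exact mem_stIdeal_of_large v (v_ne K) hg (by simpa using hd)
    have hzR : ∀ d, 7 < d → hilbFun (stIdeal (arr fun i => castV K (w i)) (sq K 3)) d = 0 := by
      intro d hd
      apply hilbFun_eq_zero
      intro g hg
      exact mem_stIdeal_of_large w (w_ne K) hg (by simpa using hd)
    have A0 := hilbFunA_low K 0
    have A1 := hilbFunA_low K 1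
    have A2 := hilbFunA_low K 2
    have A3 := hilbFunA_low K 3
    have A4 := hilbFunA_low K 4
    have R0 := hilbFunR_low K 0
    have R1 := hilbFunR_low K 1
    have R2 := hilbFunR_low K 2
    have R3 := hilbFunR_low K 3
    have R4 := hilbFunR_low K 4
    simp at A0 A1 A2 A3 A4 R0 R1 R2 R3 R4
    apply not_dvd_of_coeffs
    · rw [hilb_coeff hzR, R0]; norm_num
    · rw [hilb_coeff hzR, R1]; norm_num
    · rw [hilb_coeff hzR, R2]; norm_num
    · rw [hilb_coeff hzR, R3]; norm_num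
    · rw [hilb_coeff hzR, R4]; norm_num
    · rw [hilb_coeff hzR]
      exact_mod_cast hilbFunR_five K
    · rw [hilb_coeff hzR]
      exact_mod_cast hilbFun_seven K
    · rw [hilb_coeff hzA, A0]; norm_num
    · rw [hilb_coeff hzA, A1]; norm_num
    · rw [hilb_coeff hzA, A2]; norm_num
    · rw [hilb_coeff hzA, A3]; norm_num
    · rw [hilb_coeff hzA, A4]; norm_num
    · rw [hilb_coeff hzA]
      exact_mod_cast hilbFunA_five K
    · intro d hd
      rw [hilb_coeff hzA, hzA d hd]; norm_num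

end Pool.Agent.SolTer.First
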