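import Pool.Agent.SolTer.FirstR

set_option autoImplicit false

open MvPolynomial Module

namespace Pool.Agent.SolTer.First

universe u

variable (K : Type u) [Field K]

lemma v_ne [CharZero K] (i : Fin 11) : castV K (v i) ≠ 0 := by
  intro h
  have h0 := congrFun h 0
  have h1 := congrFun h 1
  have h2 := congrFun h 2
  have h3 := congrFun h 3
  fin_cases i <;> simp [castV, v] at h0 h1 h2 h3

lemma sq4 : sq K 4 = X 0 ^ 2 + X 1 ^ 2 + X 2 ^ 2 + X 3 ^ 2 := by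
  simp [sq, Fin.sum_univ_four]

lemma sq4_ne : sq K 4 ≠ 0 := by
  intro h
  have := congrArg (eval ![(1 : K), 0, 0, 0]) h
  rw [sq4] at this
  simp at this

/-- the linear forms over `K` -/
lemma formsA : (form (castV K (v 0)) = X 3) ∧ (form (castV K (v 1)) = X 0 + X 3) ∧
    (form (castV K (v 2)) = X 0 - X 3) ∧ (form (castV K (v 3)) = X 1 + X 3) ∧
    (form (castV K (v 4)) = X 1 - X 3) ∧ (form (castV K (v 5)) = X 2 + X 3) ∧
    (form (castV K (v 6)) = X 2 - X 3) ∧ (form (castV K (v 7)) = X 0 + X 1) ∧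
    (form (castV K (v 8)) = X 0 + X 2) ∧ (form (castV K (v 9)) = X 1 + X 2) ∧
    (form (castV K (v 10)) = 2 * X 0 + X 1 - X 2) := by
  refine ⟨?_, ?_, ?_, ?_, ?_, ?_, ?_, ?_, ?_, ?_, ?_⟩ <;>
    simp [form, castV, v, Fin.sum_univ_four] <;> ring

lemma two_factors {R : Type u} [CommRing R] [IsDomain R] {x u f q : R} (hp : Prime (x - u))
    (hn : ¬ x - u ∣ x + u) (h1 : x + u ∣ f + u * q) (h2 : x - u ∣ f - u * q) :
    ∃ F, f = x * q + (x + u) * (x - u) * F := by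
  have h1' : x + u ∣ f - x * q := by
    have : f - x * q = (f + u * q) - (x + u) * q := by ring
    rw [this]
    exact dvd_sub h1 (dvd_mul_right _ _)
  obtain ⟨r, hr⟩ := h1'
  have h2' : x - u ∣ (x + u) * r := by
    have : (x + u) * r = (f - u * q) - (x - u) * q := by rw [← hr]; ring
    rw [this]
    exact dvd_sub h2 (dvd_mul_right _ _)
  obtain ⟨F, hF⟩ := (hp.dvd_or_dvd h2').resolve_left hn
  exact ⟨F, by linear_combination hr + (x + u) * hF⟩

lemma sum_factor {R : Type u} [CommRing R] [IsDomain R] {x y u q F G : R} (hp : Prime (x + y))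
    (hn1 : ¬ x + y ∣ x + u) (hn2 : ¬ x + y ∣ x - u)
    (h : x + y ∣ (x * q + (x + u) * (x - u) * F) + (y * q + (y + u) * (y - u) * G)) :
    x + y ∣ F + G := by
  have h1 : x + y ∣ (x + u) * ((x - u) * (F + G)) := by
    have : (x + u) * ((x - u) * (F + G)) =
        ((x * q + (x + u) * (x - u) * F) + (y * q + (y + u) * (y - u) * G)) -
        (x + y) * (q - (x - y) * G) := by ring
    rw [this]
    exact dvd_sub h (dvd_mul_right _ _)
  exact (hp.dvd_or_dvd ((hp.dvd_or_dvd h1).resolve_left hn1)).resolve_left hn2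

/-- the generators of degree four -/
noncomputable def a1 : MvPolynomial (Fin 4) K :=
  (X 1 + X 2) * (-(X 0 * (X 0 ^ 2 - X 3 ^ 2)) + X 1 * (X 1 ^ 2 - X 3 ^ 2) +
    X 2 * (X 2 ^ 2 - X 3 ^ 2))
noncomputable def a2 : MvPolynomial (Fin 4) K :=
  (X 0 + X 2) * (X 0 * (X 0 ^ 2 - X 3 ^ 2) - X 1 * (X 1 ^ 2 - X 3 ^ 2) +
    X 2 * (X 2 ^ 2 - X 3 ^ 2))
noncomputable def a3 : MvPolynomial (Fin 4) K :=
  (X 0 + X 1) * (X 0 * (X 0 ^ 2 - X 3 ^ 2) + X 1 * (X 1 ^ 2 - X 3 ^ 2) -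
    X 2 * (X 2 ^ 2 - X 3 ^ 2))
/-- the values on the last linear form -/
noncomputable def b1 : MvPolynomial (Fin 4) K :=
  (X 1 + X 2) * (-(2 * (X 0 ^ 2 - X 3 ^ 2)) + (X 1 ^ 2 - X 3 ^ 2) - (X 2 ^ 2 - X 3 ^ 2))
noncomputable def b2 : MvPolynomial (Fin 4) K :=
  (X 0 + X 2) * (2 * (X 0 ^ 2 - X 3 ^ 2) - (X 1 ^ 2 - X 3 ^ 2) - (X 2 ^ 2 - X 3 ^ 2))
noncomputable def b3 : MvPolynomial (Fin 4) K :=
  (X 0 + X 1) * (2 * (X 0 ^ 2 - X 3 ^ 2) + (X 1 ^ 2 - X 3 ^ 2) + (X 2 ^ 2 - X 3 ^ 2))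

lemma structA [CharZero K] {g : MvPolynomial (Fin 4) K}
    (hg : g ∈ stIdeal (arr fun i => castV K (v i)) (sq K 4)) :
    ∃ q m₁ m₂ m₃ : MvPolynomial (Fin 4) K,
      g = sq K 4 * q + (a1 K * m₁ + a2 K * m₂ + a3 K * m₃) ∧
      form (castV K (v 10)) ∣ b1 K * m₁ + b2 K * m₂ + b3 K * m₃ := by
  obtain ⟨e0, e1, e2, e3, e4, e5, e6, e7, e8, e9, e10⟩ := formsA K
  obtain ⟨f, hf, rfl⟩ := (mem_stIdeal_arr _ (v_ne K) _).mp hg
  have h0 := hf 0
  have h1 := hf 1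
  have h2 := hf 2
  have h3 := hf 3
  have h4 := hf 4
  have h5 := hf 5
  have h6 := hf 6
  have h7 := hf 7
  have h8 := hf 8
  have h9 := hf 9
  have h10 := hf 10
  rw [e0] at h0
  rw [e1] at h1
  rw [e2] at h2
  rw [e3] at h3
  rw [e4] at h4
  rw [e5] at h5
  rw [e6] at h6
  rw [e7] at h7
  rw [e8] at h8
  rw [e9] at h9
  rw [e10] at h10
  simp only [Fin.sum_univ_four, castV, v] at h0 h1 h2 h3 h4 h5 h6 h7 h8 h9 h10
  simp [← sub_eq_add_neg] at h0 h1 h2 h3 h4 h5 h6 h7 h8 h9 h10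
  obtain ⟨q, hq⟩ := h0
  rw [hq] at h1 h2 h3 h4 h5 h6
  have p2 : Prime (X 0 - X 3 : MvPolynomial (Fin 4) K) := e2 ▸ form_prime (v_ne K 2)
  have p4 : Prime (X 1 - X 3 : MvPolynomial (Fin 4) K) := e4 ▸ form_prime (v_ne K 4)
  have p6 : Prime (X 2 - X 3 : MvPolynomial (Fin 4) K) := e6 ▸ form_prime (v_ne K 6)
  have p7 : Prime (X 0 + X 1 : MvPolynomial (Fin 4) K) := e7 ▸ form_prime (v_ne K 7)
  have p8 : Prime (X 0 + X 2 : MvPolynomial (Fin 4) K) := e8 ▸ form_prime (v_ne K 8)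
  have p9 : Prime (X 1 + X 2 : MvPolynomial (Fin 4) K) := e9 ▸ form_prime (v_ne K 9)
  have nd : ∀ (p : Fin 4 → K) (s t : MvPolynomial (Fin 4) K), eval p s = 0 → eval p t ≠ 0 →
      ¬ s ∣ t := by
    rintro p s t hs ht ⟨r, rfl⟩
    apply ht
    rw [map_mul, hs, zero_mul]
  obtain ⟨F, hF⟩ := two_factors p2 (nd ![1, 0, 0, 1] _ _ (by simp) (by simp)) h1 h2
  obtain ⟨G, hG⟩ := two_factors p4 (nd ![0, 1, 0, 1] _ _ (by simp) (by simp)) h3 h4
  obtain ⟨H, hH⟩ := two_factors p6 (nd ![0, 0, 1, 1] _ _ (by simp) (by simp)) h5 h6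
  rw [hF, hG] at h7
  rw [hF, hH] at h8
  rw [hG, hH] at h9
  rw [hF, hG, hH] at h10
  obtain ⟨m₃, hm₃⟩ := sum_factor p7 (nd ![1, -1, 0, 0] _ _ (by simp) (by simp))
    (nd ![1, -1, 0, 0] _ _ (by simp) (by simp)) h7
  obtain ⟨m₂, hm₂⟩ := sum_factor p8 (nd ![1, 0, -1, 0] _ _ (by simp) (by simp))
    (nd ![1, 0, -1, 0] _ _ (by simp) (by simp)) h8
  obtain ⟨m₁, hm₁⟩ := sum_factor p9 (nd ![0, 1, -1, 0] _ _ (by simp) (by simp))
    (nd ![0, 1, -1, 0] _ _ (by simp) (by simp)) h9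
  have f1 : 2 * F = (X 0 + X 1) * m₃ + (X 0 + X 2) * m₂ - (X 1 + X 2) * m₁ := by
    linear_combination hm₃ + hm₂ - hm₁
  have f2 : 2 * G = (X 0 + X 1) * m₃ - (X 0 + X 2) * m₂ + (X 1 + X 2) * m₁ := by
    linear_combination hm₃ - hm₂ + hm₁
  have f3 : 2 * H = -((X 0 + X 1) * m₃) + (X 0 + X 2) * m₂ + (X 1 + X 2) * m₁ := by
    linear_combination -hm₃ + hm₂ + hm₁
  refine ⟨2 * q, m₁, m₂, m₃, ?_, ?_⟩
  · rw [Fin.sum_univ_four, hq, hF, hG, hH, sq4, a1, a2, a3]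
    linear_combination (X 0 * (X 0 + X 3) * (X 0 - X 3)) * f1 +
      (X 1 * (X 1 + X 3) * (X 1 - X 3)) * f2 + (X 2 * (X 2 + X 3) * (X 2 - X 3)) * f3
  · rw [e10, b1, b2, b3]
    have : (X 1 + X 2) * (-(2 * (X 0 ^ 2 - X 3 ^ 2)) + (X 1 ^ 2 - X 3 ^ 2) -
        (X 2 ^ 2 - X 3 ^ 2)) * m₁ + (X 0 + X 2) * (2 * (X 0 ^ 2 - X 3 ^ 2) -
        (X 1 ^ 2 - X 3 ^ 2) - (X 2 ^ 2 - X 3 ^ 2)) * m₂ + (X 0 + X 1) *
        (2 * (X 0 ^ 2 - X 3 ^ 2) + (X 1 ^ 2 - X 3 ^ 2) + (X 2 ^ 2 - X 3 ^ 2)) * m₃ =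
        2 * (2 * (X 0 * q + (X 0 + X 3) * (X 0 - X 3) * F) +
          (X 1 * q + (X 1 + X 3) * (X 1 - X 3) * G) -
          (X 2 * q + (X 2 + X 3) * (X 2 - X 3) * H)) -
        (2 * X 0 + X 1 - X 2) * (2 * q) := by
      linear_combination -(2 * (X 0 + X 3) * (X 0 - X 3)) * f1 -
        ((X 1 + X 3) * (X 1 - X 3)) * f2 + ((X 2 + X 3) * (X 2 - X 3)) * f3
    rw [this]
    exact dvd_sub (h10.mul_left _) (dvd_mul_right _ _)

lemma two_homog {n : ℕ} : (2 : MvPolynomial (Fin n) K).IsHomogeneous 0 := by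
  rw [← map_ofNat C 2]
  exact isHomogeneous_C _ _

lemma quad_homog (i : Fin 4) : (X i ^ 2 - X 3 ^ 2 : MvPolynomial (Fin 4) K).IsHomogeneous 2 :=
  ((X_homog i).pow 2).sub ((X_homog 3).pow 2)

lemma a1_homog : (a1 K).IsHomogeneous 4 :=
  ((X_homog 1).add (X_homog 2)).mul ((((X_homog 0).mul (quad_homog K 0)).neg.add
    ((X_homog 1).mul (quad_homog K 1))).add ((X_homog 2).mul (quad_homog K 2)))

lemma a2_homog : (a2 K).IsHomogeneous 4 :=
  ((X_homog 0).add (X_homog 2)).mul ((((X_homog 0).mul (quad_homog K 0)).sub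
    ((X_homog 1).mul (quad_homog K 1))).add ((X_homog 2).mul (quad_homog K 2)))

lemma a3_homog : (a3 K).IsHomogeneous 4 :=
  ((X_homog 0).add (X_homog 1)).mul ((((X_homog 0).mul (quad_homog K 0)).add
    ((X_homog 1).mul (quad_homog K 1))).sub ((X_homog 2).mul (quad_homog K 2)))

lemma b1_homog : (b1 K).IsHomogeneous 3 :=
  ((X_homog 1).add (X_homog 2)).mul (((((two_homog K).mul (quad_homog K 0)).neg).add
    (quad_homog K 1)).sub (quad_homog K 2))

lemma b2_homog : (b2 K).IsHomogeneous 3 :=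
  ((X_homog 0).add (X_homog 2)).mul ((((two_homog K).mul (quad_homog K 0)).sub
    (quad_homog K 1)).sub (quad_homog K 2))

lemma b3_homog : (b3 K).IsHomogeneous 3 :=
  ((X_homog 0).add (X_homog 1)).mul ((((two_homog K).mul (quad_homog K 0)).add
    (quad_homog K 1)).add (quad_homog K 2))

/-- the graded form of the structure result -/
lemma structA' [CharZero K] {g : MvPolynomial (Fin 4) K} {d : ℕ}
    (hd : g.IsHomogeneous d)
    (hg : g ∈ stIdeal (arr fun i => castV K (v i)) (sq K 4)) :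
    ∃ q m₁ m₂ m₃ : MvPolynomial (Fin 4) K,
      q.IsHomogeneous (d - 2) ∧ m₁.IsHomogeneous (d - 4) ∧ m₂.IsHomogeneous (d - 4) ∧
      m₃.IsHomogeneous (d - 4) ∧
      g = (if 2 ≤ d then sq K 4 * q else 0) +
        (if 4 ≤ d then a1 K * m₁ + a2 K * m₂ + a3 K * m₃ else 0) ∧
      form (castV K (v 10)) ∣ b1 K * m₁ + b2 K * m₂ + b3 K * m₃ := by
  obtain ⟨q, m₁, m₂, m₃, h1, h2⟩ := structA K hg
  refine ⟨_, _, _, _, homogeneousComponent_isHomogeneous (d - 2) q,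
    homogeneousComponent_isHomogeneous (d - 4) m₁,
    homogeneousComponent_isHomogeneous (d - 4) m₂,
    homogeneousComponent_isHomogeneous (d - 4) m₃, ?_, ?_⟩
  · have h3 := congrArg (homogeneousComponent d) h1
    rw [homogeneousComponent_eq_self hd] at h3
    simp only [map_add, homogeneousComponent_mul_left sq_homog,
      homogeneousComponent_mul_left (a1_homog K), homogeneousComponent_mul_left (a2_homog K),
      homogeneousComponent_mul_left (a3_homog K)] at h3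
    rw [h3]
    split_ifs <;> ring
  · have h3 := form_dvd_component h2 (d - 4 + 3)
    simp only [map_add, homogeneousComponent_mul_left (b1_homog K),
      homogeneousComponent_mul_left (b2_homog K),
      homogeneousComponent_mul_left (b3_homog K)] at h3
    simpa using h3

lemma partA_le [CharZero K] {d : ℕ} (hd : d < 2) :
    part (stIdeal (arr fun i => castV K (v i)) (sq K 4)) d = ⊥ := by
  rw [eq_bot_iff]
  rintro g ⟨h1, h2⟩
  obtain ⟨q, m₁, m₂, m₃, -, -, -, -, h, -⟩ := structA' K h1 h2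
  rw [if_neg (by omega), if_neg (by omega), add_zero] at h
  exact (Submodule.mem_bot K).mpr h

lemma partA_eq [CharZero K] {d : ℕ} (hd : d < 2) :
    part (stIdeal (arr fun i => castV K (v i)) (sq K 4)) (d + 2) = mulPart (sq K 4) d := by
  apply le_antisymm _ (mulPart_le_part _ (v_ne K) d)
  rintro g ⟨h1, h2⟩
  obtain ⟨q, m₁, m₂, m₃, hq, -, -, -, h, -⟩ := structA' K h1 h2
  rw [if_pos (by omega), if_neg (by omega), add_zero] at h
  exact (mem_mulPart _ _ _).mpr ⟨q, hq, h⟩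

/-- evaluation of a multiple of the last form -/
lemma evalPA {K : Type u} [Field K] {f : MvPolynomial (Fin 4) K}
    (h : form (castV K (v 10)) ∣ f) (x y u : K) : eval ![x, y, 2 * x + y, u] f = 0 := by
  obtain ⟨r, rfl⟩ := h
  rw [map_mul, (formsA K).2.2.2.2.2.2.2.2.2.2]
  simp

lemma eval_b (x y u : K) (m₁ m₂ m₃ : MvPolynomial (Fin 4) K) :
    eval ![x, y, 2 * x + y, u] (b1 K * m₁ + b2 K * m₂ + b3 K * m₃) =
    2 * (x + y) * (2 * (u ^ 2 - 3 * x ^ 2 - 2 * x * y) * eval ![x, y, 2 * x + y, u] m₁ -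
      (3 * x + y) * (x + y) * eval ![x, y, 2 * x + y, u] m₂ +
      (3 * x ^ 2 + 2 * x * y + y ^ 2 - 2 * u ^ 2) * eval ![x, y, 2 * x + y, u] m₃) := by
  simp [b1, b2, b3]
  ring

lemma partA_four [CharZero K] :
    part (stIdeal (arr fun i => castV K (v i)) (sq K 4)) 4 = mulPart (sq K 4) 2 := by
  apply le_antisymm _ (mulPart_le_part _ (v_ne K) 2)
  rintro g ⟨h1, h2⟩
  obtain ⟨q, m₁, m₂, m₃, hq, hm₁, hm₂, hm₃, h, hP⟩ := structA' K h1 h2
  rw [← totalDegree_zero_iff_isHomogeneous, totalDegree_eq_zero_iff_eq_C] at hm₁ hm₂ hm₃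
  set c₁ := coeff 0 m₁
  set c₂ := coeff 0 m₂
  set c₃ := coeff 0 m₃
  rw [hm₁, hm₂, hm₃] at hP
  have p1 := evalPA hP 1 0 0
  have p2 := evalPA hP 0 1 0
  have p3 := evalPA hP 1 0 1
  rw [eval_b, eval_C, eval_C, eval_C] at p1 p2 p3
  have hc1 : c₁ = 0 := by
    linear_combination (-1 / 12 : K) * p1 + (1 / 4 : K) * p2
  have hc2 : c₂ = 0 := by
    linear_combination (1 / 6 : K) * p1 - (1 / 4 : K) * p2 - (1 / 4 : K) * p3
  have hc3 : c₃ = 0 := by
    linear_combination (1 / 6 : K) * p1 + (1 / 4 : K) * p2 - (1 / 4 : K) * p3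
  rw [if_pos (by omega), if_pos (by omega), hm₁, hm₂, hm₃, hc1, hc2, hc3] at h
  simp at h
  exact (mem_mulPart _ _ _).mpr ⟨q, hq, h⟩

/-! ### degree five -/

lemma exists_form {K : Type u} [Field K] {n : ℕ} {g : MvPolynomial (Fin n) K}
    (hg : g.IsHomogeneous 1) : ∃ a : Fin n → K, g = form a := by
  have h : g ∈ homogeneousSubmodule (Fin n) K 1 := hg
  rw [homogeneousSubmodule_one_eq_span_X] at h
  refine Submodule.span_induction (p := fun x _ => ∃ a : Fin n → K, x = form a) ?_ ?_ ?_ ?_ h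
  · rintro _ ⟨i, rfl⟩
    exact ⟨Pi.single i 1, (form_single i).symm⟩
  · exact ⟨0, form_zero.symm⟩
  · rintro _ _ _ _ ⟨a, rfl⟩ ⟨b, rfl⟩
    exact ⟨a + b, (form_add a b).symm⟩
  · rintro c _ _ ⟨a, rfl⟩
    exact ⟨c • a, by rw [form_smul, smul_eq_C_mul]⟩

/-- four elements of degree five -/
noncomputable def kA : Fin 4 → MvPolynomial (Fin 4) K :=
  ![a1 K * (2 * X 0 + X 1 - X 2), a2 K * (2 * X 0 + X 1 - X 2), a3 K * (2 * X 0 + X 1 - X 2),
    a1 K * (3 * X 0 + X 1) + a2 K * (-(3 * X 0) + X 1) + a3 K * (3 * X 0 + X 1)]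

noncomputable def kmapA : (Fin 4 → K) →ₗ[K] MvPolynomial (Fin 4) K :=
  Fintype.linearCombination K (kA K)

lemma partA_five [CharZero K] :
    part (stIdeal (arr fun i => castV K (v i)) (sq K 4)) 5 ≤
      mulPart (sq K 4) 3 ⊔ LinearMap.range (kmapA K) := by
  rintro g ⟨h1, h2⟩
  obtain ⟨q, m₁, m₂, m₃, hq, hm₁, hm₂, hm₃, h, hP⟩ := structA' K h1 h2
  obtain ⟨a, rfl⟩ := exists_form hm₁
  obtain ⟨b, rfl⟩ := exists_form hm₂
  obtain ⟨c, rfl⟩ := exists_form hm₃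
  have ev : ∀ x y u : K, 2 * (x + y) * (2 * (u ^ 2 - 3 * x ^ 2 - 2 * x * y) *
      (a 0 * x + a 1 * y + a 2 * (2 * x + y) + a 3 * u) -
      (3 * x + y) * (x + y) * (b 0 * x + b 1 * y + b 2 * (2 * x + y) + b 3 * u) +
      (3 * x ^ 2 + 2 * x * y + y ^ 2 - 2 * u ^ 2) *
      (c 0 * x + c 1 * y + c 2 * (2 * x + y) + c 3 * u)) = 0 := by
    intro x y u
    have := evalPA hP x y u
    rw [eval_b, eval_form, eval_form, eval_form] at this
    simpa [Fin.sum_univ_four] using this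
  have p1 := ev 1 0 0
  have p2 := ev 0 1 0
  have p3 := ev 0 1 1
  have p4 := ev 0 1 (-1)
  have p5 := ev 1 0 1
  have p6 := ev 1 0 (-1)
  have p7 := ev 0 1 2
  have p8 := ev 0 1 (-2)
  have p9 := ev 1 1 0
  -- `A_j`, `B_j`, `D_j`
  have q1 : -6 * (a 0 + 2 * a 2) - 3 * (b 0 + 2 * b 2) + 3 * (c 0 + 2 * c 2) = 0 := by
    linear_combination (1 / 2 : K) * p1
  have q2 : c 1 + c 2 = b 1 + b 2 := by
    linear_combination (1 / 2 : K) * p2
  have q3 : 2 * (a 1 + a 2) - (b 1 + b 2) - (c 1 + c 2) = 0 := by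
    linear_combination (1 / 4 : K) * (p3 + p4)
  have q4 : 2 * a 3 - b 3 - c 3 = 0 := by
    linear_combination (1 / 4 : K) * (p3 - p4)
  have q5 : -4 * (a 0 + 2 * a 2) - 3 * (b 0 + 2 * b 2) + (c 0 + 2 * c 2) = 0 := by
    linear_combination (1 / 4 : K) * (p5 + p6)
  have q6 : -4 * a 3 - 3 * b 3 + c 3 = 0 := by
    linear_combination (1 / 4 : K) * (p5 - p6)
  have q7 : 8 * a 3 - b 3 - 7 * c 3 = 0 := by
    linear_combination (1 / 8 : K) * (p7 - p8)
  have q8 : -10 * (a 0 + a 1 + 3 * a 2) - 8 * (b 0 + b 1 + 3 * b 2) +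
      6 * (c 0 + c 1 + 3 * c 2) = 0 := by
    linear_combination (1 / 4 : K) * p9
  have ha3 : a 3 = 0 := by
    linear_combination (11 / 18 : K) * q4 + (-1 / 6 : K) * q6 + (-1 / 9 : K) * q7
  have hb3 : b 3 = 0 := by
    linear_combination (-5 / 9 : K) * q4 + (-1 / 6 : K) * q6 + (1 / 18 : K) * q7
  have hc3 : c 3 = 0 := by
    linear_combination (7 / 9 : K) * q4 + (-1 / 6 : K) * q6 + (-5 / 18 : K) * q7
  have ha0 : a 0 = 3 * (a 1 + a 2) - 2 * a 2 := by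
    linear_combination (-5 / 12 : K) * q1 + (-7 / 4 : K) * q2 + (-1 / 4 : K) * q3 +
      (-1 / 4 : K) * q5 + (1 / 4 : K) * q8
  have hb0 : b 0 = -(3 * (a 1 + a 2)) - 2 * b 2 := by
    linear_combination (7 / 12 : K) * q1 + (7 / 4 : K) * q2 + (1 / 4 : K) * q3 +
      (-1 / 4 : K) * q5 + (-1 / 4 : K) * q8
  have hb1 : b 1 = (a 1 + a 2) - b 2 := by
    linear_combination (-1 / 2 : K) * q2 + (-1 / 2 : K) * q3
  have hc0 : c 0 = 3 * (a 1 + a 2) - 2 * c 2 := by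
    linear_combination (1 / 12 : K) * q1 + (-7 / 4 : K) * q2 + (-1 / 4 : K) * q3 +
      (-3 / 4 : K) * q5 + (1 / 4 : K) * q8
  have hc1 : c 1 = (a 1 + a 2) - c 2 := by
    linear_combination (1 / 2 : K) * q2 + (-1 / 2 : K) * q3
  have fa : form a = C (-a 2) * (2 * X 0 + X 1 - X 2) + C (a 1 + a 2) * (3 * X 0 + X 1) := by
    rw [form, Fin.sum_univ_four, ha3, ha0]
    simp only [map_add, map_sub, map_mul, map_neg, map_ofNat, C_0]
    ring
  have fb : form b = C (-b 2) * (2 * X 0 + X 1 - X 2) + C (a 1 + a 2) * (-(3 * X 0) + X 1) := by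
    rw [form, Fin.sum_univ_four, hb3, hb0, hb1]
    simp only [map_add, map_sub, map_mul, map_neg, map_ofNat, C_0]
    ring
  have fc : form c = C (-c 2) * (2 * X 0 + X 1 - X 2) + C (a 1 + a 2) * (3 * X 0 + X 1) := by
    rw [form, Fin.sum_univ_four, hc3, hc0, hc1]
    simp only [map_add, map_sub, map_mul, map_neg, map_ofNat, C_0]
    ring
  rw [if_pos (by omega), if_pos (by omega)] at h
  rw [h]
  apply Submodule.add_mem_sup
  · exact (mem_mulPart _ _ _).mpr ⟨q, hq, rfl⟩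
  · refine ⟨![-a 2, -b 2, -c 2, a 1 + a 2], ?_⟩
    rw [kmapA, Fintype.linearCombination_apply, Fin.sum_univ_four, fa, fb, fc]
    simp only [kA, Matrix.cons_val, smul_eq_C_mul]
    ring

lemma hilbFunA_five [CharZero K] :
    32 ≤ hilbFun (stIdeal (arr fun i => castV K (v i)) (sq K 4)) 5 := by
  have h1 := hilbFun_add (stIdeal (arr fun i => castV K (v i)) (sq K 4)) 5
  have h2 := Submodule.finrank_mono (partA_five K)
  have h3 := Submodule.finrank_add_le_finrank_add_finrank (mulPart (sq K 4) 3)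
    (LinearMap.range (kmapA K))
  have h4 : finrank K (LinearMap.range (kmapA K)) ≤ 4 := by
    have := LinearMap.finrank_range_le (kmapA K)
    simpa using this
  rw [finrank_mulPart (sq4_ne K), Nat.multichoose_eq] at h3
  have h6 : Nat.choose (4 + 3 - 1) 3 = 20 := by decide
  rw [Nat.multichoose_eq] at h1
  have h7 : Nat.choose (4 + 5 - 1) 5 = 56 := by decide
  omega

lemma hilbFunA_low [CharZero K] : ∀ d : Fin 5,
    hilbFun (stIdeal (arr fun i => castV K (v i)) (sq K 4)) d = ![1, 4, 9, 16, 25] d := by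
  have h := hilbFun_add (stIdeal (arr fun i => castV K (v i)) (sq K 4))
  have h0 := h 0
  have h1 := h 1
  have h2 := h (0 + 2)
  have h3 := h (1 + 2)
  have h4 := h 4
  rw [partA_le K (by norm_num), finrank_bot, Nat.multichoose_eq] at h0 h1
  rw [partA_eq K (by norm_num), finrank_mulPart (sq4_ne K), Nat.multichoose_eq,
    Nat.multichoose_eq] at h2 h3
  rw [partA_four, finrank_mulPart (sq4_ne K), Nat.multichoose_eq, Nat.multichoose_eq] at h4
  intro d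
  fin_cases d
  · simpa using h0
  · simpa using h1
  · have : hilbFun (stIdeal (arr fun i => castV K (v i)) (sq K 4)) 2 = 9 := by
      simp [Nat.choose] at h2; exact h2
    exact this
  · have : hilbFun (stIdeal (arr fun i => castV K (v i)) (sq K 4)) 3 = 16 := by
      simp [Nat.choose] at h3; exact h3
    exact this
  · have : hilbFun (stIdeal (arr fun i => castV K (v i)) (sq K 4)) 4 = 25 := by
      simp [Nat.choose] at h4; exact h4
    exact this

end Pool.Agent.SolTer.First
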