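import Pool.Agent.SolTer.FirstT

set_option autoImplicit false

open MvPolynomial Module

namespace Pool.Agent.SolTer.First

universe u

variable (K : Type u) [Field K]

lemma sq_mem_stIdeal {K : Type u} [Field K] [CharZero K] {n : ℕ} {ι : Type}
    (v : ι → Fin n → K) (hv : ∀ i, v i ≠ 0) : sq K n ∈ stIdeal (arr v) (sq K n) := by
  rw [mem_stIdeal_arr _ hv]
  have half : (2 : MvPolynomial (Fin n) K) * C (1 / 2) = 1 := by
    rw [← map_ofNat C 2, ← C_mul]; simp
  refine ⟨fun j => C (1 / 2) * X j, ?_, ?_⟩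
  · intro i
    have : ∑ j, C (v i j) * (C (1 / 2) * X j) = C (1 / 2) * form (v i) := by
      rw [form, Finset.mul_sum]
      exact Finset.sum_congr rfl fun j _ => by ring
    rw [this]
    exact dvd_mul_left _ _
  · have : ∑ j, X j * (C (1 / 2) * X j) = C (1 / 2) * sq K n := by
      rw [sq, Finset.mul_sum]
      exact Finset.sum_congr rfl fun j _ => by ring
    rw [this, ← mul_assoc, half, one_mul]

lemma mulPart_le_part {K : Type u} [Field K] [CharZero K] {n : ℕ} {ι : Type}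
    (v : ι → Fin n → K) (hv : ∀ i, v i ≠ 0) (d : ℕ) :
    mulPart (sq K n) d ≤ part (stIdeal (arr v) (sq K n)) (d + 2) := by
  intro x hx
  obtain ⟨q, hq, rfl⟩ := (mem_mulPart _ _ _).mp hx
  refine ⟨?_, Ideal.mul_mem_right _ _ (sq_mem_stIdeal v hv)⟩
  have := sq_homog.mul hq
  rwa [add_comm] at this

lemma sq3 : sq K 3 = X 0 ^ 2 + X 1 ^ 2 + X 2 ^ 2 := by
  simp [sq, Fin.sum_univ_three]

lemma sq3_ne : sq K 3 ≠ 0 := by
  intro h
  have := congrArg (eval ![(1 : K), 0, 0]) h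
  rw [sq3] at this
  simp at this

/-- the linear forms of the restriction over `K` -/
lemma formsR : (form (castV K (w 0)) = X 0) ∧ (form (castV K (w 1)) = X 1) ∧
    (form (castV K (w 2)) = X 2) ∧ (form (castV K (w 3)) = X 0 + X 1) ∧
    (form (castV K (w 4)) = X 0 + X 2) ∧ (form (castV K (w 5)) = X 1 + X 2) ∧
    (form (castV K (w 6)) = 2 * X 0 + X 1 - X 2) := by
  refine ⟨?_, ?_, ?_, ?_, ?_, ?_, ?_⟩ <;> simp [form, castV, w, Fin.sum_univ_three] <;> ring

/-- the generators of degree 4 of the ideal of the arrangement without the last plane -/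
noncomputable def rM : MvPolynomial (Fin 3) K := (X 0 + X 1) * (X 0 + X 2) * (X 1 ^ 2 + X 2 ^ 2)
noncomputable def r1 : MvPolynomial (Fin 3) K := X 1 ^ 2 * (X 0 + X 1) * (X 1 + X 2)
noncomputable def r2 : MvPolynomial (Fin 3) K := X 2 ^ 2 * (X 0 + X 2) * (X 1 + X 2)
/-- the values on the last linear form -/
noncomputable def sM : MvPolynomial (Fin 3) K := (X 0 + X 1) * (X 0 + X 2) * (X 1 - X 2)
noncomputable def s1 : MvPolynomial (Fin 3) K := X 1 * (X 0 + X 1) * (X 1 + X 2)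
noncomputable def s2 : MvPolynomial (Fin 3) K := -(X 2 * (X 0 + X 2) * (X 1 + X 2))

lemma structR [CharZero K] {g : MvPolynomial (Fin 3) K}
    (hg : g ∈ stIdeal (arr fun i => castV K (w i)) (sq K 3)) :
    ∃ q M N₁ N₂ : MvPolynomial (Fin 3) K,
      g = sq K 3 * q + (rM K * M + r1 K * N₁ + r2 K * N₂) ∧
      form (castV K (w 6)) ∣ sM K * M + s1 K * N₁ + s2 K * N₂ := by
  obtain ⟨e0, e1, e2, e3, e4, e5, e6⟩ := formsR K
  obtain ⟨f, hf, rfl⟩ := (mem_stIdeal_arr _ (w_ne K) _).mp hg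
  have h0 := hf 0
  have h1 := hf 1
  have h2 := hf 2
  have h3 := hf 3
  have h4 := hf 4
  have h5 := hf 5
  have h6 := hf 6
  rw [e0] at h0
  rw [e1] at h1
  rw [e2] at h2
  rw [e3] at h3
  rw [e4] at h4
  rw [e5] at h5
  rw [e6] at h6
  simp [Fin.sum_univ_three, castV, w] at h0 h1 h2 h3 h4 h5 h6
  obtain ⟨q, hq⟩ := h0
  obtain ⟨b, hb⟩ := h1
  obtain ⟨c, hc⟩ := h2
  rw [hq, hb] at h3
  rw [hq, hc] at h4
  rw [hb, hc] at h5
  rw [hq, hb, hc] at h6
  have p3 : Prime (X 0 + X 1 : MvPolynomial (Fin 3) K) := e3 ▸ form_prime (w_ne K 3)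
  have p4 : Prime (X 0 + X 2 : MvPolynomial (Fin 3) K) := e4 ▸ form_prime (w_ne K 4)
  have p5 : Prime (X 1 + X 2 : MvPolynomial (Fin 3) K) := e5 ▸ form_prime (w_ne K 5)
  have n3 : ¬ (X 0 + X 1 : MvPolynomial (Fin 3) K) ∣ X 1 := by
    rintro ⟨r, hr⟩
    have := congrArg (eval ![(1 : K), -1, 0]) hr
    simp at this
  have n4 : ¬ (X 0 + X 2 : MvPolynomial (Fin 3) K) ∣ X 2 := by
    rintro ⟨r, hr⟩
    have := congrArg (eval ![(1 : K), 0, -1]) hr
    simp at this
  have n5 : ¬ (X 1 + X 2 : MvPolynomial (Fin 3) K) ∣ X 1 := by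
    rintro ⟨r, hr⟩
    have := congrArg (eval ![(0 : K), 1, -1]) hr
    simp at this
  have h3' : (X 0 + X 1 : MvPolynomial (Fin 3) K) ∣ X 1 * (b - q) := by
    have : (X 1 * (b - q) : MvPolynomial (Fin 3) K) =
      (X 0 * q + X 1 * b) - (X 0 + X 1) * q := by ring
    rw [this]
    exact dvd_sub h3 (dvd_mul_right _ _)
  obtain ⟨G, hG⟩ := (p3.dvd_or_dvd h3').resolve_left n3
  have h4' : (X 0 + X 2 : MvPolynomial (Fin 3) K) ∣ X 2 * (c - q) := by
    have : (X 2 * (c - q) : MvPolynomial (Fin 3) K) =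
      (X 0 * q + X 2 * c) - (X 0 + X 2) * q := by ring
    rw [this]
    exact dvd_sub h4 (dvd_mul_right _ _)
  obtain ⟨H, hH⟩ := (p4.dvd_or_dvd h4').resolve_left n4
  have h5' : (X 1 + X 2 : MvPolynomial (Fin 3) K) ∣
      X 1 * ((X 0 + X 1) * G - (X 0 + X 2) * H) := by
    have : (X 1 * ((X 0 + X 1) * G - (X 0 + X 2) * H) : MvPolynomial (Fin 3) K) =
      (X 1 * b + X 2 * c) - (X 1 + X 2) * (q + (X 0 + X 2) * H) := by
        linear_combination (-X 1 : MvPolynomial (Fin 3) K) * hG +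
          (-X 2 : MvPolynomial (Fin 3) K) * hH
    rw [this]
    exact dvd_sub h5 (dvd_mul_right _ _)
  have h5'' := (p5.dvd_or_dvd h5').resolve_left n5
  obtain ⟨M, ⟨N₁, h7⟩, ⟨N₂, h8⟩⟩ := syz (w_ne K 5) (X 0 + X 1 : MvPolynomial (Fin 3) K)
    [castV K (w 4)] (by
      intro b hb
      rw [List.mem_singleton] at hb
      subst hb
      constructor
      · rw [e4, e5]
        rintro ⟨r, hr⟩
        have := congrArg (eval ![(1 : K), 0, 0]) hr
        simp at this
      · apply not_mem_span_pair ![(1 : K), 1, -1]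
        · rw [e5]; simp
        · rw [e4]; simp
        · simp) G (-H) (by
      rw [e5]
      simp only [List.map_cons, List.map_nil, List.prod_cons, List.prod_nil, mul_one, e4]
      have : (X 0 + X 1) * G + (X 0 + X 2) * -H = (X 0 + X 1) * G - (X 0 + X 2) * H := by ring
      rw [this]
      exact h5'')
  rw [e5] at h7 h8
  simp only [List.map_cons, List.map_nil, List.prod_cons, List.prod_nil, mul_one, e4] at h7
  -- `G = (x + z) M + (y + z) N₁` and `H = (x + y) M - (y + z) N₂`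
  refine ⟨2 * q, 2 * M, 2 * N₁, -(2 * N₂), ?_, ?_⟩
  · rw [Fin.sum_univ_three, hq, hb, hc, sq3, rM, r1, r2]
    linear_combination (2 * X 1 ^ 2 : MvPolynomial (Fin 3) K) * hG +
      (2 * X 2 ^ 2 : MvPolynomial (Fin 3) K) * hH +
      (2 * X 1 ^ 2 * (X 0 + X 1) : MvPolynomial (Fin 3) K) * h7 -
      (2 * X 2 ^ 2 * (X 0 + X 2) : MvPolynomial (Fin 3) K) * h8
  · rw [e6, sM, s1, s2]
    have : (X 0 + X 1) * (X 0 + X 2) * (X 1 - X 2) * (2 * M) +
        X 1 * (X 0 + X 1) * (X 1 + X 2) * (2 * N₁) +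
        -(X 2 * (X 0 + X 2) * (X 1 + X 2)) * -(2 * N₂) =
        2 * (2 * (X 0 * q) + X 1 * b + -(X 2 * c)) - (2 * X 0 + X 1 - X 2) * (2 * q) := by
      linear_combination (-2 * X 1 : MvPolynomial (Fin 3) K) * hG +
        (2 * X 2 : MvPolynomial (Fin 3) K) * hH -
        (2 * X 1 * (X 0 + X 1) : MvPolynomial (Fin 3) K) * h7 -
        (2 * X 2 * (X 0 + X 2) : MvPolynomial (Fin 3) K) * h8
    rw [this]
    exact dvd_sub (h6.mul_left _) (dvd_mul_right _ _)

lemma X_homog {K : Type u} [Field K] {n : ℕ} (i : Fin n) :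
    (X i : MvPolynomial (Fin n) K).IsHomogeneous 1 := isHomogeneous_X K i

lemma rM_homog : (rM K).IsHomogeneous 4 :=
  (((X_homog 0).add (X_homog 1)).mul ((X_homog 0).add (X_homog 2))).mul
    (((X_homog 1).pow 2).add ((X_homog 2).pow 2))

lemma r1_homog : (r1 K).IsHomogeneous 4 :=
  (((X_homog 1).pow 2).mul ((X_homog 0).add (X_homog 1))).mul ((X_homog 1).add (X_homog 2))

lemma r2_homog : (r2 K).IsHomogeneous 4 :=
  (((X_homog 2).pow 2).mul ((X_homog 0).add (X_homog 2))).mul ((X_homog 1).add (X_homog 2))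

lemma sM_homog : (sM K).IsHomogeneous 3 :=
  (((X_homog 0).add (X_homog 1)).mul ((X_homog 0).add (X_homog 2))).mul
    ((X_homog 1).sub (X_homog 2))

lemma s1_homog : (s1 K).IsHomogeneous 3 :=
  ((X_homog 1).mul ((X_homog 0).add (X_homog 1))).mul ((X_homog 1).add (X_homog 2))

lemma s2_homog : (s2 K).IsHomogeneous 3 :=
  (((X_homog 2).mul ((X_homog 0).add (X_homog 2))).mul ((X_homog 1).add (X_homog 2))).neg

/-- the graded form of the structure result -/
lemma structR' [CharZero K] {g : MvPolynomial (Fin 3) K} {d : ℕ}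
    (hd : g.IsHomogeneous d)
    (hg : g ∈ stIdeal (arr fun i => castV K (w i)) (sq K 3)) :
    ∃ q M N₁ N₂ : MvPolynomial (Fin 3) K,
      q.IsHomogeneous (d - 2) ∧ M.IsHomogeneous (d - 4) ∧ N₁.IsHomogeneous (d - 4) ∧
      N₂.IsHomogeneous (d - 4) ∧
      g = (if 2 ≤ d then sq K 3 * q else 0) +
        (if 4 ≤ d then rM K * M + r1 K * N₁ + r2 K * N₂ else 0) ∧
      form (castV K (w 6)) ∣ sM K * M + s1 K * N₁ + s2 K * N₂ := by
  obtain ⟨q, M, N₁, N₂, h1, h2⟩ := structR K hg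
  refine ⟨_, _, _, _, homogeneousComponent_isHomogeneous (d - 2) q,
    homogeneousComponent_isHomogeneous (d - 4) M, homogeneousComponent_isHomogeneous (d - 4) N₁,
    homogeneousComponent_isHomogeneous (d - 4) N₂, ?_, ?_⟩
  · have h3 := congrArg (homogeneousComponent d) h1
    rw [homogeneousComponent_eq_self hd] at h3
    simp only [map_add, homogeneousComponent_mul_left sq_homog,
      homogeneousComponent_mul_left (rM_homog K), homogeneousComponent_mul_left (r1_homog K),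
      homogeneousComponent_mul_left (r2_homog K)] at h3
    rw [h3]
    split_ifs <;> ring
  · have h3 := form_dvd_component h2 (d - 4 + 3)
    simp only [map_add, homogeneousComponent_mul_left (sM_homog K),
      homogeneousComponent_mul_left (s1_homog K),
      homogeneousComponent_mul_left (s2_homog K)] at h3
    simpa using h3

lemma partR_le [CharZero K] {d : ℕ} (hd : d < 2) :
    part (stIdeal (arr fun i => castV K (w i)) (sq K 3)) d = ⊥ := by
  rw [eq_bot_iff]
  rintro g ⟨h1, h2⟩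
  obtain ⟨q, M, N₁, N₂, -, -, -, -, h, -⟩ := structR' K h1 h2
  rw [if_neg (by omega), if_neg (by omega), add_zero] at h
  exact (Submodule.mem_bot K).mpr h

lemma partR_eq [CharZero K] {d : ℕ} (hd : d < 2) :
    part (stIdeal (arr fun i => castV K (w i)) (sq K 3)) (d + 2) = mulPart (sq K 3) d := by
  apply le_antisymm _ (mulPart_le_part _ (w_ne K) d)
  rintro g ⟨h1, h2⟩
  obtain ⟨q, M, N₁, N₂, hq, -, -, -, h, -⟩ := structR' K h1 h2
  rw [if_pos (by omega), if_neg (by omega), add_zero] at h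
  exact (mem_mulPart _ _ _).mpr ⟨q, hq, h⟩

/-- evaluation of a multiple of the last form -/
lemma evalP {K : Type u} [Field K] {f : MvPolynomial (Fin 3) K}
    (h : form (castV K (w 6)) ∣ f) (x y : K) : eval ![x, y, 2 * x + y] f = 0 := by
  obtain ⟨r, rfl⟩ := h
  rw [map_mul, (formsR K).2.2.2.2.2.2]
  simp

lemma partR_four [CharZero K] :
    part (stIdeal (arr fun i => castV K (w i)) (sq K 3)) 4 = mulPart (sq K 3) 2 := by
  apply le_antisymm _ (mulPart_le_part _ (w_ne K) 2)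
  rintro g ⟨h1, h2⟩
  obtain ⟨q, M, N₁, N₂, hq, hM, hN₁, hN₂, h, hP⟩ := structR' K h1 h2
  rw [← totalDegree_zero_iff_isHomogeneous, totalDegree_eq_zero_iff_eq_C] at hM hN₁ hN₂
  set m := coeff 0 M
  set n₁ := coeff 0 N₁
  set n₂ := coeff 0 N₂
  rw [hM, hN₁, hN₂] at hP
  have a1 := evalP hP 1 0
  have a2 := evalP hP 0 1
  have a3 := evalP hP 1 1
  simp [sM, s1, s2] at a1 a2 a3
  have hn2 : n₂ = 0 := by
    linear_combination (1 / 3 : K) * a1 + (1 / 2 : K) * a2 - (1 / 8 : K) * a3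
  have hn1 : n₁ = 0 := by
    linear_combination (1 / 3 : K) * a1 + a2 - (1 / 8 : K) * a3
  have hm : m = 0 := by
    linear_combination (-5 / 6 : K) * a1 - a2 + (1 / 4 : K) * a3
  rw [if_pos (by omega), if_pos (by omega), hM, hN₁, hN₂, hn1, hn2, hm] at h
  simp at h
  exact (mem_mulPart _ _ _).mpr ⟨q, hq, h⟩

/-! ### degree five -/

lemma halfR [CharZero K] : (2 : MvPolynomial (Fin 3) K) * C (1 / 2) = 1 := by
  rw [← map_ofNat C 2, ← C_mul]
  simp

/-- a criterion for membership in the ideal of the restriction -/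
lemma mem_of_vec [CharZero K] (f₀ f₁ f₂ : MvPolynomial (Fin 3) K)
    (h0 : X 0 ∣ f₀) (h1 : X 1 ∣ f₁) (h2 : X 2 ∣ f₂) (h3 : X 0 + X 1 ∣ f₀ + f₁)
    (h4 : X 0 + X 2 ∣ f₀ + f₂) (h5 : X 1 + X 2 ∣ f₁ + f₂)
    (h6 : 2 * X 0 + X 1 - X 2 ∣ 2 * f₀ + f₁ - f₂) :
    X 0 * f₀ + X 1 * f₁ + X 2 * f₂ ∈ stIdeal (arr fun i => castV K (w i)) (sq K 3) := by
  obtain ⟨e0, e1, e2, e3, e4, e5, e6⟩ := formsR K
  rw [mem_stIdeal_arr _ (w_ne K)]
  refine ⟨![C (1 / 2) * f₀, C (1 / 2) * f₁, C (1 / 2) * f₂], ?_, ?_⟩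
  · intro i
    fin_cases i
    · change form (castV K (w 0)) ∣ _
      rw [e0]
      refine (h0.mul_left (C (1 / 2))).trans (dvd_of_eq ?_)
      simp [Fin.sum_univ_three, castV, w]
    · change form (castV K (w 1)) ∣ _
      rw [e1]
      refine (h1.mul_left (C (1 / 2))).trans (dvd_of_eq ?_)
      simp [Fin.sum_univ_three, castV, w]
    · change form (castV K (w 2)) ∣ _
      rw [e2]
      refine (h2.mul_left (C (1 / 2))).trans (dvd_of_eq ?_)
      simp [Fin.sum_univ_three, castV, w]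
    · change form (castV K (w 3)) ∣ _
      rw [e3]
      have : ∑ j, C (castV K (w 3) j) * ![C (1 / 2) * f₀, C (1 / 2) * f₁, C (1 / 2) * f₂] j =
        C (1 / 2) * (f₀ + f₁) := by simp [Fin.sum_univ_three, castV, w]; ring
      exact this ▸ h3.mul_left _
    · change form (castV K (w 4)) ∣ _
      rw [e4]
      have : ∑ j, C (castV K (w 4) j) * ![C (1 / 2) * f₀, C (1 / 2) * f₁, C (1 / 2) * f₂] j =
        C (1 / 2) * (f₀ + f₂) := by simp [Fin.sum_univ_three, castV, w]; ring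
      exact this ▸ h4.mul_left _
    · change form (castV K (w 5)) ∣ _
      rw [e5]
      have : ∑ j, C (castV K (w 5) j) * ![C (1 / 2) * f₀, C (1 / 2) * f₁, C (1 / 2) * f₂] j =
        C (1 / 2) * (f₁ + f₂) := by simp [Fin.sum_univ_three, castV, w]; ring
      exact this ▸ h5.mul_left _
    · change form (castV K (w 6)) ∣ _
      rw [e6]
      have : ∑ j, C (castV K (w 6) j) * ![C (1 / 2) * f₀, C (1 / 2) * f₁, C (1 / 2) * f₂] j =
        C (1 / 2) * (2 * f₀ + f₁ - f₂) := by simp [Fin.sum_univ_three, castV, w]; ring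
      exact this ▸ h6.mul_left _
  · rw [Fin.sum_univ_three]
    simp only [Matrix.cons_val]
    linear_combination (-(X 0 * f₀ + X 1 * f₁ + X 2 * f₂) : MvPolynomial (Fin 3) K) * halfR K

/-- four elements of degree five of the ideal -/
noncomputable def k : Fin 4 → MvPolynomial (Fin 3) K :=
  ![X 0 ^ 2 * (X 0 + X 1) * (X 0 + X 2) * (2 * X 0 + X 1 - X 2),
    X 1 ^ 2 * (X 0 + X 1) * (X 1 + X 2) * (2 * X 0 + X 1 - X 2),
    X 2 ^ 2 * (X 0 + X 2) * (X 1 + X 2) * (2 * X 0 + X 1 - X 2),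
    X 1 * X 2 * (X 0 + X 2) * (X 2 * (X 0 - X 2) - X 1 * (X 0 + X 1))]

lemma k_homog (i : Fin 4) : (k K i).IsHomogeneous 5 := by
  have x0 := X_homog (K := K) (0 : Fin 3)
  have x1 := X_homog (K := K) (1 : Fin 3)
  have x2 := X_homog (K := K) (2 : Fin 3)
  have p : (2 * X 0 + X 1 - X 2 : MvPolynomial (Fin 3) K).IsHomogeneous 1 := by
    rw [← (formsR K).2.2.2.2.2.2]
    exact form_homog _
  fin_cases i
  · exact ((((x0.pow 2).mul (x0.add x1)).mul (x0.add x2)).mul p)
  · exact ((((x1.pow 2).mul (x0.add x1)).mul (x1.add x2)).mul p)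
  · exact ((((x2.pow 2).mul (x0.add x2)).mul (x1.add x2)).mul p)
  · exact ((x1.mul x2).mul (x0.add x2)).mul ((x2.mul (x0.sub x2)).sub (x1.mul (x0.add x1)))

lemma k_mem [CharZero K] (i : Fin 4) :
    k K i ∈ stIdeal (arr fun i => castV K (w i)) (sq K 3) := by
  fin_cases i
  · have := mem_of_vec K (X 0 * (X 0 + X 1) * (X 0 + X 2) * (2 * X 0 + X 1 - X 2)) 0 0
      ⟨(X 0 + X 1) * (X 0 + X 2) * (2 * X 0 + X 1 - X 2), by ring⟩ (dvd_zero _) (dvd_zero _)
      ⟨X 0 * (X 0 + X 2) * (2 * X 0 + X 1 - X 2), by ring⟩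
      ⟨X 0 * (X 0 + X 1) * (2 * X 0 + X 1 - X 2), by ring⟩ (by simp)
      ⟨2 * X 0 * (X 0 + X 1) * (X 0 + X 2), by ring⟩
    convert this using 1
    simp only [k, Fin.zero_eta, Matrix.cons_val]
    ring
  · have := mem_of_vec K 0 (X 1 * (X 0 + X 1) * (X 1 + X 2) * (2 * X 0 + X 1 - X 2)) 0
      (dvd_zero _) ⟨(X 0 + X 1) * (X 1 + X 2) * (2 * X 0 + X 1 - X 2), by ring⟩ (dvd_zero _)
      ⟨X 1 * (X 1 + X 2) * (2 * X 0 + X 1 - X 2), by ring⟩ (by simp)
      ⟨X 1 * (X 0 + X 1) * (2 * X 0 + X 1 - X 2), by ring⟩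
      ⟨X 1 * (X 0 + X 1) * (X 1 + X 2), by ring⟩
    convert this using 1
    simp only [k, Fin.mk_one, Matrix.cons_val]
    ring
  · have := mem_of_vec K 0 0 (X 2 * (X 0 + X 2) * (X 1 + X 2) * (2 * X 0 + X 1 - X 2))
      (dvd_zero _) (dvd_zero _) ⟨(X 0 + X 2) * (X 1 + X 2) * (2 * X 0 + X 1 - X 2), by ring⟩
      (by simp) ⟨X 2 * (X 1 + X 2) * (2 * X 0 + X 1 - X 2), by ring⟩
      ⟨X 2 * (X 0 + X 2) * (2 * X 0 + X 1 - X 2), by ring⟩
      ⟨-(X 2 * (X 0 + X 2) * (X 1 + X 2)), by ring⟩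
    convert this using 1
    simp only [k, Fin.reduceFinMk, Matrix.cons_val]
    ring
  · have := mem_of_vec K 0 (-(X 1 * X 2 * (X 0 + X 2) * (X 0 + X 1)))
      (X 1 * X 2 * (X 0 + X 2) * (X 0 - X 2))
      (dvd_zero _) ⟨-(X 2 * (X 0 + X 2) * (X 0 + X 1)), by ring⟩
      ⟨X 1 * (X 0 + X 2) * (X 0 - X 2), by ring⟩
      ⟨-(X 1 * X 2 * (X 0 + X 2)), by ring⟩ ⟨X 1 * X 2 * (X 0 - X 2), by ring⟩
      ⟨-(X 1 * X 2 * (X 0 + X 2)), by ring⟩
      ⟨-(X 1 * X 2 * (X 0 + X 2)), by ring⟩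
    convert this using 1
    simp only [k, Fin.reduceFinMk, Matrix.cons_val]
    ring

/-- the span of the four elements, as the range of a linear map -/
noncomputable def kmap : (Fin 4 → K) →ₗ[K] MvPolynomial (Fin 3) K :=
  Fintype.linearCombination K (k K)

lemma kmap_independent [CharZero K] [IsAlgClosed K] (c : Fin 4 → K)
    (q : MvPolynomial (Fin 3) K) (h : kmap K c = sq K 3 * q) : c = 0 := by
  obtain ⟨i, hi⟩ : ∃ i : K, i ^ 2 = -1 := IsAlgClosed.exists_pow_nat_eq (-1) two_pos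
  have ev : ∀ x y z : K, x ^ 2 + y ^ 2 + z ^ 2 = 0 →
      c 0 * (x ^ 2 * (x + y) * (x + z) * (2 * x + y - z)) +
      c 1 * (y ^ 2 * (x + y) * (y + z) * (2 * x + y - z)) +
      c 2 * (z ^ 2 * (x + z) * (y + z) * (2 * x + y - z)) +
      c 3 * (y * z * (x + z) * (z * (x - z) - y * (x + y))) = 0 := by
    intro x y z hxyz
    have h1 := congrArg (eval ![x, y, z]) h
    rw [kmap, Fintype.linearCombination_apply, Fin.sum_univ_four, map_mul, sq3] at h1
    simp [k, smul_eq_C_mul] at h1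
    rw [h1, hxyz, zero_mul]
  have p1 := ev 0 1 i (by linear_combination hi)
  have p2 := ev 0 1 (-i) (by linear_combination hi)
  have p3 := ev 1 0 i (by linear_combination hi)
  have p4 := ev 3 4 (5 * i) (by linear_combination 25 * hi)
  have c1 : c 1 = 0 := by
    linear_combination (p1 + p2) / 4 + (c 1 / 2 + c 3 * i ^ 2 / 2) * hi
  have c2 : c 2 = 0 := by
    linear_combination (i / 4) * (p1 - p2) + (c 2 * (i ^ 4 - 2 * i ^ 2 + 2) / 2) * hi
  rw [c1, c2] at p3 p4
  have c0 : c 0 = 0 := by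
    linear_combination ((3 - i) / 10) * p3 + (c 0 * (4 - i) / 10) * hi
  rw [c0] at p4
  have c3' : c 3 * (-600 - 1680 * i) = 0 := by
    linear_combination p4 - (c 3 * (-2500 * i ^ 2 + 600)) * hi
  have c3 : c 3 = 0 := by
    linear_combination ((-600 + 1680 * i) / 3182400) * c3' + (c 3 * 2822400 / 3182400) * hi
  ext j
  fin_cases j
  · exact c0
  · exact c1
  · exact c2
  · exact c3

lemma hilbFunR_five [CharZero K] [IsAlgClosed K] :
    hilbFun (stIdeal (arr fun i => castV K (w i)) (sq K 3)) 5 ≤ 7 := by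
  have h1 := hilbFun_add (stIdeal (arr fun i => castV K (w i)) (sq K 3)) 5
  have hle : mulPart (sq K 3) 3 ⊔ LinearMap.range (kmap K) ≤
      part (stIdeal (arr fun i => castV K (w i)) (sq K 3)) 5 := by
    apply sup_le (mulPart_le_part _ (w_ne K) 3)
    rintro _ ⟨c, rfl⟩
    rw [kmap, Fintype.linearCombination_apply]
    apply Submodule.sum_mem
    intro i _
    exact Submodule.smul_mem _ _ ⟨k_homog K i, k_mem K i⟩
  have h2 := Submodule.finrank_mono hle
  have h3 := Submodule.finrank_sup_add_finrank_inf_eq (mulPart (sq K 3) 3)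
    (LinearMap.range (kmap K))
  have h4 : mulPart (sq K 3) 3 ⊓ LinearMap.range (kmap K) = ⊥ := by
    rw [eq_bot_iff]
    rintro _ ⟨hm, ⟨c, rfl⟩⟩
    obtain ⟨q, -, hq⟩ := (mem_mulPart _ _ _).mp hm
    rw [kmap_independent K c q hq, map_zero]
    exact Submodule.zero_mem _
  have h5 : finrank K (LinearMap.range (kmap K)) = 4 := by
    rw [LinearMap.finrank_range_of_inj]
    · simp
    · rw [← LinearMap.ker_eq_bot, LinearMap.ker_eq_bot']
      intro c hc
      exact kmap_independent K c 0 (by rw [hc, mul_zero])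
  rw [h4, finrank_bot, finrank_mulPart (sq3_ne K), h5, Nat.multichoose_eq] at h3
  have h6 : Nat.choose (3 + 3 - 1) 3 = 10 := by decide
  rw [Nat.multichoose_eq] at h1
  have h7 : Nat.choose (3 + 5 - 1) 5 = 21 := by decide
  omega

lemma hilbFunR_low [CharZero K] : ∀ d : Fin 5,
    hilbFun (stIdeal (arr fun i => castV K (w i)) (sq K 3)) d = ![1, 3, 5, 7, 9] d := by
  have h := hilbFun_add (stIdeal (arr fun i => castV K (w i)) (sq K 3))
  have h0 := h 0
  have h1 := h 1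
  have h2 := h (0 + 2)
  have h3 := h (1 + 2)
  have h4 := h 4
  rw [partR_le K (by norm_num), finrank_bot, Nat.multichoose_eq] at h0 h1
  rw [partR_eq K (by norm_num), finrank_mulPart (sq3_ne K), Nat.multichoose_eq,
    Nat.multichoose_eq] at h2 h3
  rw [partR_four, finrank_mulPart (sq3_ne K), Nat.multichoose_eq, Nat.multichoose_eq] at h4
  intro d
  fin_cases d
  · simpa using h0
  · simpa using h1
  · have : hilbFun (stIdeal (arr fun i => castV K (w i)) (sq K 3)) 2 = 5 := by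
      simp [Nat.choose] at h2; exact h2
    exact this
  · have : hilbFun (stIdeal (arr fun i => castV K (w i)) (sq K 3)) 3 = 7 := by
      simp [Nat.choose] at h3; exact h3
    exact this
  · have : hilbFun (stIdeal (arr fun i => castV K (w i)) (sq K 3)) 4 = 9 := by
      simp [Nat.choose] at h4; exact h4
    exact this

end Pool.Agent.SolTer.First
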