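import Pool.Agent.SolTer.Restrict

set_option autoImplicit false

open MvPolynomial Module

namespace Pool.Agent.SolTer.First

universe u

variable (K : Type u) [Field K]

/-- the linear forms u, x + u, x - u, y + u, y - u, z + u, z - u, x + y, x + z, y + z,
2x + y - z -/
def v : Fin 11 → Fin 4 → ℤ :=
  ![![0, 0, 0, 1], ![1, 0, 0, 1], ![1, 0, 0, -1], ![0, 1, 0, 1], ![0, 1, 0, -1], ![0, 0, 1, 1],
    ![0, 0, 1, -1], ![1, 1, 0, 0], ![1, 0, 1, 0], ![0, 1, 1, 0], ![2, 1, -1, 0]]

/-- the linear forms x, y, z, x + y, x + z, y + z, 2x + y - z -/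
def w : Fin 7 → Fin 3 → ℤ :=
  ![![1, 0, 0], ![0, 1, 0], ![0, 0, 1], ![1, 1, 0], ![1, 0, 1], ![0, 1, 1], ![2, 1, -1]]

/-! ### a functional vanishing on the degree 7 part of the ideal of the restriction -/

def Ttab : List (List ℤ) :=
  [[-101, -325, -95, 485, 25, -475, 115, 323],
   [112, 50, -290, -100, 250, -130, -104], [196, -160, 70, -10, -140, 152],
   [178, 50, 40, 230, -146], [-266, 170, 70, -142], [-218, -280, 106], [196, -28], [112]]

def Utab : List (List (List ℤ)) :=
  [[[0, 0, -990, 0, 990, 0, -750], [0, 0, 0, 0, 0, 0], [0, 0, 0, 0, 0], [0, 0, 0, 0],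
   [0, 0, 0], [0, 0], [0]],
   [[-396, 0, 0, 0, 0, 0, 0], [-198, 0, 0, 0, 0, 0], [-594, 0, 0, 0, 0],
   [198, 0, 0, 0], [594, 0, 0], [-198, 0], [-99]],
   [[0, 0, 0, 0, 0, 0, 438], [0, 0, 0, 0, 0, -594], [0, 0, 0, 0, -198],
   [0, 0, 0, 594], [0, 0, 198], [0, -594], [297]],
   [[0, -330, 330, 330, -330, 0, 0], [330, -330, -330, 330, 0, 0],
   [330, 330, -330, 0, 0], [-330, 330, 0, 0], [-330, 0, 0], [0, 0], [0]],
   [[-30, -90, 60, 180, -120, -360, 0], [30, 90, -60, -180, 120, 360],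
   [-30, -90, 60, 180, -120], [30, 90, -60, -180], [-30, -90, 60], [30, 90], [-30]],
   [[0, 0, 0, 0, 0, 0, 0], [0, 0, 0, 0, 0, 0], [165, -165, 165, -165, 165],
   [165, -165, 165, -165], [-165, 165, -165], [-165, 165], [0]],
   [[71, 235, 155, -305, -145, 115, 323], [-82, 40, 230, -80, -130, -104],
   [-61, -95, 155, 25, -13], [17, -125, 65, 19], [71, -95, 23], [83, -59], [71]]]

def T (a b c : ℕ) : ℤ := if a + b + c = 7 then (Ttab.getD a []).getD b 0 else 0

def U (h : Fin 7) (a b c : ℕ) : ℤ :=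
  if a + b + c = 6 then ((Utab.getD h []).getD a []).getD b 0 else 0

lemma Tcheck : ∀ a < 7, ∀ b < 7, a + b ≤ 6 →
    (T (a + 1) b (6 - a - b) = ∑ h, w h 0 * U h a b (6 - a - b)) ∧
    (T a (b + 1) (6 - a - b) = ∑ h, w h 1 * U h a b (6 - a - b)) ∧
    (T a b (6 - a - b + 1) = ∑ h, w h 2 * U h a b (6 - a - b)) := by
  decide +kernel

lemma Ucheck : ∀ h : Fin 7, ∀ a < 6, ∀ b < 6, a + b ≤ 5 →
    w h 0 * U h (a + 1) b (5 - a - b) + w h 1 * U h a (b + 1) (5 - a - b) +
      w h 2 * U h a b (5 - a - b + 1) = 0 := by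
  decide +kernel

lemma T_eq (a b c : ℕ) :
    (T (a + 1) b c = ∑ h, w h 0 * U h a b c) ∧
    (T a (b + 1) c = ∑ h, w h 1 * U h a b c) ∧
    (T a b (c + 1) = ∑ h, w h 2 * U h a b c) := by
  by_cases hs : a + b + c = 6
  · have h := Tcheck a (by omega) b (by omega) (by omega)
    have hc : 6 - a - b = c := by omega
    rwa [hc] at h
  · have h1 : ∀ h, U h a b c = 0 := fun h => by simp [U, hs]
    have h2 : a + 1 + b + c ≠ 7 := by omega
    have h3 : a + (b + 1) + c ≠ 7 := by omega
    have h4 : a + b + (c + 1) ≠ 7 := by omega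
    simp [T, h1, h2, h3, h4]

lemma U_eq (h : Fin 7) (a b c : ℕ) :
    w h 0 * U h (a + 1) b c + w h 1 * U h a (b + 1) c + w h 2 * U h a b (c + 1) = 0 := by
  by_cases hs : a + b + c = 5
  · have h := Ucheck h a (by omega) b (by omega) (by omega)
    have hc : 5 - a - b = c := by omega
    rwa [hc] at h
  · have h2 : a + 1 + b + c ≠ 6 := by omega
    have h3 : a + (b + 1) + c ≠ 6 := by omega
    have h4 : a + b + (c + 1) ≠ 6 := by omega
    simp [U, h2, h3, h4]

noncomputable def phi : MvPolynomial (Fin 3) K →ₗ[K] K :=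
  (basisMonomials (Fin 3) K).constr K fun m => ((T (m 0) (m 1) (m 2) : ℤ) : K)

noncomputable def psi (h : Fin 7) : MvPolynomial (Fin 3) K →ₗ[K] K :=
  (basisMonomials (Fin 3) K).constr K fun m => ((U h (m 0) (m 1) (m 2) : ℤ) : K)

lemma phi_monomial (m : Fin 3 →₀ ℕ) :
    phi K (monomial m 1) = ((T (m 0) (m 1) (m 2) : ℤ) : K) := by
  have := (basisMonomials (Fin 3) K).constr_basis K
    (fun m => ((T (m 0) (m 1) (m 2) : ℤ) : K)) m
  rwa [coe_basisMonomials] at this

lemma psi_monomial (h : Fin 7) (m : Fin 3 →₀ ℕ) :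
    psi K h (monomial m 1) = ((U h (m 0) (m 1) (m 2) : ℤ) : K) := by
  have := (basisMonomials (Fin 3) K).constr_basis K
    (fun m => ((U h (m 0) (m 1) (m 2) : ℤ) : K)) m
  rwa [coe_basisMonomials] at this

lemma X_mul_monomial (i : Fin 3) (m : Fin 3 →₀ ℕ) :
    (X i : MvPolynomial (Fin 3) K) * monomial m 1 = monomial (m + Finsupp.single i 1) 1 := by
  rw [X, monomial_mul, one_mul, add_comm]

lemma phi_X_mul (i : Fin 3) (f : MvPolynomial (Fin 3) K) :
    phi K (X i * f) = ∑ h, (w h i : K) * psi K h f := by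
  have : phi K ∘ₗ LinearMap.mulLeft K (X i) = ∑ h, (w h i : K) • psi K h := by
    apply (basisMonomials (Fin 3) K).ext
    intro m
    rw [coe_basisMonomials, LinearMap.comp_apply, LinearMap.mulLeft_apply, X_mul_monomial,
      phi_monomial, LinearMap.sum_apply]
    simp only [LinearMap.smul_apply, psi_monomial, smul_eq_mul]
    obtain ⟨h0, h1, h2⟩ := T_eq (m 0) (m 1) (m 2)
    fin_cases i
    · simp only [Finsupp.add_apply, Fin.zero_eta]
      simp [h0]
    · simp only [Finsupp.add_apply, Fin.mk_one]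
      simp [h1]
    · simp only [Finsupp.add_apply, Fin.reduceFinMk]
      simp [h2]
  have h := LinearMap.congr_fun this f
  rw [LinearMap.comp_apply, LinearMap.mulLeft_apply, LinearMap.sum_apply] at h
  simpa using h

lemma psi_form_mul (h : Fin 7) (f : MvPolynomial (Fin 3) K) :
    psi K h (form (castV K (w h)) * f) = 0 := by
  have : psi K h ∘ₗ LinearMap.mulLeft K (form (castV K (w h))) = 0 := by
    apply (basisMonomials (Fin 3) K).ext
    intro m
    rw [coe_basisMonomials, LinearMap.comp_apply, LinearMap.mulLeft_apply, form,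
      Fin.sum_univ_three, add_mul, add_mul, mul_assoc, mul_assoc, mul_assoc, X_mul_monomial,
      X_mul_monomial, X_mul_monomial]
    simp only [← smul_eq_C_mul, map_add, map_smul, psi_monomial, smul_eq_mul]
    have := congrArg (Int.cast : ℤ → K) (U_eq h (m 0) (m 1) (m 2))
    push_cast at this
    simp only [Finsupp.add_apply, castV, LinearMap.zero_apply]
    simp
    exact this
  have h := LinearMap.congr_fun this f
  simpa using h

lemma phi_eq_zero {f : Fin 3 → MvPolynomial (Fin 3) K}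
    (hf : ∀ h, form (castV K (w h)) ∣ ∑ j, C (castV K (w h) j) * f j) :
    phi K (2 * ∑ j, X j * f j) = 0 := by
  have h1 : phi K (∑ j, X j * f j) = 0 := by
    rw [map_sum]
    simp only [phi_X_mul]
    rw [Finset.sum_comm]
    apply Finset.sum_eq_zero
    intro h _
    have h2 : ∑ j, (w h j : K) * psi K h (f j) =
        psi K h (∑ j, C (castV K (w h) j) * f j) := by
      rw [map_sum]
      simp only [← smul_eq_C_mul, map_smul, smul_eq_mul, castV]
    obtain ⟨q, hq⟩ := hf h
    rw [h2, hq, psi_form_mul]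
  have h3 : (2 : MvPolynomial (Fin 3) K) * ∑ j, X j * f j = (2 : K) • ∑ j, X j * f j := by
    rw [smul_eq_C_mul, map_ofNat]
  rw [h3, map_smul, h1, smul_zero]

lemma w_ne [CharZero K] (i : Fin 7) : castV K (w i) ≠ 0 := by
  intro h
  have h0 := congrFun h 0
  have h1 := congrFun h 1
  have h2 := congrFun h 2
  fin_cases i <;> simp [castV, w] at h0 h1 h2

theorem hilbFun_seven [CharZero K] :
    hilbFun (stIdeal (arr fun i => castV K (w i)) (sq K 3)) 7 ≠ 0 := by
  intro h0
  have h1 := hilbFun_add (stIdeal (arr fun i => castV K (w i)) (sq K 3)) 7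
  rw [h0, zero_add, ← finrank_homog (K := K)] at h1
  have h2 : part (stIdeal (arr fun i => castV K (w i)) (sq K 3)) 7 =
      homogeneousSubmodule (Fin 3) K 7 := Submodule.eq_of_le_of_finrank_eq inf_le_left h1
  have h3 : (monomial (Finsupp.single 0 7) 1 : MvPolynomial (Fin 3) K) ∈
      part (stIdeal (arr fun i => castV K (w i)) (sq K 3)) 7 := by
    rw [h2, mem_homogeneousSubmodule]
    exact isHomogeneous_monomial _ (by simp)
  obtain ⟨f, hf, hg⟩ := (mem_stIdeal_arr _ (w_ne K) _).mp h3.2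
  have h4 := phi_eq_zero K hf
  rw [← hg, phi_monomial] at h4
  have h5 : T (Finsupp.single (0 : Fin 3) 7 0) (Finsupp.single (0 : Fin 3) 7 1)
      (Finsupp.single (0 : Fin 3) 7 2) = 112 := by
    simp
    decide
  rw [h5] at h4
  norm_num at h4

end Pool.Agent.SolTer.First
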