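import Pool.Agent.SolTer.NonDeg

set_option autoImplicit false

open MvPolynomial Module

namespace Pool.Agent.SolTer

universe u

variable {K : Type u} [Field K] {n m : ℕ}

/-! ### homogeneous components of products -/

lemma homogeneousComponent_mul_right {q r : MvPolynomial (Fin n) K} {e : ℕ}
    (hr : r.IsHomogeneous e) (k : ℕ) :
    homogeneousComponent k (q * r) = if e ≤ k then homogeneousComponent (k - e) q * r else 0 := by
  have hq := sum_homogeneousComponent q
  conv_lhs => rw [← hq]
  rw [Finset.sum_mul, map_sum]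
  have h : ∀ i, homogeneousComponent k (homogeneousComponent i q * r) =
      if k = i + e then homogeneousComponent i q * r else 0 := by
    intro i
    exact homogeneousComponent_of_mem ((homogeneousComponent_isHomogeneous i q).mul hr)
  simp only [h]
  split_ifs with hk
  · rw [Finset.sum_eq_single (k - e)]
    · rw [if_pos (by omega)]
    · intro b _ hb
      rw [if_neg (by omega)]
    · intro hb
      rw [if_pos (by omega)]
      rw [homogeneousComponent_eq_zero, zero_mul]
      simp only [Finset.mem_range, not_lt] at hb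
      omega
  · apply Finset.sum_eq_zero
    intro i _
    rw [if_neg (by omega)]

lemma homogeneousComponent_mul_left {q r : MvPolynomial (Fin n) K} {e : ℕ}
    (hr : r.IsHomogeneous e) (k : ℕ) :
    homogeneousComponent k (r * q) = if e ≤ k then r * homogeneousComponent (k - e) q else 0 := by
  rw [mul_comm, homogeneousComponent_mul_right hr]
  split_ifs
  · rw [mul_comm]
  · rfl

lemma form_dvd_component {a : Fin n → K} {g : MvPolynomial (Fin n) K} (h : form a ∣ g) (k : ℕ) :
    form a ∣ homogeneousComponent k g := by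
  obtain ⟨q, rfl⟩ := h
  rw [homogeneousComponent_mul_left (form_homog a)]
  split_ifs
  · exact dvd_mul_right _ _
  · exact dvd_zero _

/-! ### dimensions -/

lemma finrank_homog (d : ℕ) :
    finrank K (homogeneousSubmodule (Fin n) K d) = n.multichoose d := by
  classical
  have h : homogeneousSubmodule (Fin n) K d =
      restrictSupport K {e : Fin n →₀ ℕ | e.degree = d} :=
    homogeneousSubmodule_eq_finsupp_supported (Fin n) K d
  rw [h]
  have h1 : {e : Fin n →₀ ℕ | e.degree = d} =
      ((Finset.univ : Finset (Fin n)).finsuppAntidiag d : Set (Fin n →₀ ℕ)) := by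
    ext e
    simp only [Set.mem_setOf_eq, Finset.mem_coe, Finset.mem_finsuppAntidiag, Finset.subset_univ,
      and_true, Finsupp.degree_eq_sum]
  rw [h1]
  rw [Module.finrank_eq_card_basis (basisRestrictSupport K _)]
  rw [← Set.toFinset_card, Finset.toFinset_coe, Finset.card_finsuppAntidiag_nat_eq_multichoose]
  simp

instance finDim_homog (d : ℕ) : FiniteDimensional K (homogeneousSubmodule (Fin n) K d) :=
  Module.Finite.iff_fg.mpr (homogeneousSubmodule_fg (Fin n) K d)

lemma finrank_map_inj {f : MvPolynomial (Fin n) K →ₗ[K] MvPolynomial (Fin n) K}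
    (hf : Function.Injective f) (W : Submodule K (MvPolynomial (Fin n) K)) :
    finrank K (W.map f) = finrank K W :=
  (Submodule.equivMapOfInjective f hf W).finrank_eq.symm

/-- the degree `d` part of an ideal -/
noncomputable def part (I : Ideal (MvPolynomial (Fin n) K)) (d : ℕ) : Submodule K (MvPolynomial (Fin n) K) :=
  homogeneousSubmodule (Fin n) K d ⊓ I.restrictScalars K

lemma mem_part (I : Ideal (MvPolynomial (Fin n) K)) (d : ℕ) (g : MvPolynomial (Fin n) K) :
    g ∈ part I d ↔ g.IsHomogeneous d ∧ g ∈ I := Iff.rfl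

instance finDim_part (I : Ideal (MvPolynomial (Fin n) K)) (d : ℕ) :
    FiniteDimensional K (part I d) :=
  Submodule.finiteDimensional_of_le (inf_le_left : part I d ≤ homogeneousSubmodule (Fin n) K d)

lemma hilbFun_add (I : Ideal (MvPolynomial (Fin n) K)) (d : ℕ) :
    hilbFun I d + finrank K (part I d) = n.multichoose d := by
  set f := (Ideal.Quotient.mkₐ K I).toLinearMap with hf
  set W := homogeneousSubmodule (Fin n) K d with hW
  have h := LinearMap.finrank_range_add_finrank_ker (f.domRestrict W)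
  rw [LinearMap.range_domRestrict, LinearMap.ker_domRestrict, finrank_homog] at h
  have h1 : finrank K (Submodule.comap W.subtype (LinearMap.ker f)) = finrank K (part I d) := by
    rw [← Submodule.finrank_map_subtype_eq W, Submodule.map_comap_subtype]
    have : LinearMap.ker f = I.restrictScalars K := by
      ext g
      rw [LinearMap.mem_ker, Submodule.restrictScalars_mem]
      exact Ideal.Quotient.eq_zero_iff_mem
    rw [this]
    rfl
  have h2 : finrank K (Submodule.submoduleOf (LinearMap.ker f) W) = finrank K (part I d) := h1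
  rw [← h]
  rw [← h1]
  rfl

lemma hilbFun_eq_zero {I : Ideal (MvPolynomial (Fin n) K)} {d : ℕ}
    (h : ∀ g : MvPolynomial (Fin n) K, g.IsHomogeneous d → g ∈ I) : hilbFun I d = 0 := by
  have h1 := hilbFun_add I d
  have h2 : part I d = homogeneousSubmodule (Fin n) K d :=
    le_antisymm inf_le_left fun g hg => ⟨hg, h g hg⟩
  rw [h2, finrank_homog] at h1
  omega

lemma hilb_coeff {I : Ideal (MvPolynomial (Fin n) K)} {N : ℕ}
    (h : ∀ d, N < d → hilbFun I d = 0) (d : ℕ) : (hilb I).coeff d = hilbFun I d := by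
  have hs : Function.support (fun i : ℕ => Polynomial.monomial i (hilbFun I i : ℚ)) ⊆
      ((Finset.range (N + 1) : Finset ℕ) : Set ℕ) := by
    intro i hi
    by_contra hcon
    apply hi
    have : N < i := by simpa using hcon
    simp [h i this]
  rw [hilb, finsum_eq_sum_of_support_subset _ hs, Polynomial.finset_sum_coeff]
  simp only [Polynomial.coeff_monomial]
  by_cases hd : d ≤ N
  · rw [Finset.sum_ite_eq' (Finset.range (N + 1)) d fun i => (hilbFun I i : ℚ)]
    rw [if_pos (Finset.mem_range.mpr (by omega))]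
  · rw [h d (by omega)]
    apply Finset.sum_eq_zero
    intro i hi
    rw [if_neg]
    rintro rfl
    exact hd (by simpa [Nat.lt_succ_iff] using hi)

/-- multiples of `g` by forms of degree `d` -/
noncomputable def mulPart (g : MvPolynomial (Fin n) K) (d : ℕ) :
    Submodule K (MvPolynomial (Fin n) K) :=
  (homogeneousSubmodule (Fin n) K d).map (LinearMap.mulLeft K g)

lemma mem_mulPart (g : MvPolynomial (Fin n) K) (d : ℕ) (x : MvPolynomial (Fin n) K) :
    x ∈ mulPart g d ↔ ∃ q : MvPolynomial (Fin n) K, q.IsHomogeneous d ∧ x = g * q := by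
  constructor
  · rintro ⟨q, hq, rfl⟩; exact ⟨q, hq, rfl⟩
  · rintro ⟨q, hq, rfl⟩; exact ⟨q, hq, rfl⟩

instance finDim_mulPart (g : MvPolynomial (Fin n) K) (d : ℕ) :
    FiniteDimensional K (mulPart g d) := by
  unfold mulPart; infer_instance

lemma mulLeft_injective {g : MvPolynomial (Fin n) K} (hg : g ≠ 0) :
    Function.Injective (LinearMap.mulLeft K g) := fun x y h => mul_left_cancel₀ hg h

lemma finrank_mulPart {g : MvPolynomial (Fin n) K} (hg : g ≠ 0) (d : ℕ) :
    finrank K (mulPart g d) = n.multichoose d := by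
  rw [mulPart, finrank_map_inj (mulLeft_injective hg), finrank_homog]

/-- homogeneous ideals -/
def IsHomog (I : Ideal (MvPolynomial (Fin n) K)) : Prop :=
  ∀ f ∈ I, ∀ d, homogeneousComponent d f ∈ I

lemma isHomog_bot : IsHomog (⊥ : Ideal (MvPolynomial (Fin n) K)) := by
  intro f hf d
  rw [Ideal.mem_bot] at hf
  simp [hf]

lemma isHomog_sup {J : Ideal (MvPolynomial (Fin n) K)} (hJ : IsHomog J)
    {g : MvPolynomial (Fin n) K} {e : ℕ} (hg : g.IsHomogeneous e) :
    IsHomog (J ⊔ Ideal.span {g}) := by
  intro f hf d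
  obtain ⟨j, hj, y, hy, rfl⟩ := Submodule.mem_sup.mp hf
  obtain ⟨r, rfl⟩ := Ideal.mem_span_singleton.mp hy
  rw [map_add, homogeneousComponent_mul_left hg]
  apply Ideal.add_mem
  · exact Ideal.mem_sup_left (hJ j hj d)
  · split_ifs
    · exact Ideal.mem_sup_right (Ideal.mem_span_singleton.mpr (dvd_mul_right _ _))
    · exact Ideal.zero_mem _

section nzd

variable {J : Ideal (MvPolynomial (Fin n) K)} (hJ : IsHomog J)
  {g : MvPolynomial (Fin n) K} {e : ℕ} (hg : g.IsHomogeneous e)

include hJ hg in
lemma part_sup (d : ℕ) :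
    part (J ⊔ Ideal.span {g}) (d + e) = part J (d + e) ⊔ mulPart g d := by
  apply le_antisymm
  · rintro f ⟨hfd, hf⟩
    obtain ⟨j, hj, y, hy, rfl⟩ := Submodule.mem_sup.mp (hf : _ ∈ J ⊔ Ideal.span {g})
    obtain ⟨r, rfl⟩ := Ideal.mem_span_singleton.mp hy
    have h1 := homogeneousComponent_eq_self hfd
    rw [map_add, homogeneousComponent_mul_left hg, if_pos (by omega), Nat.add_sub_cancel] at h1
    rw [← h1]
    apply Submodule.add_mem_sup
    · exact ⟨homogeneousComponent_isHomogeneous _ _, hJ j hj _⟩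
    · exact (mem_mulPart _ _ _).mpr ⟨_, homogeneousComponent_isHomogeneous _ _, rfl⟩
  · apply sup_le
    · rintro f ⟨h1, h2⟩
      exact ⟨h1, Ideal.mem_sup_left h2⟩
    · intro f hf
      obtain ⟨q, hq, rfl⟩ := (mem_mulPart _ _ _).mp hf
      refine ⟨?_, Ideal.mem_sup_right (Ideal.mem_span_singleton.mpr (dvd_mul_right _ _))⟩
      have := hg.mul hq
      rwa [add_comm] at this

include hJ hg in
lemma part_sup_of_lt {k : ℕ} (hk : k < e) : part (J ⊔ Ideal.span {g}) k = part J k := by
  apply le_antisymm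
  · rintro f ⟨hfd, hf⟩
    obtain ⟨j, hj, y, hy, rfl⟩ := Submodule.mem_sup.mp (hf : _ ∈ J ⊔ Ideal.span {g})
    obtain ⟨r, rfl⟩ := Ideal.mem_span_singleton.mp hy
    have h1 := homogeneousComponent_eq_self hfd
    rw [map_add, homogeneousComponent_mul_left hg, if_neg (by omega), add_zero] at h1
    rw [← h1]
    exact ⟨homogeneousComponent_isHomogeneous _ _, hJ j hj _⟩
  · rintro f ⟨h1, h2⟩
    exact ⟨h1, Ideal.mem_sup_left h2⟩

include hJ hg in
lemma hilbFun_sup_of_lt {k : ℕ} (hk : k < e) : hilbFun (J ⊔ Ideal.span {g}) k = hilbFun J k := by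
  have h1 := hilbFun_add (J ⊔ Ideal.span {g}) k
  have h2 := hilbFun_add J k
  rw [part_sup_of_lt hJ hg hk] at h1
  omega

include hJ hg in
lemma hilbFun_sup (hg0 : g ≠ 0) (hnzd : ∀ r, g * r ∈ J → r ∈ J) (d : ℕ) :
    hilbFun (J ⊔ Ideal.span {g}) (d + e) + hilbFun J d = hilbFun J (d + e) := by
  have h1 := hilbFun_add (J ⊔ Ideal.span {g}) (d + e)
  have h2 := hilbFun_add J (d + e)
  have h3 := hilbFun_add J d
  have h4 := Submodule.finrank_sup_add_finrank_inf_eq (part J (d + e)) (mulPart g d)
  rw [part_sup hJ hg] at h1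
  have h5 : part J (d + e) ⊓ mulPart g d = (part J d).map (LinearMap.mulLeft K g) := by
    apply le_antisymm
    · rintro f ⟨⟨-, hf⟩, hf'⟩
      obtain ⟨q, hq, rfl⟩ := (mem_mulPart _ _ _).mp hf'
      exact ⟨q, ⟨hq, hnzd q hf⟩, rfl⟩
    · rintro _ ⟨q, ⟨hq, hq'⟩, rfl⟩
      refine ⟨⟨?_, J.mul_mem_left g hq'⟩, (mem_mulPart _ _ _).mpr ⟨q, hq, rfl⟩⟩
      have := hg.mul hq
      rwa [add_comm] at this
  rw [h5, finrank_map_inj (mulLeft_injective hg0), finrank_mulPart hg0] at h4
  omega

end nzd

lemma hilbFun_bot (d : ℕ) :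
    hilbFun (⊥ : Ideal (MvPolynomial (Fin n) K)) d = n.multichoose d := by
  have h1 := hilbFun_add (⊥ : Ideal (MvPolynomial (Fin n) K)) d
  have h2 : part (⊥ : Ideal (MvPolynomial (Fin n) K)) d = ⊥ := by
    rw [eq_bot_iff]
    rintro f ⟨-, hf⟩
    exact hf
  rw [h2, finrank_bot] at h1
  omega

end Pool.Agent.SolTer
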