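import Pool.Agent.SolTer.Basic

set_option autoImplicit false

open MvPolynomial Module

namespace Pool.Agent.SolTer

universe u

variable {K : Type u} [Field K] {n m : ℕ}

/-- cast of an integer vector -/
def castV (K : Type u) [Field K] {n : ℕ} (a : Fin n → ℤ) : Fin n → K := fun j => (a j : K)

/-- linear functionals from vectors -/
noncomputable def dotL (a : Fin n → K) : (Fin n → K) →ₗ[K] K :=
  ∑ i, a i • (LinearMap.proj i : (Fin n → K) →ₗ[K] K)

lemma dotL_apply (a p : Fin n → K) : dotL a p = ∑ i, a i * p i := by
  simp [dotL, LinearMap.sum_apply]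

lemma ker_dotL (a : Fin n → K) : LinearMap.ker (dotL a) = kernel a := rfl

lemma eq_dotL (f : (Fin n → K) →ₗ[K] K) : f = dotL fun j => f (Pi.single j 1) := by
  apply LinearMap.pi_ext'
  intro j
  ext
  simp [dotL_apply, Pi.single_apply]

/-- vectors orthogonal to the intersection of the kernels are in the span -/
lemma mem_span_of_perp {ι : Type} [Finite ι] (v : ι → Fin n → K) (B : Set ι) (p : Fin n → K)
    (h : ∀ w : Fin n → K, (∀ i ∈ B, ∑ j, v i j * w j = 0) → ∑ j, p j * w j = 0) :
    p ∈ Submodule.span K (v '' B) := by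
  have h1 : (⨅ i : B, LinearMap.ker (dotL (v i))) ≤ LinearMap.ker (dotL p) := by
    intro w hw
    rw [LinearMap.mem_ker, dotL_apply]
    apply h
    intro i hi
    have := (Submodule.mem_iInf _).mp hw ⟨i, hi⟩
    rwa [LinearMap.mem_ker, dotL_apply] at this
  have h2 := mem_span_of_iInf_ker_le_ker h1
  -- transport to vectors
  let Λ : ((Fin n → K) →ₗ[K] K) →ₗ[K] (Fin n → K) :=
    { toFun := fun f j => f (Pi.single j 1)
      map_add' := fun f g => by ext j; simp
      map_smul' := fun c f => by ext j; simp }
  have hΛ : ∀ a : Fin n → K, Λ (dotL a) = a := by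
    intro a
    ext j
    change dotL a (Pi.single j 1) = a j
    rw [dotL_apply]
    simp [Pi.single_apply]
  have h3 := Submodule.mem_map_of_mem (f := Λ) h2
  rw [hΛ, Submodule.map_span] at h3
  refine Submodule.span_mono ?_ h3
  rintro _ ⟨_, ⟨i, rfl⟩, rfl⟩
  rw [hΛ]
  exact ⟨i, i.2, rfl⟩

/-- a rational subspace meets its orthogonal complement trivially -/
lemma core [CharZero K] {ι : Type} (v : ι → Fin n → ℤ) (B : Set ι) (p : Fin n → K)
    (h1 : ∀ i ∈ B, ∑ j, (v i j : K) * p j = 0)
    (h2 : p ∈ Submodule.span K ((fun i => castV K (v i)) '' B)) : p = 0 := by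
  have hspan : ∀ φ : K →ₗ[ℚ] ℚ, (fun j => φ (p j)) ∈
      Submodule.span ℚ ((fun i j => (v i j : ℚ)) '' B) := by
    refine Submodule.span_induction (p := fun x _ => ∀ φ : K →ₗ[ℚ] ℚ, (fun j => φ (x j)) ∈
      Submodule.span ℚ ((fun i j => (v i j : ℚ)) '' B)) ?_ ?_ ?_ ?_ h2
    · rintro _ ⟨i, hi, rfl⟩ φ
      have : (fun j => φ (castV K (v i) j)) = φ 1 • (fun j => (v i j : ℚ)) := by
        ext j
        have : castV K (v i) j = (v i j : ℚ) • (1 : K) := by
          simp [castV, Algebra.smul_def]
        rw [this, map_smul, Pi.smul_apply, smul_eq_mul, smul_eq_mul, mul_comm]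
      rw [this]
      exact Submodule.smul_mem _ _ (Submodule.subset_span ⟨i, hi, rfl⟩)
    · intro φ
      have : (fun j => φ ((0 : Fin n → K) j)) = 0 := by ext j; simp
      rw [this]
      exact Submodule.zero_mem _
    · intro x y _ _ hx hy φ
      have : (fun j => φ ((x + y) j)) = (fun j => φ (x j)) + fun j => φ (y j) := by
        ext j; simp
      rw [this]
      exact Submodule.add_mem _ (hx φ) (hy φ)
    · intro c x _ hx φ
      have := hx (φ.comp (LinearMap.mulLeft ℚ c))
      simpa using this
  ext j
  rw [Pi.zero_apply, ← Module.forall_dual_apply_eq_zero_iff ℚ]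
  intro φ
  set y : Fin n → ℚ := fun j => φ (p j) with hy
  have hperp : ∀ i ∈ B, ∑ j, (v i j : ℚ) * y j = 0 := by
    intro i hi
    have := congrArg φ (h1 i hi)
    rw [map_sum, map_zero] at this
    rw [← this]
    apply Finset.sum_congr rfl
    intro j _
    have h : (v i j : K) * p j = (v i j : ℚ) • p j := by
      simp [Algebra.smul_def]
    rw [h, map_smul, smul_eq_mul]
  have hyy : ∑ j, y j * y j = 0 := by
    refine Submodule.span_induction (p := fun x _ => ∑ j, x j * y j = 0) ?_ ?_ ?_ ?_ (hspan φ)
    · rintro _ ⟨i, hi, rfl⟩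
      exact hperp i hi
    · simp
    · intro a b _ _ ha hb
      simp only [Pi.add_apply, add_mul, Finset.sum_add_distrib, ha, hb, add_zero]
    · intro c a _ ha
      simp only [Pi.smul_apply, smul_eq_mul, mul_assoc, ← Finset.mul_sum, ha, mul_zero]
  have := (Finset.sum_eq_zero_iff_of_nonneg (fun j _ => mul_self_nonneg (y j))).mp hyy j
    (Finset.mem_univ j)
  exact mul_self_eq_zero.mp this

/-- vectors in a flat of a rational arrangement orthogonal to the flat vanish -/
lemma core' [CharZero K] {ι : Type} [Finite ι] (v : ι → Fin n → ℤ) (B : Set ι) (p : Fin n → K)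
    (h1 : ∀ i ∈ B, ∑ j, (v i j : K) * p j = 0)
    (h2 : ∀ w : Fin n → K, (∀ i ∈ B, ∑ j, (v i j : K) * w j = 0) → ∑ j, p j * w j = 0) :
    p = 0 :=
  core v B p h1 (mem_span_of_perp _ B p h2)

lemma exists_index_of_flat {ι : Type} (v : ι → Fin n → K) {X : Submodule K (Fin n → K)}
    (hX : X ∈ flats (arr v)) : ∃ B : Set ι, ∀ p, p ∈ X ↔ ∀ i ∈ B, ∑ j, v i j * p j = 0 := by
  obtain ⟨C, hC, rfl⟩ := hX
  refine ⟨{i | kernel (v i) ∈ C}, fun p => ?_⟩
  rw [Submodule.mem_sInf]
  constructor
  · intro h i hi
    exact (mem_kernel _ _).mp (h _ hi)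
  · intro h Y hY
    obtain ⟨i, rfl⟩ := hC hY
    exact (mem_kernel _ _).mpr (h i hY)

/-- the sum of squares is non-degenerate on all flats of a rational arrangement -/
theorem sq_mem_formsU [CharZero K] {ι : Type} [Finite ι] (v : ι → Fin n → ℤ) :
    sq K n ∈ formsU 2 (arr fun i => castV K (v i)) := by
  refine ⟨sq_homog, ?_⟩
  rintro Y hY m ι' hinj hrange p hp
  obtain ⟨B, hB⟩ := exists_index_of_flat _ hY
  have key : ∀ w : Fin m → K, ∑ i, ι' p i * ι' w i = 0 := by
    intro w
    obtain ⟨θ, hθ⟩ := exists_derivation (K := K) (fun j => C (w j))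
    have h := hp θ
    have hform : ∀ (i : Fin n) (q : Fin m → K),
        ∑ j, ι' (Pi.single j 1) i * q j = ι' q i := by
      intro i q
      conv_rhs => rw [LinearMap.pi_apply_eq_sum_univ ι' q]
      rw [Finset.sum_apply]
      apply Finset.sum_congr rfl
      intro j _
      have e : (Pi.single j (1 : K) : Fin m → K) = fun k => if j = k then 1 else 0 := by
        ext k
        simp [Pi.single_apply, eq_comm]
      rw [Pi.smul_apply, smul_eq_mul, mul_comm, e]
    have h2 : θ (pullback ι' (sq K n)) =
        ∑ i, 2 * (form (fun j => ι' (Pi.single j 1) i) * C (ι' w i)) := by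
      rw [pullback, sq, map_sum, map_sum]
      apply Finset.sum_congr rfl
      intro i _
      rw [map_pow, bind₁_X_right, Derivation.leibniz_pow, derivation_form]
      have : ∑ j, C (ι' (Pi.single j 1) i) * θ (X j) = C (ι' w i) := by
        simp only [hθ]
        rw [← hform i w, map_sum]
        simp only [C_mul]
      rw [this]
      simp [smul_eq_mul, nsmul_eq_mul]
      try ring
    rw [h2, map_sum] at h
    have h3 : ∀ i, eval p (2 * (form (fun j => ι' (Pi.single j 1) i) * C (ι' w i))) =
        2 * (ι' p i * ι' w i) := by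
      intro i
      rw [map_mul, map_mul, eval_form, hform, eval_C]
      simp
    rw [Finset.sum_congr rfl fun i _ => h3 i, ← Finset.mul_sum] at h
    rcases mul_eq_zero.mp h with h | h
    · exact absurd h two_ne_zero
    · exact h
  apply hinj
  rw [map_zero]
  apply core' v B
  · intro i hi
    have : ι' p ∈ Y := hrange ▸ LinearMap.mem_range_self ι' p
    exact (hB _).mp this i hi
  · intro w hw
    have : w ∈ Y := (hB w).mpr hw
    rw [← hrange] at this
    obtain ⟨q, rfl⟩ := this
    exact key q

/-! ### forms of large degree are in the Solomon-Terao ideal -/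

/-- the Solomon-Terao ideal of a subarrangement, by coefficient vectors -/
noncomputable def aIdeal {ι : Type} (v : ι → Fin n → K) (B : Finset ι) :
    Ideal (MvPolynomial (Fin n) K) where
  carrier := {g | ∃ f : Fin n → MvPolynomial (Fin n) K,
      (∀ i ∈ B, form (v i) ∣ ∑ j, C (v i j) * f j) ∧ g = 2 * ∑ j, X j * f j}
  zero_mem' := ⟨0, by simp, by simp⟩
  add_mem' := by
    rintro _ _ ⟨f, hf, rfl⟩ ⟨f', hf', rfl⟩
    refine ⟨f + f', ?_, ?_⟩
    · intro i hi
      simp only [Pi.add_apply, mul_add, Finset.sum_add_distrib]
      exact dvd_add (hf i hi) (hf' i hi)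
    · simp only [Pi.add_apply, mul_add, Finset.sum_add_distrib]
  smul_mem' := by
    rintro c _ ⟨f, hf, rfl⟩
    refine ⟨fun j => c * f j, ?_, ?_⟩
    · intro i hi
      have : ∑ j, C (v i j) * (c * f j) = c * ∑ j, C (v i j) * f j := by
        rw [Finset.mul_sum]
        exact Finset.sum_congr rfl fun j _ => by ring
      rw [this]
      exact (hf i hi).mul_left c
    · rw [smul_eq_mul, Finset.mul_sum, Finset.mul_sum, Finset.mul_sum]
      exact Finset.sum_congr rfl fun j _ => by ring

lemma span_sup_eq_top [CharZero K] {ι : Type} [Finite ι] (v : ι → Fin n → ℤ) (B : Finset ι)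
    (T : Submodule K (Fin n → K)) (h1 : ∀ i ∈ B, castV K (v i) ∈ T)
    (h2 : ∀ w : Fin n → K, (∀ i ∈ B, ∑ j, (v i j : K) * w j = 0) → w ∈ T) : T = ⊤ := by
  by_contra hT
  obtain ⟨f, hf0, hf⟩ := Submodule.exists_le_ker_of_lt_top T (lt_top_iff_ne_top.mpr hT)
  apply hf0
  have hfd := eq_dotL f
  set y : Fin n → K := fun j => f (Pi.single j 1) with hy
  have hy0 : y = 0 := by
    apply core' v (↑B : Set ι)
    · intro i hi
      have := hf (h1 i hi)
      rw [LinearMap.mem_ker, hfd, dotL_apply] at this
      rw [← this]
      exact Finset.sum_congr rfl fun j _ => by rw [mul_comm]; rfl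
    · intro w hw
      have := hf (h2 w hw)
      rwa [LinearMap.mem_ker, hfd, dotL_apply] at this
  rw [hfd, hy0]
  ext
  simp [dotL_apply]

lemma monomial_mem_aIdeal [CharZero K] {ι : Type} [Finite ι] (v : ι → Fin n → ℤ) :
    ∀ (s : ℕ) (B : Finset ι), B.card = s → ∀ d : Fin n →₀ ℕ, s + 1 ≤ d.degree →
      monomial d (1 : K) ∈ aIdeal (fun i => castV K (v i)) B := by
  classical
  intro s
  induction s with
  | zero =>
    intro B hB d hd
    have hB' : B = ∅ := Finset.card_eq_zero.mp hB
    subst hB'
    obtain ⟨k, hk⟩ : ∃ k, d k ≠ 0 := by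
      by_contra hcon
      push Not at hcon
      have : d = 0 := Finsupp.ext hcon
      rw [this] at hd
      simp at hd
    have hmono : monomial d (1 : K) = X k * monomial (d - Finsupp.single k 1) 1 := by
      rw [X, monomial_mul, one_mul]
      congr 1
      rw [add_comm, tsub_add_cancel_of_le]
      rw [Finsupp.single_le_iff]
      omega
    rw [hmono]
    refine ⟨fun j => if j = k then C (1 / 2) * monomial (d - Finsupp.single k 1) 1 else 0,
      by simp, ?_⟩
    simp only [mul_ite, mul_zero, Finset.sum_ite_eq', Finset.mem_univ, if_true]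
    have : (2 : MvPolynomial (Fin n) K) = C 2 := (map_ofNat C 2).symm
    rw [this]
    have h2 : (C 2 : MvPolynomial (Fin n) K) * C (1 / 2) = 1 := by
      rw [← C_mul]; simp
    linear_combination (-(X k * monomial (d - Finsupp.single k 1) (1 : K))) * h2
  | succ s ih =>
    intro B hB d hd
    obtain ⟨k, hk⟩ : ∃ k, d k ≠ 0 := by
      by_contra hcon
      push Not at hcon
      have : d = 0 := Finsupp.ext hcon
      rw [this] at hd
      simp at hd
    set d' := d - Finsupp.single k 1 with hd'
    have hdd' : Finsupp.single k 1 + d' = d := by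
      rw [hd', add_comm, tsub_add_cancel_of_le]
      rw [Finsupp.single_le_iff]
      omega
    have hmono : monomial d (1 : K) = X k * monomial d' 1 := by
      rw [X, monomial_mul, one_mul, hdd']
    have hdeg : s + 1 ≤ d'.degree := by
      have : d.degree = 1 + d'.degree := by
        rw [← hdd', map_add, Finsupp.degree_single]
      omega
    -- the submodule of vectors
    let T : Submodule K (Fin n → K) :=
      { carrier := {x | form x * monomial d' 1 ∈ aIdeal (fun i => castV K (v i)) B}
        zero_mem' := by
          simp only [Set.mem_setOf_eq, form_zero, zero_mul]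
          exact Ideal.zero_mem _
        add_mem' := by
          intro a b ha hb
          simp only [Set.mem_setOf_eq, form_add, add_mul] at *
          exact Ideal.add_mem _ ha hb
        smul_mem' := by
          intro c a ha
          simp only [Set.mem_setOf_eq, form_smul, mul_assoc] at *
          exact Ideal.mul_mem_left _ _ ha }
    have hT : T = ⊤ := by
      apply span_sup_eq_top v B
      · intro i hi
        have hcard : (B.erase i).card = s := by
          rw [Finset.card_erase_of_mem hi, hB]; rfl
        obtain ⟨f, hf, hg⟩ := ih (B.erase i) hcard d' hdeg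
        refine ⟨fun j => form (castV K (v i)) * f j, ?_, ?_⟩
        · intro i' hi'
          have : ∑ j, C (castV K (v i') j) * (form (castV K (v i)) * f j) =
              form (castV K (v i)) * ∑ j, C (castV K (v i') j) * f j := by
            rw [Finset.mul_sum]
            exact Finset.sum_congr rfl fun j _ => by ring
          rw [this]
          by_cases hii : i' = i
          · rw [hii]; exact dvd_mul_right _ _
          · exact (hf i' (Finset.mem_erase.mpr ⟨hii, hi'⟩)).mul_left _
        · rw [hg, Finset.mul_sum, Finset.mul_sum, Finset.mul_sum]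
          exact Finset.sum_congr rfl fun j _ => by ring
      · intro w hw
        refine ⟨fun j => C (w j / 2) * monomial d' 1, ?_, ?_⟩
        · intro i hi
          have : ∑ j, C (castV K (v i) j) * (C (w j / 2) * monomial d' 1) = 0 := by
            have h := hw i hi
            have h' : ∑ j, C (castV K (v i) j) * (C (w j / 2) * monomial d' (1 : K)) =
                C ((∑ j, (v i j : K) * w j) / 2) * monomial d' 1 := by
              rw [Finset.sum_div, map_sum, Finset.sum_mul]
              apply Finset.sum_congr rfl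
              intro j _
              rw [← mul_assoc, ← C_mul, ← mul_div_assoc]
              rfl
            rw [h', h, zero_div, C_0, zero_mul]
          rw [this]
          exact dvd_zero _
        · rw [form, Finset.sum_mul, Finset.mul_sum]
          apply Finset.sum_congr rfl
          intro j _
          have h2 : (C (w j) : MvPolynomial (Fin n) K) = 2 * C (w j / 2) := by
            have : (2 : MvPolynomial (Fin n) K) = C 2 := (map_ofNat C 2).symm
            rw [this, ← C_mul]
            congr 1
            ring
          rw [h2]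
          ring
    have : (Pi.single k (1 : K) : Fin n → K) ∈ T := by rw [hT]; trivial
    rw [hmono]
    have h3 : form (Pi.single k (1 : K)) * monomial d' 1 ∈ aIdeal (fun i => castV K (v i)) B := this
    rwa [form_single] at h3

/-- forms of degree greater than the number of hyperplanes are in the Solomon-Terao ideal -/
theorem mem_stIdeal_of_large [CharZero K] {ι : Type} [Fintype ι] (v : ι → Fin n → ℤ)
    (hv : ∀ i, castV K (v i) ≠ 0) {g : MvPolynomial (Fin n) K} {d : ℕ} (hg : g.IsHomogeneous d)
    (hd : Fintype.card ι < d) : g ∈ stIdeal (arr fun i => castV K (v i)) (sq K n) := by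
  rw [g.as_sum]
  apply Ideal.sum_mem
  intro e he
  have h1 : e.degree = d := by
    by_contra hne
    exact (mem_support_iff.mp he) (hg.coeff_eq_zero hne)
  have h2 := monomial_mem_aIdeal (K := K) v _ Finset.univ rfl e (by rw [h1]; exact hd)
  have h3 : monomial e (1 : K) ∈ stIdeal (arr fun i => castV K (v i)) (sq K n) := by
    rw [mem_stIdeal_arr _ hv]
    obtain ⟨f, hf, hg⟩ := h2
    exact ⟨f, fun i => hf i (Finset.mem_univ i), hg⟩
  have : monomial e (g.coeff e) = C (g.coeff e) * monomial e 1 := by
    rw [C_mul_monomial, mul_one]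
  rw [this]
  exact Ideal.mul_mem_left _ _ h3

end Pool.Agent.SolTer
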