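import Pool.Agent.SolTer.Basic

set_option autoImplicit false

open MvPolynomial Module

namespace Pool.Agent.SolTer

universe u

variable {K : Type u} [Field K] {n m : ℕ}

/-! ### Whitney's formula -/

section whitney

variable {ι : Type} [Fintype ι] (v : ι → Fin n → K)

/-- the intersection of the hyperplanes with index in `s` -/
def flat (s : Finset ι) : Submodule K (Fin n → K) := ⨅ i ∈ s, kernel (v i)

lemma le_flat_iff (s : Finset ι) (Y : Submodule K (Fin n → K)) :
    Y ≤ flat v s ↔ ∀ i ∈ s, Y ≤ kernel (v i) := by
  simp [flat]

lemma mem_flats_iff (Y : Submodule K (Fin n → K)) :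
    Y ∈ flats (arr v) ↔ ∃ s : Finset ι, flat v s = Y := by
  classical
  constructor
  · rintro ⟨B, hB, rfl⟩
    refine ⟨Finset.univ.filter fun i => kernel (v i) ∈ B, ?_⟩
    apply le_antisymm
    · apply le_sInf
      intro Z hZ
      obtain ⟨i, rfl⟩ := hB hZ
      exact (le_flat_iff v _ _).mp le_rfl i (by simpa using hZ)
    · rw [le_flat_iff]
      intro i hi
      exact sInf_le (by simpa using hi)
  · rintro ⟨s, rfl⟩
    refine ⟨(fun i => kernel (v i)) '' s, ?_, ?_⟩
    · rintro _ ⟨i, -, rfl⟩; exact ⟨i, rfl⟩
    · rw [flat, sInf_image]; rfl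

lemma moebius_eq (A : Set (Submodule K (Fin n → K))) (Y : Submodule K (Fin n → K)) :
    moebius A Y = if Y = ⊤ then 1 else
      -∑ᶠ Z : {Z : Submodule K (Fin n → K) // Z ∈ flats A ∧ Y < Z}, moebius A Z.1 := by
  classical
  rw [moebius, IsWellFounded.fix_eq]

variable (K n) in
lemma kernel_ne_top {a : Fin n → K} (ha : a ≠ 0) : kernel a ≠ ⊤ := by
  obtain ⟨k, hk⟩ := Function.ne_iff.mp ha
  intro h
  have : (Pi.single k (1 : K) : Fin n → K) ∈ kernel a := by rw [h]; trivial
  rw [mem_kernel] at this
  simp [Pi.single_apply] at this
  exact hk this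

open Classical in
/-- the signed number of subfamilies with a given intersection -/
noncomputable def nu (Y : Submodule K (Fin n → K)) : ℤ :=
  ∑ s ∈ (Finset.univ : Finset (Finset ι)).filter (fun s => flat v s = Y), (-1) ^ s.card

open Classical in
noncomputable def flatSet : Finset (Submodule K (Fin n → K)) :=
  (Finset.univ : Finset (Finset ι)).image (flat v)

lemma coe_flatSet : (flatSet v : Set (Submodule K (Fin n → K))) = flats (arr v) := by
  classical
  ext Y
  rw [mem_flats_iff]
  simp [flatSet]

lemma moebius_eq_nu (hv : ∀ i, v i ≠ 0) :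
    ∀ Y : Submodule K (Fin n → K), Y ∈ flats (arr v) → moebius (arr v) Y = nu v Y := by
  classical
  intro Y
  induction Y using WellFoundedGT.induction with
  | ind Y ih =>
  intro hY
  rw [moebius_eq]
  split_ifs with hT
  · subst hT
    have : (Finset.univ : Finset (Finset ι)).filter (fun s => flat v s = ⊤) = {∅} := by
      ext s
      simp only [Finset.mem_filter, Finset.mem_univ, true_and, Finset.mem_singleton]
      constructor
      · intro h
        by_contra hne
        obtain ⟨i, hi⟩ := Finset.nonempty_iff_ne_empty.mpr hne
        apply kernel_ne_top K n (hv i)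
        rw [eq_top_iff, ← h]
        exact (le_flat_iff v _ _).mp le_rfl i hi
      · rintro rfl
        simp [flat]
    rw [nu, this]
    simp
  · have h1 : ∑ᶠ Z : {Z : Submodule K (Fin n → K) // Z ∈ flats (arr v) ∧ Y < Z},
        moebius (arr v) Z.1 = ∑ Z ∈ (flatSet v).filter (Y < ·), nu v Z := by
      have h2 := finsum_subtype_eq_finsum_cond (f := fun Z => moebius (arr v) Z)
        (fun Z : Submodule K (Fin n → K) => Z ∈ flats (arr v) ∧ Y < Z)
      rw [h2]
      have h3 : {Z : Submodule K (Fin n → K) | Z ∈ flats (arr v) ∧ Y < Z} =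
          ((flatSet v).filter (Y < ·) : Finset (Submodule K (Fin n → K))) := by
        ext Z
        rw [Finset.coe_filter, ← coe_flatSet]
        rfl
      have h4 : ∑ᶠ (Z : Submodule K (Fin n → K)) (_ : Z ∈ flats (arr v) ∧ Y < Z),
          moebius (arr v) Z = ∑ᶠ (Z : Submodule K (Fin n → K))
            (_ : Z ∈ {Z : Submodule K (Fin n → K) | Z ∈ flats (arr v) ∧ Y < Z}),
          moebius (arr v) Z := rfl
      rw [h4, h3, finsum_mem_coe_finset]
      apply Finset.sum_congr rfl
      intro Z hZ
      rw [Finset.mem_filter] at hZ
      apply ih Z hZ.2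
      rw [← coe_flatSet]
      exact hZ.1
    rw [h1]
    have h5 : ∑ Z ∈ (flatSet v).filter (Y < ·), nu v Z =
        ∑ s ∈ (Finset.univ : Finset (Finset ι)).filter (fun s => Y < flat v s),
          (-1 : ℤ) ^ s.card := by
      have := Finset.sum_fiberwise_of_maps_to
        (s := (Finset.univ : Finset (Finset ι)).filter (fun s => Y < flat v s))
        (t := (flatSet v).filter (Y < ·)) (g := flat v) (f := fun s => (-1 : ℤ) ^ s.card)
        (by
          intro s hs
          simp only [Finset.mem_filter, Finset.mem_univ, true_and] at hs ⊢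
          exact ⟨by simp [flatSet], hs⟩)
      rw [← this]
      apply Finset.sum_congr rfl
      intro Z hZ
      rw [nu, Finset.filter_filter]
      apply Finset.sum_congr _ (fun _ _ => rfl)
      ext s
      simp only [Finset.mem_filter, Finset.mem_univ, true_and] at hZ ⊢
      constructor
      · rintro rfl; exact ⟨hZ.2, rfl⟩
      · rintro ⟨-, h⟩; exact h
    rw [h5]
    -- all subfamilies whose intersection contains `Y`
    have h6 : ∑ s ∈ (Finset.univ : Finset (Finset ι)).filter (fun s => Y ≤ flat v s),
        (-1 : ℤ) ^ s.card = 0 := by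
      have : (Finset.univ : Finset (Finset ι)).filter (fun s => Y ≤ flat v s) =
          (Finset.univ.filter fun i => Y ≤ kernel (v i)).powerset := by
        ext s
        simp only [Finset.mem_filter, Finset.mem_univ, true_and, Finset.mem_powerset,
          le_flat_iff]
        constructor
        · intro h i hi
          simpa using h i hi
        · intro h i hi
          simpa using h hi
      rw [this, Finset.sum_powerset_neg_one_pow_card_of_nonempty]
      obtain ⟨s, rfl⟩ := (mem_flats_iff v Y).mp hY
      have hs : s.Nonempty := by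
        rw [Finset.nonempty_iff_ne_empty]
        rintro rfl
        exact hT (by simp [flat])
      obtain ⟨i, hi⟩ := hs
      exact ⟨i, by simpa using (le_flat_iff v _ _).mp le_rfl i hi⟩
    have h7 : ∑ s ∈ (Finset.univ : Finset (Finset ι)).filter (fun s => Y ≤ flat v s),
        (-1 : ℤ) ^ s.card = nu v Y +
        ∑ s ∈ (Finset.univ : Finset (Finset ι)).filter (fun s => Y < flat v s),
          (-1 : ℤ) ^ s.card := by
      rw [nu, ← Finset.sum_union]
      · apply Finset.sum_congr _ (fun _ _ => rfl)
        ext s
        simp only [Finset.mem_filter, Finset.mem_univ, true_and, Finset.mem_union]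
        constructor
        · intro h
          rcases h.eq_or_lt with h | h
          · exact Or.inl h.symm
          · exact Or.inr h
        · rintro (h | h)
          · exact h.ge
          · exact h.le
      · rw [Finset.disjoint_left]
        intro s hs hs'
        simp only [Finset.mem_filter, Finset.mem_univ, true_and] at hs hs'
        exact hs'.ne hs.symm
    linarith

lemma codim_flat (s : Finset ι) :
    n - finrank K (flat v s) = finrank K (Submodule.span K (v '' (s : Set ι))) := by
  classical
  let M : Matrix s (Fin n) K := fun i j => v i j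
  have h1 : M.rank = finrank K (Submodule.span K (Set.range M.row)) := M.rank_eq_finrank_span_row
  have h2 : Set.range M.row = v '' (s : Set ι) := by
    ext w
    constructor
    · rintro ⟨i, rfl⟩; exact ⟨i, i.2, rfl⟩
    · rintro ⟨i, hi, rfl⟩; exact ⟨⟨i, hi⟩, rfl⟩
  rw [h2] at h1
  have h3 := LinearMap.finrank_range_add_finrank_ker M.mulVecLin
  have h4 : LinearMap.ker M.mulVecLin = flat v s := by
    ext p
    simp only [LinearMap.mem_ker, Matrix.mulVecLin_apply, flat, Submodule.mem_iInf]
    constructor
    · intro h i hi
      rw [mem_kernel]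
      exact congrFun h ⟨i, hi⟩
    · intro h
      ext i
      exact (mem_kernel _ _).mp (h i i.2)
  rw [h4, Module.finrank_fin_fun] at h3
  have h5 : M.rank = finrank K (LinearMap.range M.mulVecLin) := rfl
  omega

/-- Whitney's formula -/
theorem poincare_eq (hv : ∀ i, v i ≠ 0) :
    poincare (arr v) = ∑ s : Finset ι, (-1 : Polynomial ℚ) ^ s.card *
      (-Polynomial.X) ^ finrank K (Submodule.span K (v '' (s : Set ι))) := by
  classical
  rw [poincare]
  have h2 := finsum_subtype_eq_finsum_cond
    (f := fun Z : Submodule K (Fin n → K) => Polynomial.C (moebius (arr v) Z : ℚ) *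
      (-Polynomial.X) ^ (n - finrank K Z)) (fun Z => Z ∈ flats (arr v))
  have h2' : ∑ᶠ X : flats (arr v), Polynomial.C (moebius (arr v) X : ℚ) *
      (-Polynomial.X) ^ (n - finrank K X) = ∑ᶠ (Z : Submodule K (Fin n → K))
        (_ : Z ∈ flats (arr v)), Polynomial.C (moebius (arr v) Z : ℚ) *
      (-Polynomial.X) ^ (n - finrank K Z) := h2
  rw [h2', ← coe_flatSet, finsum_mem_coe_finset]
  have := Finset.sum_fiberwise_of_maps_to (s := (Finset.univ : Finset (Finset ι)))
    (t := flatSet v) (g := flat v) (f := fun s => (-1 : Polynomial ℚ) ^ s.card *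
      (-Polynomial.X) ^ finrank K (Submodule.span K (v '' (s : Set ι))))
    (by intro s _; simp [flatSet])
  rw [← this]
  apply Finset.sum_congr rfl
  intro Z hZ
  rw [moebius_eq_nu v hv Z (by rw [← coe_flatSet]; exact hZ), nu, Int.cast_sum, map_sum,
    Finset.sum_mul]
  apply Finset.sum_congr rfl
  intro s hs
  simp only [Finset.mem_filter, Finset.mem_univ, true_and] at hs
  rw [← codim_flat, hs]
  simp

end whitney

/-! ### a recursion for the sum -/

/-- alternating sum over sublists, relative to a subspace -/
noncomputable def wsum (W : Submodule K (Fin n → K)) : List (Fin n → K) → Polynomial ℚ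
  | [] => (-Polynomial.X) ^ finrank K W
  | a :: L => wsum W L - wsum (W ⊔ Submodule.span K {a}) L

lemma wsum_eq_sum {ι : Type} [DecidableEq ι] (v : ι → Fin n → K) (l : List ι) (hl : l.Nodup) :
    ∀ W : Submodule K (Fin n → K), ∑ s ∈ l.toFinset.powerset, (-1 : Polynomial ℚ) ^ s.card *
      (-Polynomial.X) ^ finrank K (W ⊔ Submodule.span K (v '' (s : Set ι)) : Submodule K _) =
      wsum W (l.map v) := by
  induction l with
  | nil =>
    intro W
    have : (W ⊔ Submodule.span K (v '' ((∅ : Finset ι) : Set ι))) = W := by simp
    simp only [List.toFinset_nil, Finset.powerset_empty, Finset.sum_singleton, Finset.card_empty,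
      pow_zero, one_mul, List.map_nil, wsum]
    rw [this]
  | cons i l ih =>
    intro W
    rw [List.nodup_cons] at hl
    have hi : i ∉ l.toFinset := by simpa using hl.1
    rw [List.toFinset_cons, Finset.sum_powerset_insert hi, List.map_cons, wsum,
      ← ih hl.2 W, ← ih hl.2 (W ⊔ Submodule.span K {v i}), sub_eq_add_neg,
      ← Finset.sum_neg_distrib]
    congr 1
    apply Finset.sum_congr rfl
    intro s hs
    have his : i ∉ s := fun h => hi (Finset.mem_powerset.mp hs h)
    rw [Finset.card_insert_of_notMem his, Finset.coe_insert, Set.image_insert_eq,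
      Submodule.span_insert, ← sup_assoc]
    ring

lemma wsum_of_mem {W : Submodule K (Fin n → K)} {a : Fin n → K} (ha : a ∈ W)
    (L : List (Fin n → K)) : wsum W (a :: L) = 0 := by
  rw [wsum]
  have : W ⊔ Submodule.span K {a} = W := by
    rw [sup_eq_left, Submodule.span_singleton_le_iff_mem]
    exact ha
  rw [this, sub_self]

lemma finrank_ker_sup (T : (Fin n → K) →ₗ[K] (Fin n → K)) (W : Submodule K (Fin n → K)) :
    finrank K (LinearMap.ker T ⊔ W : Submodule K _) =
      finrank K (LinearMap.ker T) + finrank K (W.map T) := by
  have h := LinearMap.finrank_range_add_finrank_ker (T.domRestrict (LinearMap.ker T ⊔ W))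
  have h1 : LinearMap.range (T.domRestrict (LinearMap.ker T ⊔ W)) = W.map T := by
    rw [LinearMap.range_domRestrict, Submodule.map_sup]
    rw [LinearMap.le_ker_iff_map.mp le_rfl, bot_sup_eq]
  have h2 : finrank K (LinearMap.ker (T.domRestrict (LinearMap.ker T ⊔ W))) =
      finrank K (LinearMap.ker T) := by
    rw [LinearMap.ker_domRestrict]
    exact LinearEquiv.finrank_eq (Submodule.comapSubtypeEquivOfLe le_sup_left)
  rw [h1, h2] at h
  omega

lemma wsum_ker_sup (T : (Fin n → K) →ₗ[K] (Fin n → K)) (L : List (Fin n → K)) :
    ∀ W : Submodule K (Fin n → K), wsum (LinearMap.ker T ⊔ W) L =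
      (-Polynomial.X) ^ finrank K (LinearMap.ker T) * wsum (W.map T) (L.map T) := by
  induction L with
  | nil => intro W; rw [List.map_nil, wsum, wsum, finrank_ker_sup, pow_add]
  | cons a L ih =>
    intro W
    rw [List.map_cons, wsum, wsum, sup_assoc, ih, ih, Submodule.map_sup, Submodule.map_span,
      Set.image_singleton]
    ring

/-- elimination of the coordinate `j` by the vector `a` -/
def red (a : Fin n → K) (j : Fin n) : (Fin n → K) →ₗ[K] (Fin n → K) where
  toFun w := fun i => a j * w i - w j * a i
  map_add' x y := by ext i; simp only [Pi.add_apply]; ring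
  map_smul' c x := by ext i; simp only [Pi.smul_apply, smul_eq_mul, RingHom.id_apply]; ring

lemma ker_red {a : Fin n → K} {j : Fin n} (hj : a j ≠ 0) :
    LinearMap.ker (red a j) = Submodule.span K {a} := by
  ext w
  rw [LinearMap.mem_ker, Submodule.mem_span_singleton]
  constructor
  · intro h
    refine ⟨w j / a j, ?_⟩
    ext i
    have := congrFun h i
    simp only [red, LinearMap.coe_mk, AddHom.coe_mk, Pi.zero_apply] at this
    rw [Pi.smul_apply, smul_eq_mul, div_mul_eq_mul_div, div_eq_iff hj]
    linear_combination -this
  · rintro ⟨c, rfl⟩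
    ext i
    simp only [red, LinearMap.coe_mk, AddHom.coe_mk, Pi.zero_apply, Pi.smul_apply, smul_eq_mul]
    ring

lemma wsum_cons_red {a : Fin n → K} {j : Fin n} (hj : a j ≠ 0) (L : List (Fin n → K)) :
    wsum ⊥ (a :: L) = wsum ⊥ L + Polynomial.X * wsum ⊥ (L.map (red a j)) := by
  rw [wsum, bot_sup_eq, ← ker_red hj]
  have h := wsum_ker_sup (red a j) L ⊥
  rw [sup_bot_eq, Submodule.map_bot] at h
  have h1 : finrank K (LinearMap.ker (red a j)) = 1 := by
    rw [ker_red hj]
    apply finrank_span_singleton
    rintro rfl
    exact hj rfl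
  rw [h, h1]
  ring

/-! ### evaluation by computation -/

/-- cast of a list of integers to a vector -/
def lvec (K : Type u) [Field K] (n : ℕ) (l : List ℤ) : Fin n → K :=
  fun i => ((l.getD i 0 : ℤ) : K)

/-- elimination on lists of integers -/
def redL (n : ℕ) (j : ℕ) (a w : List ℤ) : List ℤ :=
  (List.range n).map fun i => a.getD j 0 * w.getD i 0 - w.getD j 0 * a.getD i 0

/-- coefficientwise difference of lists -/
def subL : List ℤ → List ℤ → List ℤ
  | [], l' => l'.map fun b => -b
  | a :: l, [] => a :: l
  | a :: l, b :: l' => (a - b) :: subL l l'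

/-- the coefficients of the sum, in powers of `-t` -/
def comp (n : ℕ) : ℕ → List (List ℤ) → List ℤ
  | 0, L => if L.isEmpty then [1] else []
  | N + 1, L =>
    match L with
    | [] => [1]
    | a :: L =>
      match (List.range n).find? (fun j => a.getD j 0 != 0) with
      | none => []
      | some j => subL (comp n N L) (0 :: comp n N (L.map (redL n j a)))

/-- the polynomial with given coefficients in powers of `-t` -/
noncomputable def polyL : List ℤ → Polynomial ℚ
  | [] => 0
  | a :: l => Polynomial.C (a : ℚ) + (-Polynomial.X) * polyL l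

lemma polyL_neg : ∀ l : List ℤ, polyL (l.map fun b => -b) = -polyL l
  | [] => by simp [polyL]
  | a :: l => by
    simp only [List.map_cons, polyL, polyL_neg l, Int.cast_neg, map_neg]
    ring

lemma polyL_subL : ∀ l l' : List ℤ, polyL (subL l l') = polyL l - polyL l'
  | [], l' => by
    simp only [subL, polyL, polyL_neg]
    ring
  | a :: l, [] => by
    simp only [subL, polyL]
    ring
  | a :: l, b :: l' => by
    simp only [subL, polyL, polyL_subL l l', Int.cast_sub, map_sub]
    ring

lemma lvec_redL (j : Fin n) (a w : List ℤ) :
    lvec K n (redL n j a w) = red (lvec K n a) j (lvec K n w) := by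
  ext i
  simp [lvec, redL, red, List.getD_eq_getElem?_getD]

theorem wsum_eq_polyL [CharZero K] : ∀ (N : ℕ) (L : List (List ℤ)), L.length ≤ N →
    wsum (⊥ : Submodule K (Fin n → K)) (L.map (lvec K n)) = polyL (comp n N L) := by
  intro N
  induction N with
  | zero =>
    intro L hL
    have : L = [] := List.length_eq_zero_iff.mp (Nat.le_zero.mp hL)
    subst this
    simp [wsum, comp, polyL]
  | succ N ih =>
    intro L hL
    cases L with
    | nil => simp [wsum, comp, polyL]
    | cons a L =>
      rw [List.length_cons, Nat.add_le_add_iff_right] at hL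
      rw [comp]
      cases hf : (List.range n).find? (fun j => a.getD j 0 != 0) with
      | none =>
        rw [List.find?_eq_none] at hf
        rw [List.map_cons, wsum_of_mem]
        · simp [polyL]
        · rw [Submodule.mem_bot]
          ext i
          have := hf i (List.mem_range.mpr i.2)
          simp only [bne_iff_ne, ne_eq, not_not] at this
          change ((a.getD i 0 : ℤ) : K) = 0
          rw [this, Int.cast_zero]
      | some j =>
        have hj := List.find?_some hf
        have hjn := List.mem_of_find?_eq_some hf
        rw [List.mem_range] at hjn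
        simp only [bne_iff_ne, ne_eq] at hj
        have hj' : lvec K n a ⟨j, hjn⟩ ≠ 0 := by
          simp only [lvec]
          exact_mod_cast hj
        rw [List.map_cons, wsum_cons_red hj', ih L hL]
        have hmap : (L.map (lvec K n)).map (red (lvec K n a) ⟨j, hjn⟩) =
            (L.map (redL n j a)).map (lvec K n) := by
          rw [List.map_map, List.map_map]
          apply List.map_congr_left
          intro w _
          exact (lvec_redL ⟨j, hjn⟩ a w).symm
        rw [hmap, ih _ (by rw [List.length_map]; exact hL)]
        simp only [polyL_subL, polyL]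
        simp only [Int.cast_zero, map_zero, zero_add]
        ring

/-- the Poincaré polynomial of an arrangement given by integer vectors -/
theorem poincare_eq_polyL [CharZero K] (N : ℕ) (v : Fin N → Fin n → K) (L : List (List ℤ))
    (hL : List.ofFn v = L.map (lvec K n)) (hv : ∀ i, v i ≠ 0) :
    poincare (arr v) = polyL (comp n N L) := by
  classical
  have hlen : L.length ≤ N := by
    have := congrArg List.length hL
    simp at this
    omega
  rw [← wsum_eq_polyL (K := K) N L hlen, poincare_eq v hv, ← hL, List.ofFn_eq_map,
    ← wsum_eq_sum v _ (List.nodup_finRange N)]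
  have : (List.finRange N).toFinset.powerset = (Finset.univ : Finset (Finset (Fin N))) := by
    rw [List.toFinset_finRange]
    simp
  rw [this]
  apply Finset.sum_congr rfl
  intro s _
  rw [bot_sup_eq]

end Pool.Agent.SolTer
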