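import Pool.Agent.SolTer.Graded
import Pool.Agent.SolTer.Whitney

set_option autoImplicit false

open MvPolynomial Module

namespace Pool.Agent.SolTer

universe u

variable {K : Type u} [Field K] {n m : ℕ}

/-- the embedding of `Kⁿ` as the last coordinate hyperplane -/
def emb (K : Type u) [Field K] (n : ℕ) : (Fin n → K) →ₗ[K] (Fin (n + 1) → K) where
  toFun p := Fin.snoc p 0
  map_add' p q := by
    ext i
    refine Fin.lastCases ?_ (fun j => ?_) i
    · simp
    · simp
  map_smul' c p := by
    ext i
    refine Fin.lastCases ?_ (fun j => ?_) i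
    · simp
    · simp

lemma emb_castSucc (p : Fin n → K) (i : Fin n) : emb K n p i.castSucc = p i := by
  simp [emb]

lemma emb_last (p : Fin n → K) : emb K n p (Fin.last n) = 0 := by
  simp [emb]

lemma emb_injective : Function.Injective (emb K n) := by
  intro p q h
  ext i
  have := congrFun h i.castSucc
  rwa [emb_castSucc, emb_castSucc] at this

lemma range_emb : LinearMap.range (emb K n) = kernel (Pi.single (Fin.last n) (1 : K)) := by
  ext p
  rw [mem_kernel, LinearMap.mem_range]
  constructor
  · rintro ⟨q, rfl⟩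
    simp [Pi.single_apply, emb_last]
  · intro h
    simp [Pi.single_apply] at h
    refine ⟨fun i => p i.castSucc, ?_⟩
    ext i
    refine Fin.lastCases ?_ (fun j => ?_) i
    · rw [emb_last, h]
    · rw [emb_castSucc]

lemma comap_kernel (a : Fin (n + 1) → K) :
    (kernel a).comap (emb K n) = kernel fun i => a i.castSucc := by
  ext p
  rw [Submodule.mem_comap, mem_kernel, mem_kernel, Fin.sum_univ_castSucc, emb_last]
  simp only [emb_castSucc, mul_zero, add_zero]

lemma pullback_sq : pullback (emb K n) (sq K (n + 1)) = sq K n := by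
  classical
  rw [pullback, sq, map_sum, Fin.sum_univ_castSucc]
  have h1 : ∀ i : Fin n, form (fun j => emb K n (Pi.single j 1) i.castSucc) = X i := by
    intro i
    rw [← form_single (K := K) i]
    congr 1
    ext j
    rw [emb_castSucc]
    simp [Pi.single_apply, eq_comm]
  have h2 : form (fun j => emb K n (Pi.single j 1) (Fin.last n)) = 0 := by
    simp [emb_last, form]
  simp only [map_pow, bind₁_X_right, h1, h2]
  simp [sq]

theorem restrict_arr [CharZero K] {N M : ℕ} (v : Fin N → Fin (n + 1) → ℤ)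
    (w : Fin M → Fin n → ℤ) (i₀ : Fin N) (j : Fin N → Fin M) (k : Fin M → Fin N)
    (h0 : v i₀ = Pi.single (Fin.last n) 1)
    (hne : ∀ i, i ≠ i₀ → ∃ l : Fin n, v i l.castSucc ≠ 0)
    (h1 : ∀ i, i ≠ i₀ → ∀ l : Fin n, v i l.castSucc = w (j i) l)
    (h2 : ∀ m, k m ≠ i₀ ∧ j (k m) = m) :
    restrict (emb K n) (arr fun i => castV K (v i)) = arr fun i => castV K (w i) := by
  classical
  have hr : LinearMap.range (emb K n) = kernel (castV K (v i₀)) := by
    rw [range_emb, h0]
    congr 1
    ext i
    simp only [castV, Pi.single_apply]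
    split_ifs <;> simp
  have hker : ∀ i, i ≠ i₀ → kernel (castV K (v i)) ≠ LinearMap.range (emb K n) := by
    intro i hi h
    obtain ⟨l, hl⟩ := hne i hi
    have : emb K n (Pi.single l 1) ∈ kernel (castV K (v i)) := by
      rw [h]; exact LinearMap.mem_range_self _ _
    rw [mem_kernel, Fin.sum_univ_castSucc, emb_last] at this
    simp only [emb_castSucc, mul_zero, add_zero] at this
    simp [Pi.single_apply, castV] at this
    exact hl this
  have hcomap : ∀ i, i ≠ i₀ → (kernel (castV K (v i))).comap (emb K n) =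
      kernel (castV K (w (j i))) := by
    intro i hi
    rw [comap_kernel]
    congr 1
    ext l
    simp only [castV, h1 i hi l]
  ext Y
  constructor
  · rintro ⟨L, ⟨i, rfl⟩, hL, rfl⟩
    have hi : i ≠ i₀ := by
      rintro rfl
      exact hL hr.symm
    exact ⟨j i, (hcomap i hi).symm⟩
  · rintro ⟨m, rfl⟩
    refine ⟨_, ⟨k m, rfl⟩, hker _ (h2 m).1, ?_⟩
    rw [hcomap _ (h2 m).1, (h2 m).2]

/-! ### regularity -/

/-- non-zerodivisor modulo an ideal -/
def NZD (J : Ideal (MvPolynomial (Fin n) K)) (g : MvPolynomial (Fin n) K) : Prop :=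
  ∀ r, g * r ∈ J → r ∈ J

lemma NZD.mul {J : Ideal (MvPolynomial (Fin n) K)} {g h : MvPolynomial (Fin n) K}
    (hg : NZD J g) (hh : NZD J h) : NZD J (g * h) := by
  intro r hr
  apply hh
  apply hg
  rwa [← mul_assoc]

lemma nzd_bot {g : MvPolynomial (Fin n) K} (hg : g ≠ 0) : NZD ⊥ g := by
  intro r hr
  rw [Ideal.mem_bot] at hr ⊢
  exact (mul_eq_zero.mp hr).resolve_left hg

lemma nzd_span {a : Fin n → K} (ha : a ≠ 0) {η : MvPolynomial (Fin n) K} (h : ¬ form a ∣ η) :
    NZD (⊥ ⊔ Ideal.span {η}) (form a) := by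
  intro r hr
  rw [bot_sup_eq, Ideal.mem_span_singleton] at hr ⊢
  obtain ⟨s, hs⟩ := hr
  obtain ⟨t, rfl⟩ := ((form_prime ha).dvd_or_dvd (Dvd.intro r hs)).resolve_left h
  have : form a * r = form a * (η * t) := by rw [hs]; ring
  exact ⟨t, mul_left_cancel₀ (form_ne_zero ha) this⟩

lemma elim_form' (a b : Fin n → K) (k : Fin n) :
    elim a k (form b) = form (b - (b k * (a k)⁻¹) • a) := by
  classical
  have h1 : form (b - (b k * (a k)⁻¹) • a) = form b - C (b k * (a k)⁻¹) * form a := by
    rw [sub_eq_add_neg, ← neg_smul, form_add, form_smul, C_neg]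
    ring
  rw [h1, form, map_sum]
  have : ∀ i, elim a k (C (b i) * X i) =
      C (b i) * X i - if i = k then C (b k * (a k)⁻¹) * form a else 0 := by
    intro i
    rw [map_mul, elim, bind₁_C_right, bind₁_X_right]
    split_ifs with hi
    · subst hi
      rw [C_mul]; ring
    · simp
  simp only [this, Finset.sum_sub_distrib, Finset.sum_ite_eq', Finset.mem_univ, if_true]

/-- two independent linear forms generate a prime ideal -/
lemma span_pair_prime {a b : Fin n → K} (hb : ¬ form a ∣ form b)
    (ha : a ≠ 0) {h k : MvPolynomial (Fin n) K} (hhk : h * k ∈ Ideal.span {form a, form b}) :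
    h ∈ Ideal.span {form a, form b} ∨ k ∈ Ideal.span {form a, form b} := by
  obtain ⟨l, hl⟩ := Function.ne_iff.mp ha
  simp only [Pi.zero_apply] at hl
  set b' := b - (b l * (a l)⁻¹) • a with hb'
  have hform : elim a l (form b) = form b' := elim_form' a b l
  have hne : b' ≠ 0 := by
    intro h0
    apply hb
    rw [form_dvd_iff hl, hform, h0, form_zero]
  have key : ∀ g : MvPolynomial (Fin n) K, g ∈ Ideal.span {form a, form b} ↔
      form b' ∣ elim a l g := by
    intro g
    rw [Ideal.mem_span_pair]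
    constructor
    · rintro ⟨u, w, rfl⟩
      rw [map_add, map_mul, map_mul, elim_form hl, hform, mul_zero, zero_add]
      exact dvd_mul_left _ _
    · rintro ⟨w, hw⟩
      obtain ⟨u, hu⟩ := form_dvd_sub_elim a l g
      have h1 : form b' = form b - C (b l * (a l)⁻¹) * form a := by
        rw [hb', sub_eq_add_neg, ← neg_smul, form_add, form_smul, C_neg]
        ring
      refine ⟨u - C (b l * (a l)⁻¹) * w, w, ?_⟩
      rw [hw, h1] at hu
      linear_combination -hu
  rw [key, key]
  rw [key, map_mul] at hhk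
  exact (form_prime hne).dvd_or_dvd hhk

lemma not_mem_span_pair {a b : Fin n → K} {h : MvPolynomial (Fin n) K} (p : Fin n → K)
    (hpa : eval p (form a) = 0) (hpb : eval p (form b) = 0) (hph : eval p h ≠ 0) :
    h ∉ Ideal.span {form a, form b} := by
  intro hmem
  obtain ⟨u, w, rfl⟩ := Ideal.mem_span_pair.mp hmem
  apply hph
  rw [map_add, map_mul, map_mul, hpa, hpb, mul_zero, mul_zero, add_zero]

/-- key syzygy statement modulo a linear form -/
lemma syz {a : Fin n → K} (ha : a ≠ 0) (η : MvPolynomial (Fin n) K) :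
    ∀ (l : List (Fin n → K)), (∀ b ∈ l, ¬ form a ∣ form b ∧ η ∉ Ideal.span {form a, form b}) →
      ∀ s t : MvPolynomial (Fin n) K, form a ∣ η * s + (l.map form).prod * t →
        ∃ s', form a ∣ s - (l.map form).prod * s' ∧ form a ∣ t + η * s' := by
  intro l
  induction l with
  | nil =>
    intro _ s t h
    simp only [List.map_nil, List.prod_nil, one_mul] at h ⊢
    exact ⟨s, by simp, by rwa [add_comm]⟩
  | cons b l ih =>
    intro hl s t h
    obtain ⟨h1, h2⟩ := hl b List.mem_cons_self
    rw [List.map_cons, List.prod_cons] at h ⊢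
    have h3 : η * s ∈ Ideal.span {form a, form b} := by
      obtain ⟨u, hu⟩ := h
      rw [Ideal.mem_span_pair]
      exact ⟨u, -((l.map form).prod * t), by linear_combination -hu⟩
    obtain ⟨u, s1, hs⟩ := Ideal.mem_span_pair.mp ((span_pair_prime h1 ha h3).resolve_left h2)
    have h4 : form a ∣ form b * (η * s1 + (l.map form).prod * t) := by
      have : form b * (η * s1 + (l.map form).prod * t) =
          (η * s + form b * (l.map form).prod * t) - form a * (u * η) := by
        rw [← hs]; ring
      rw [this]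
      exact dvd_sub h (dvd_mul_right _ _)
    have h5 := ((form_prime ha).dvd_or_dvd h4).resolve_left h1
    obtain ⟨s', hs1, hs2⟩ := ih (fun b hb => hl b (List.mem_cons_of_mem _ hb)) s1 t h5
    refine ⟨s', ?_, hs2⟩
    have : s - form b * (l.map form).prod * s' =
        form b * (s1 - (l.map form).prod * s') + form a * u := by
      rw [← hs]; ring
    rw [this]
    exact dvd_add (hs1.mul_left _) (dvd_mul_right _ _)

lemma nzd_span_pair {a : Fin n → K} (ha : a ≠ 0) (η : MvPolynomial (Fin n) K)
    (l : List (Fin n → K)) (hl : ∀ b ∈ l, ¬ form a ∣ form b ∧ η ∉ Ideal.span {form a, form b}) :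
    NZD (⊥ ⊔ Ideal.span {η} ⊔ Ideal.span {(l.map form).prod}) (form a) := by
  have hmem : ∀ g : MvPolynomial (Fin n) K,
      g ∈ (⊥ ⊔ Ideal.span {η} ⊔ Ideal.span {(l.map form).prod}) ↔
      ∃ s t, g = η * s + (l.map form).prod * t := by
    intro g
    rw [bot_sup_eq, Submodule.mem_sup]
    constructor
    · rintro ⟨x, hx, y, hy, rfl⟩
      obtain ⟨s, rfl⟩ := Ideal.mem_span_singleton.mp hx
      obtain ⟨t, rfl⟩ := Ideal.mem_span_singleton.mp hy
      exact ⟨s, t, rfl⟩
    · rintro ⟨s, t, rfl⟩
      exact ⟨_, Ideal.mem_span_singleton.mpr (dvd_mul_right _ _), _,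
        Ideal.mem_span_singleton.mpr (dvd_mul_right _ _), rfl⟩
  intro r hr
  rw [hmem] at hr ⊢
  obtain ⟨s, t, hst⟩ := hr
  obtain ⟨s', ⟨s2, h1⟩, ⟨t2, h2⟩⟩ := syz ha η l hl s t ⟨r, hst.symm⟩
  refine ⟨s2, t2, ?_⟩
  apply mul_left_cancel₀ (form_ne_zero ha)
  rw [hst]
  linear_combination η * h1 + (l.map form).prod * h2

end Pool.Agent.SolTer
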