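import Pool.Agent.SolTer.Restrict

set_option autoImplicit false

open MvPolynomial Module

namespace Pool.Agent.SolTer.Second

universe u

variable (K : Type u) [Field K]

/-- the linear forms z, x, x - z, x + z, y - z, y + z -/
def v : Fin 6 → Fin 3 → ℤ :=
  ![![0, 0, 1], ![1, 0, 0], ![1, 0, -1], ![1, 0, 1], ![0, 1, -1], ![0, 1, 1]]

/-- the linear forms x, y -/
def w : Fin 2 → Fin 2 → ℤ := ![![1, 0], ![0, 1]]

def LA : List (List ℤ) := [[0, 0, 1], [1, 0, 0], [1, 0, -1], [1, 0, 1], [0, 1, -1], [0, 1, 1]]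

def LR : List (List ℤ) := [[1, 0], [0, 1]]

lemma v_ne [CharZero K] (i : Fin 6) : castV K (v i) ≠ 0 := by
  intro h
  have h0 := congrFun h 0
  have h1 := congrFun h 1
  have h2 := congrFun h 2
  fin_cases i <;> simp [castV, v] at h0 h1 h2

lemma w_ne [CharZero K] (i : Fin 2) : castV K (w i) ≠ 0 := by
  intro h
  have h0 := congrFun h 0
  have h1 := congrFun h 1
  fin_cases i <;> simp [castV, w] at h0 h1

lemma poincareA [CharZero K] : poincare (arr fun i => castV K (v i)) =
    (1 + Polynomial.X) * (1 + 2 * Polynomial.X) * (1 + 3 * Polynomial.X) := by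
  have hL : List.ofFn (fun i => castV K (v i)) = LA.map (lvec K 3) := by
    simp only [List.ofFn_succ, List.ofFn_zero, LA, List.map_cons, List.map_nil]
    simp only [List.cons.injEq, and_true]
    refine ⟨?_, ?_, ?_, ?_, ?_, ?_⟩ <;> (ext i; fin_cases i <;> simp [castV, v, lvec])
  rw [poincare_eq_polyL 6 _ LA hL (v_ne K)]
  have : comp 3 6 LA = [1, -6, 11, -6] := by decide +kernel
  rw [this]
  simp only [polyL, Int.cast_neg, map_neg, Int.cast_one, map_one, Int.cast_ofNat, map_ofNat]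
  ring

lemma poincareR [CharZero K] : poincare (arr fun i => castV K (w i)) =
    (1 + Polynomial.X) * (1 + Polynomial.X) := by
  have hL : List.ofFn (fun i => castV K (w i)) = LR.map (lvec K 2) := by
    simp only [List.ofFn_succ, List.ofFn_zero, LR, List.map_cons, List.map_nil]
    simp only [List.cons.injEq, and_true]
    refine ⟨?_, ?_⟩ <;> (ext i; fin_cases i <;> simp [castV, w, lvec])
  rw [poincare_eq_polyL 2 _ LR hL (w_ne K)]
  have : comp 2 2 LR = [1, -2, 1] := by decide +kernel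
  rw [this]
  simp only [polyL, Int.cast_neg, map_neg, Int.cast_one, map_one, Int.cast_ofNat, map_ofNat]
  ring

lemma not_dvd : ¬ ((1 + Polynomial.X) * (1 + Polynomial.X) : Polynomial ℚ) ∣
    (1 + Polynomial.X) * (1 + 2 * Polynomial.X) * (1 + 3 * Polynomial.X) := by
  rintro ⟨q, hq⟩
  have h := congrArg (fun p => Polynomial.eval (-1) (Polynomial.derivative p)) hq
  simp at h
  norm_num at h

lemma restrictA [CharZero K] : restrict (emb K 2) (arr fun i => castV K (v i)) =
    arr fun i => castV K (w i) :=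
  restrict_arr v w 0 ![0, 0, 0, 0, 1, 1] ![1, 4] (by decide) (by decide) (by decide) (by decide)

/-- the linear forms over `K` -/
lemma forms : (form (castV K (v 0)) = X 2) ∧ (form (castV K (v 1)) = X 0) ∧
    (form (castV K (v 2)) = X 0 - X 2) ∧ (form (castV K (v 3)) = X 0 + X 2) ∧
    (form (castV K (v 4)) = X 1 - X 2) ∧ (form (castV K (v 5)) = X 1 + X 2) := by
  refine ⟨?_, ?_, ?_, ?_, ?_, ?_⟩ <;> simp [form, castV, v, Fin.sum_univ_three] <;> ring

/-! ### the ideal -/

/-- vectors of the forms y, y - z, y + z -/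
def l : List (Fin 3 → K) := [![0, 1, 0], ![0, 1, -1], ![0, 1, 1]]

lemma prod_l : ((l K).map form).prod = X 1 * ((X 1 - X 2) * (X 1 + X 2)) := by
  have h1 : form (![0, 1, 0] : Fin 3 → K) = X 1 := by simp [form, Fin.sum_univ_three]
  have h2 : form (![0, 1, -1] : Fin 3 → K) = X 1 - X 2 := by
    simp [form, Fin.sum_univ_three]; ring
  have h3 : form (![0, 1, 1] : Fin 3 → K) = X 1 + X 2 := by simp [form, Fin.sum_univ_three]
  simp only [l, List.map_cons, List.map_nil, List.prod_cons, List.prod_nil, h1, h2, h3, mul_one]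

/-- the product of x, x, x - z, x + z -/
noncomputable def g2 : MvPolynomial (Fin 3) K :=
  form ![1, 0, 0] * (form ![1, 0, 0] * (form ![1, 0, -1] * form ![1, 0, 1]))

lemma g2_eq : g2 K = X 0 * (X 0 * ((X 0 - X 2) * (X 0 + X 2))) := by
  have h1 : form (![1, 0, 0] : Fin 3 → K) = X 0 := by simp [form, Fin.sum_univ_three]
  have h2 : form (![1, 0, -1] : Fin 3 → K) = X 0 - X 2 := by
    simp [form, Fin.sum_univ_three]; ring
  have h3 : form (![1, 0, 1] : Fin 3 → K) = X 0 + X 2 := by simp [form, Fin.sum_univ_three]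
  simp only [g2, h1, h2, h3]

/-- generators of the Solomon-Terao ideal -/
noncomputable def J : Ideal (MvPolynomial (Fin 3) K) :=
  ⊥ ⊔ Ideal.span {sq K 3} ⊔ Ideal.span {((l K).map form).prod} ⊔ Ideal.span {g2 K}

lemma mem_J (g : MvPolynomial (Fin 3) K) : g ∈ J K ↔
    ∃ q s t, g = sq K 3 * q + ((l K).map form).prod * s + g2 K * t := by
  rw [J, bot_sup_eq, Submodule.mem_sup]
  constructor
  · rintro ⟨x, hx, y, hy, rfl⟩
    obtain ⟨x1, hx1, x2, hx2, rfl⟩ := Submodule.mem_sup.mp hx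
    obtain ⟨q, rfl⟩ := Ideal.mem_span_singleton.mp hx1
    obtain ⟨s, rfl⟩ := Ideal.mem_span_singleton.mp hx2
    obtain ⟨t, rfl⟩ := Ideal.mem_span_singleton.mp hy
    exact ⟨q, s, t, rfl⟩
  · rintro ⟨q, s, t, rfl⟩
    exact ⟨_, Submodule.add_mem_sup (Ideal.mem_span_singleton.mpr (dvd_mul_right _ _))
      (Ideal.mem_span_singleton.mpr (dvd_mul_right _ _)), _,
      Ideal.mem_span_singleton.mpr (dvd_mul_right _ _), rfl⟩

lemma sq3 : sq K 3 = X 0 ^ 2 + X 1 ^ 2 + X 2 ^ 2 := by
  simp [sq, Fin.sum_univ_three]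

lemma half [CharZero K] : (2 : MvPolynomial (Fin 3) K) * C (1 / 2) = 1 := by
  rw [← map_ofNat C 2, ← C_mul]
  simp

lemma stIdeal_eq [CharZero K] : stIdeal (arr fun i => castV K (v i)) (sq K 3) = J K := by
  obtain ⟨e0, e1, e2, e3, e4, e5⟩ := forms K
  ext g
  rw [mem_stIdeal_arr _ (v_ne K), mem_J]
  constructor
  · rintro ⟨f, hf, rfl⟩
    have h0 := hf 0
    have h1 := hf 1
    have h2 := hf 2
    have h3 := hf 3
    have h4 := hf 4
    have h5 := hf 5
    rw [e0] at h0
    rw [e1] at h1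
    rw [e2] at h2
    rw [e3] at h3
    rw [e4] at h4
    rw [e5] at h5
    simp [Fin.sum_univ_three, castV, v] at h0 h1 h2 h3 h4 h5
    obtain ⟨q, hq⟩ := h0
    obtain ⟨b, hb⟩ := h1
    rw [hq] at h2 h3 h4 h5
    rw [hb] at h2 h3
    have p2 : Prime (X 0 - X 2 : MvPolynomial (Fin 3) K) := e2 ▸ form_prime (v_ne K 2)
    have p3 : Prime (X 0 + X 2 : MvPolynomial (Fin 3) K) := e3 ▸ form_prime (v_ne K 3)
    have p5 : Prime (X 1 + X 2 : MvPolynomial (Fin 3) K) := e5 ▸ form_prime (v_ne K 5)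
    have n2 : ¬ (X 0 - X 2 : MvPolynomial (Fin 3) K) ∣ X 0 := by
      rintro ⟨r, hr⟩
      have := congrArg (eval ![(1 : K), 0, 1]) hr
      simp at this
    have n3 : ¬ (X 0 + X 2 : MvPolynomial (Fin 3) K) ∣ X 0 := by
      rintro ⟨r, hr⟩
      have := congrArg (eval ![(1 : K), 0, -1]) hr
      simp at this
    have n32 : ¬ (X 0 + X 2 : MvPolynomial (Fin 3) K) ∣ X 0 - X 2 := by
      rintro ⟨r, hr⟩
      have := congrArg (eval ![(1 : K), 0, -1]) hr
      simp at this
    have n54 : ¬ (X 1 + X 2 : MvPolynomial (Fin 3) K) ∣ X 1 - X 2 := by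
      rintro ⟨r, hr⟩
      have := congrArg (eval ![(0 : K), 1, -1]) hr
      simp at this
    -- the first coefficient
    have h2' : (X 0 - X 2 : MvPolynomial (Fin 3) K) ∣ X 0 * (b - q) := by
      have : (X 0 * (b - q) : MvPolynomial (Fin 3) K) =
        (X 0 * b + -(X 2 * q)) - (X 0 - X 2) * q := by ring
      rw [this]
      exact dvd_sub h2 (dvd_mul_right _ _)
    obtain ⟨c, hc⟩ := (p2.dvd_or_dvd h2').resolve_left n2
    have h3' : (X 0 + X 2 : MvPolynomial (Fin 3) K) ∣ (X 0 - X 2) * (X 0 * c) := by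
      have : ((X 0 - X 2) * (X 0 * c) : MvPolynomial (Fin 3) K) =
        (X 0 * b + X 2 * q) - (X 0 + X 2) * q := by
          linear_combination (-X 0 : MvPolynomial (Fin 3) K) * hc
      rw [this]
      exact dvd_sub h3 (dvd_mul_right _ _)
    obtain ⟨d, hd⟩ := (p3.dvd_or_dvd ((p3.dvd_or_dvd h3').resolve_left n32)).resolve_left n3
    -- the second coefficient
    have h4' : (X 1 - X 2 : MvPolynomial (Fin 3) K) ∣ f 1 - X 1 * q := by
      have : (f 1 - X 1 * q : MvPolynomial (Fin 3) K) =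
        (f 1 + -(X 2 * q)) - (X 1 - X 2) * q := by ring
      rw [this]
      exact dvd_sub h4 (dvd_mul_right _ _)
    obtain ⟨r, hr⟩ := h4'
    have h5' : (X 1 + X 2 : MvPolynomial (Fin 3) K) ∣ (X 1 - X 2) * r := by
      have : ((X 1 - X 2) * r : MvPolynomial (Fin 3) K) =
        (f 1 + X 2 * q) - (X 1 + X 2) * q := by
          linear_combination -hr
      rw [this]
      exact dvd_sub h5 (dvd_mul_right _ _)
    obtain ⟨t, ht⟩ := (p5.dvd_or_dvd h5').resolve_left n54
    refine ⟨2 * q, 2 * t, 2 * d, ?_⟩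
    rw [Fin.sum_univ_three, prod_l, g2_eq, sq3, hq, hb]
    linear_combination (2 * X 1 : MvPolynomial (Fin 3) K) * hr +
      (2 * X 0 ^ 2 : MvPolynomial (Fin 3) K) * hc +
      (2 * X 0 ^ 2 * (X 0 - X 2) : MvPolynomial (Fin 3) K) * hd +
      (2 * X 1 * (X 1 - X 2) : MvPolynomial (Fin 3) K) * ht
  · rintro ⟨q, s, t, rfl⟩
    refine ⟨![C (1 / 2) * (X 0 * q + X 0 * (X 0 - X 2) * (X 0 + X 2) * t),
      C (1 / 2) * (X 1 * q + (X 1 - X 2) * (X 1 + X 2) * s), C (1 / 2) * (X 2 * q)], ?_, ?_⟩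
    · intro i
      fin_cases i
      · change form (castV K (v 0)) ∣ _
        rw [e0]
        refine ⟨C (1 / 2) * q, ?_⟩
        simp [Fin.sum_univ_three, castV, v]
        ring
      · change form (castV K (v 1)) ∣ _
        rw [e1]
        refine ⟨C (1 / 2) * (q + (X 0 - X 2) * (X 0 + X 2) * t), ?_⟩
        simp [Fin.sum_univ_three, castV, v]
        ring
      · change form (castV K (v 2)) ∣ _
        rw [e2]
        refine ⟨C (1 / 2) * (q + X 0 * (X 0 + X 2) * t), ?_⟩
        simp [Fin.sum_univ_three, castV, v]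
        ring
      · change form (castV K (v 3)) ∣ _
        rw [e3]
        refine ⟨C (1 / 2) * (q + X 0 * (X 0 - X 2) * t), ?_⟩
        simp [Fin.sum_univ_three, castV, v]
        ring
      · change form (castV K (v 4)) ∣ _
        rw [e4]
        refine ⟨C (1 / 2) * (q + (X 1 + X 2) * s), ?_⟩
        simp [Fin.sum_univ_three, castV, v]
        ring
      · change form (castV K (v 5)) ∣ _
        rw [e5]
        refine ⟨C (1 / 2) * (q + (X 1 - X 2) * s), ?_⟩
        simp [Fin.sum_univ_three, castV, v]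
        ring
    · rw [Fin.sum_univ_three, prod_l, g2_eq, sq3]
      simp only [Matrix.cons_val]
      linear_combination (-((X 0 ^ 2 + X 1 ^ 2 + X 2 ^ 2) * q +
        X 1 * ((X 1 - X 2) * (X 1 + X 2)) * s + X 0 * (X 0 * ((X 0 - X 2) * (X 0 + X 2))) * t) :
        MvPolynomial (Fin 3) K) * half K

/-! ### Hilbert functions -/

lemma sq_ne : sq K 3 ≠ 0 := by
  intro h
  have := congrArg (eval ![(1 : K), 0, 0]) h
  rw [sq3] at this
  simp at this

lemma nzd1 [CharZero K] : NZD (⊥ ⊔ Ideal.span {sq K 3}) ((l K).map form).prod := by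
  have key : ∀ (b p : Fin 3 → K), b ≠ 0 → eval p (form b) = 0 → eval p (sq K 3) ≠ 0 →
      NZD (⊥ ⊔ Ideal.span {sq K 3}) (form b) := by
    intro b p hb hbp hp
    apply nzd_span hb
    rintro ⟨r, hr⟩
    apply hp
    rw [hr, map_mul, hbp, zero_mul]
  simp only [l, List.map_cons, List.map_nil, List.prod_cons, List.prod_nil, mul_one]
  refine NZD.mul ?_ (NZD.mul ?_ ?_)
  · apply key _ ![0, 0, 1]
    · intro h; simpa using congrFun h 1
    · simp [eval_form, Fin.sum_univ_three]
    · simp [sq3]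
  · apply key _ ![0, 1, 1]
    · intro h; simpa using congrFun h 1
    · simp [eval_form, Fin.sum_univ_three]
    · simp [sq3]; try norm_num
  · apply key _ ![0, 1, -1]
    · intro h; simpa using congrFun h 1
    · simp [eval_form, Fin.sum_univ_three]
    · simp [sq3]; try norm_num

lemma nzd2 [CharZero K] :
    NZD (⊥ ⊔ Ideal.span {sq K 3} ⊔ Ideal.span {((l K).map form).prod}) (g2 K) := by
  have key : ∀ (a : Fin 3 → K), a ≠ 0 → (∀ b ∈ l K, ∃ p p' : Fin 3 → K,
      eval p (form a) = 0 ∧ eval p (form b) ≠ 0 ∧ eval p' (form a) = 0 ∧ eval p' (form b) = 0 ∧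
      eval p' (sq K 3) ≠ 0) →
      NZD (⊥ ⊔ Ideal.span {sq K 3} ⊔ Ideal.span {((l K).map form).prod}) (form a) := by
    intro a ha h
    apply nzd_span_pair ha
    intro b hb
    obtain ⟨p, p', h1, h2, h3, h4, h5⟩ := h b hb
    refine ⟨?_, not_mem_span_pair p' h3 h4 h5⟩
    rintro ⟨r, hr⟩
    apply h2
    rw [hr, map_mul, h1, zero_mul]
  have k0 : NZD (⊥ ⊔ Ideal.span {sq K 3} ⊔ Ideal.span {((l K).map form).prod})
      (form ![1, 0, 0]) := by
    apply key
    · intro h; simpa using congrFun h 0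
    · intro b hb
      simp only [l, List.mem_cons, List.not_mem_nil, or_false] at hb
      rcases hb with rfl | rfl | rfl
      · refine ⟨![0, 1, 0], ![0, 0, 1], ?_⟩
        simp [eval_form, Fin.sum_univ_three, sq3]
      · refine ⟨![0, 1, 0], ![0, 1, 1], ?_⟩
        simp [eval_form, Fin.sum_univ_three, sq3]; try norm_num
      · refine ⟨![0, 1, 0], ![0, 1, -1], ?_⟩
        simp [eval_form, Fin.sum_univ_three, sq3]; try norm_num
  rw [g2]
  refine NZD.mul k0 (NZD.mul k0 (NZD.mul ?_ ?_))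
  · apply key
    · intro h; simpa using congrFun h 0
    · intro b hb
      simp only [l, List.mem_cons, List.not_mem_nil, or_false] at hb
      rcases hb with rfl | rfl | rfl
      · refine ⟨![0, 1, 0], ![1, 0, 1], ?_⟩
        simp [eval_form, Fin.sum_univ_three, sq3]; try norm_num
      · refine ⟨![0, 1, 0], ![1, 1, 1], ?_⟩
        simp [eval_form, Fin.sum_univ_three, sq3]; try norm_num
      · refine ⟨![0, 1, 0], ![1, -1, 1], ?_⟩
        simp [eval_form, Fin.sum_univ_three, sq3]; try norm_num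
  · apply key
    · intro h; simpa using congrFun h 0
    · intro b hb
      simp only [l, List.mem_cons, List.not_mem_nil, or_false] at hb
      rcases hb with rfl | rfl | rfl
      · refine ⟨![0, 1, 0], ![1, 0, -1], ?_⟩
        simp [eval_form, Fin.sum_univ_three, sq3]; try norm_num
      · refine ⟨![0, 1, 0], ![1, -1, -1], ?_⟩
        simp [eval_form, Fin.sum_univ_three, sq3]; try norm_num
      · refine ⟨![0, 1, 0], ![1, 1, -1], ?_⟩
        simp [eval_form, Fin.sum_univ_three, sq3]; try norm_num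

lemma prod_homog : ((l K).map form).prod.IsHomogeneous 3 := by
  simp only [l, List.map_cons, List.map_nil, List.prod_cons, List.prod_nil, mul_one]
  exact (form_homog _).mul ((form_homog _).mul (form_homog _))

lemma prod_ne : ((l K).map form).prod ≠ 0 := by
  rw [prod_l]
  intro h
  have := congrArg (eval ![(0 : K), 1, 0]) h
  simp at this

lemma g2_homog : (g2 K).IsHomogeneous 4 :=
  (form_homog _).mul ((form_homog _).mul ((form_homog _).mul (form_homog _)))

lemma g2_ne : g2 K ≠ 0 := by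
  rw [g2_eq]
  intro h
  have := congrArg (eval ![(1 : K), 0, 0]) h
  simp at this

lemma hilbFun_J [CharZero K] : ∀ d : Fin 7, hilbFun (J K) d = ![1, 3, 5, 6, 5, 3, 1] d := by
  set J1 : Ideal (MvPolynomial (Fin 3) K) := ⊥ ⊔ Ideal.span {sq K 3} with hJ1
  set J2 : Ideal (MvPolynomial (Fin 3) K) := J1 ⊔ Ideal.span {((l K).map form).prod} with hJ2
  have hJ : J K = J2 ⊔ Ideal.span {g2 K} := rfl
  have i1 : IsHomog J1 := isHomog_sup isHomog_bot sq_homog
  have i2 : IsHomog J2 := isHomog_sup i1 (prod_homog K)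
  have a0 : ∀ d, hilbFun (⊥ : Ideal (MvPolynomial (Fin 3) K)) d = Nat.multichoose 3 d :=
    hilbFun_bot
  have a1 : ∀ k, k < 2 → hilbFun J1 k = _ := fun k hk =>
    hilbFun_sup_of_lt (isHomog_bot (K := K)) sq_homog hk
  have b1 : ∀ d, hilbFun J1 (d + 2) + _ = _ := fun d =>
    hilbFun_sup (isHomog_bot (K := K)) sq_homog (sq_ne K) (nzd_bot (sq_ne K)) d
  have a2 : ∀ k, k < 3 → hilbFun J2 k = _ := fun k hk =>
    hilbFun_sup_of_lt i1 (prod_homog K) hk
  have b2 : ∀ d, hilbFun J2 (d + 3) + _ = _ := fun d =>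
    hilbFun_sup i1 (prod_homog K) (prod_ne K) (nzd1 K) d
  have a3 : ∀ k, k < 4 → hilbFun (J K) k = _ := fun k hk =>
    hilbFun_sup_of_lt i2 (g2_homog K) hk
  have b3 : ∀ d, hilbFun (J K) (d + 4) + _ = _ := fun d =>
    hilbFun_sup i2 (g2_homog K) (g2_ne K) (nzd2 K) d
  have m : ∀ d : Fin 7, Nat.multichoose 3 d = ![1, 3, 6, 10, 15, 21, 28] d := by
    intro d
    rw [Nat.multichoose_eq]
    revert d
    decide
  have m0 := m 0; have m1 := m 1; have m2 := m 2; have m3 := m 3; have m4 := m 4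
  have m5 := m 5; have m6 := m 6
  simp at m0 m1 m2 m3 m4 m5 m6
  have c0 := a1 0 (by norm_num); have c1 := a1 1 (by norm_num)
  have c2 := b1 0; have c3 := b1 1; have c4 := b1 2; have c5 := b1 3; have c6 := b1 4
  have d0 := a2 0 (by norm_num); have d1 := a2 1 (by norm_num); have d2 := a2 2 (by norm_num)
  have d3 := b2 0; have d4 := b2 1; have d5 := b2 2; have d6 := b2 3
  have e0 := a3 0 (by norm_num); have e1 := a3 1 (by norm_num); have e2 := a3 2 (by norm_num)
  have e3 := a3 3 (by norm_num)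
  have e4 := b3 0; have e5 := b3 1; have e6 := b3 2
  simp only [a0] at c0 c1 c2 c3 c4 c5 c6
  norm_num at c0 c1 c2 c3 c4 c5 c6 d0 d1 d2 d3 d4 d5 d6 e0 e1 e2 e3 e4 e5 e6
  intro d
  fin_cases d <;> simp <;> omega

lemma hilb_A [CharZero K] : hilb (stIdeal (arr fun i => castV K (v i)) (sq K 3)) =
    (1 + Polynomial.X) * (1 + Polynomial.X) *
      ((1 + Polynomial.X ^ 2) * (1 + Polynomial.X + Polynomial.X ^ 2)) := by
  have hz : ∀ d, 6 < d → hilbFun (stIdeal (arr fun i => castV K (v i)) (sq K 3)) d = 0 := by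
    intro d hd
    apply hilbFun_eq_zero
    intro g hg
    exact mem_stIdeal_of_large v (v_ne K) hg (by simpa using hd)
  have hp : ((1 + Polynomial.X) * (1 + Polynomial.X) *
      ((1 + Polynomial.X ^ 2) * (1 + Polynomial.X + Polynomial.X ^ 2)) : Polynomial ℚ) =
      1 + 3 * Polynomial.X + 5 * Polynomial.X ^ 2 + 6 * Polynomial.X ^ 3 +
      5 * Polynomial.X ^ 4 + 3 * Polynomial.X ^ 5 + Polynomial.X ^ 6 := by ring
  rw [hp]
  ext d
  rw [hilb_coeff hz]
  by_cases hd : d < 7
  · have := hilbFun_J K ⟨d, hd⟩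
    rw [stIdeal_eq]
    rw [this]
    interval_cases d <;>
      simp [Polynomial.coeff_one, Polynomial.coeff_X, Polynomial.coeff_X_pow,
        Polynomial.coeff_ofNat_mul]
  · rw [hz d (by omega)]
    have h1 : d ≠ 0 := by omega
    have h2 : 1 ≠ d := by omega
    have h3 : d ≠ 2 := by omega
    have h4 : d ≠ 3 := by omega
    have h5 : d ≠ 4 := by omega
    have h6 : d ≠ 5 := by omega
    have h7 : d ≠ 6 := by omega
    simp [Polynomial.coeff_one, Polynomial.coeff_X, Polynomial.coeff_X_pow,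
        Polynomial.coeff_ofNat_mul, h1, h2, h3, h4, h5, h6, h7]

/-! ### the restriction -/

/-- generators of the Solomon-Terao ideal of the restriction -/
noncomputable def JR : Ideal (MvPolynomial (Fin 2) K) :=
  ⊥ ⊔ Ideal.span {form ![1, 0] * form ![1, 0]} ⊔ Ideal.span {form ![0, 1] * form ![0, 1]}

lemma formsR : (form (castV K (w 0)) = X 0) ∧ (form (castV K (w 1)) = X 1) ∧
    form (![1, 0] : Fin 2 → K) = X 0 ∧ form (![0, 1] : Fin 2 → K) = X 1 := by
  refine ⟨?_, ?_, ?_, ?_⟩ <;> simp [form, castV, w, Fin.sum_univ_two]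

lemma halfR [CharZero K] : (2 : MvPolynomial (Fin 2) K) * C (1 / 2) = 1 := by
  rw [← map_ofNat C 2, ← C_mul]
  simp

lemma stIdeal_eqR [CharZero K] : stIdeal (arr fun i => castV K (w i)) (sq K 2) = JR K := by
  obtain ⟨e0, e1, e2, e3⟩ := formsR K
  ext g
  rw [mem_stIdeal_arr _ (w_ne K), JR, bot_sup_eq, Submodule.mem_sup, e2, e3]
  constructor
  · rintro ⟨f, hf, rfl⟩
    have h0 := hf 0
    have h1 := hf 1
    rw [e0] at h0
    rw [e1] at h1
    simp [Fin.sum_univ_two, castV, w] at h0 h1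
    obtain ⟨a, ha⟩ := h0
    obtain ⟨b, hb⟩ := h1
    refine ⟨X 0 * X 0 * (2 * a), Ideal.mem_span_singleton.mpr (dvd_mul_right _ _),
      X 1 * X 1 * (2 * b), Ideal.mem_span_singleton.mpr (dvd_mul_right _ _), ?_⟩
    rw [Fin.sum_univ_two, ha, hb]
    ring
  · rintro ⟨x, hx, y, hy, rfl⟩
    obtain ⟨a, rfl⟩ := Ideal.mem_span_singleton.mp hx
    obtain ⟨b, rfl⟩ := Ideal.mem_span_singleton.mp hy
    refine ⟨![C (1 / 2) * (X 0 * a), C (1 / 2) * (X 1 * b)], ?_, ?_⟩
    · intro i
      fin_cases i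
      · change form (castV K (w 0)) ∣ _
        rw [e0]
        refine ⟨C (1 / 2) * a, ?_⟩
        simp [Fin.sum_univ_two, castV, w]
        ring
      · change form (castV K (w 1)) ∣ _
        rw [e1]
        refine ⟨C (1 / 2) * b, ?_⟩
        simp [Fin.sum_univ_two, castV, w]
        ring
    · rw [Fin.sum_univ_two]
      simp only [Matrix.cons_val]
      linear_combination (-(X 0 * X 0 * a + X 1 * X 1 * b) : MvPolynomial (Fin 2) K) * halfR K

lemma hilbFun_JR : ∀ d : Fin 3, hilbFun (JR K) d = ![1, 2, 1] d := by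
  obtain ⟨-, -, e2, e3⟩ := formsR K
  set g1 : MvPolynomial (Fin 2) K := form ![1, 0] * form ![1, 0] with hg1
  set g2 : MvPolynomial (Fin 2) K := form ![0, 1] * form ![0, 1] with hg2
  have n1 : g1 ≠ 0 := by
    rw [hg1, e2]
    intro h
    have := congrArg (eval ![(1 : K), 0]) h
    simp at this
  have n2 : g2 ≠ 0 := by
    rw [hg2, e3]
    intro h
    have := congrArg (eval ![(0 : K), 1]) h
    simp at this
  have d1 : g1.IsHomogeneous 2 := (form_homog _).mul (form_homog _)
  have d2 : g2.IsHomogeneous 2 := (form_homog _).mul (form_homog _)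
  set J1 : Ideal (MvPolynomial (Fin 2) K) := ⊥ ⊔ Ideal.span {g1} with hJ1
  have hJ : JR K = J1 ⊔ Ideal.span {g2} := rfl
  have i1 : IsHomog J1 := isHomog_sup isHomog_bot d1
  have z : NZD J1 g2 := by
    have : NZD J1 (form ![0, 1]) := by
      apply nzd_span
      · intro h; simpa using congrFun h 1
      · rintro ⟨r, hr⟩
        have := congrArg (eval ![(1 : K), 0]) hr
        rw [hg1, e2, e3] at this
        simp at this
    exact NZD.mul this this
  have a0 : ∀ d, hilbFun (⊥ : Ideal (MvPolynomial (Fin 2) K)) d = Nat.multichoose 2 d :=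
    hilbFun_bot
  have a1 : ∀ k, k < 2 → hilbFun J1 k = _ := fun k hk =>
    hilbFun_sup_of_lt (isHomog_bot (K := K)) d1 hk
  have b1 : ∀ d, hilbFun J1 (d + 2) + _ = _ := fun d =>
    hilbFun_sup (isHomog_bot (K := K)) d1 n1 (nzd_bot n1) d
  have a2 : ∀ k, k < 2 → hilbFun (JR K) k = _ := fun k hk => hilbFun_sup_of_lt i1 d2 hk
  have b2 : ∀ d, hilbFun (JR K) (d + 2) + _ = _ := fun d => hilbFun_sup i1 d2 n2 z d
  have m : ∀ d : Fin 3, Nat.multichoose 2 d = ![1, 2, 3] d := by
    intro d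
    rw [Nat.multichoose_eq]
    revert d
    decide
  have m0 := m 0; have m1 := m 1; have m2 := m 2
  simp at m0 m1 m2
  have c0 := a1 0 (by norm_num); have c1 := a1 1 (by norm_num)
  have c2 := b1 0
  have e0 := a2 0 (by norm_num); have e1 := a2 1 (by norm_num)
  have e2 := b2 0
  simp only [a0] at c0 c1 c2
  norm_num at c0 c1 c2 e0 e1 e2
  intro d
  fin_cases d <;> simp <;> omega

lemma hilb_R [CharZero K] : hilb (stIdeal (arr fun i => castV K (w i)) (sq K 2)) =
    (1 + Polynomial.X) * (1 + Polynomial.X) := by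
  have hz : ∀ d, 2 < d → hilbFun (stIdeal (arr fun i => castV K (w i)) (sq K 2)) d = 0 := by
    intro d hd
    apply hilbFun_eq_zero
    intro g hg
    exact mem_stIdeal_of_large w (w_ne K) hg (by simpa using hd)
  have hp : ((1 + Polynomial.X) * (1 + Polynomial.X) : Polynomial ℚ) =
      1 + 2 * Polynomial.X + Polynomial.X ^ 2 := by ring
  rw [hp]
  ext d
  rw [hilb_coeff hz]
  by_cases hd : d < 3
  · have := hilbFun_JR K ⟨d, hd⟩
    rw [stIdeal_eqR]
    rw [this]
    interval_cases d <;>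
      simp [Polynomial.coeff_one, Polynomial.coeff_X, Polynomial.coeff_X_pow,
        Polynomial.coeff_ofNat_mul]
  · rw [hz d (by omega)]
    have h1 : d ≠ 0 := by omega
    have h2 : 1 ≠ d := by omega
    have h3 : d ≠ 2 := by omega
    simp [Polynomial.coeff_one, Polynomial.coeff_X, Polynomial.coeff_X_pow,
        Polynomial.coeff_ofNat_mul, h1, h2, h3]

theorem second [CharZero K] :
    ∃ (A : Set (Submodule K (Fin 3 → K))) (ι : (Fin 2 → K) →ₗ[K] (Fin 3 → K))
      (η : MvPolynomial (Fin 3) K),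
      IsArrangement A ∧ Function.Injective ι ∧ LinearMap.range ι ∈ A ∧ η ∈ formsU 2 A ∧
      hilb (stIdeal (restrict ι A) (pullback ι η)) ∣ hilb (stIdeal A η) ∧
      ¬ poincare (restrict ι A) ∣ poincare A := by
  refine ⟨arr fun i => castV K (v i), emb K 2, sq K 3, arr_isArrangement _ (v_ne K),
    emb_injective, ?_, sq_mem_formsU v, ?_, ?_⟩
  · refine ⟨0, ?_⟩
    rw [range_emb]
    change kernel (castV K (v 0)) = _
    congr 1
    ext i
    fin_cases i <;> simp [castV, v]
  · rw [restrictA, pullback_sq, hilb_A, hilb_R]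
    exact dvd_mul_right _ _
  · rw [restrictA, poincareA, poincareR]
    exact not_dvd

end Pool.Agent.SolTer.Second
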